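import Pool.Agent.W997.DB.Inst

/-!
# Boolean circuits of small depth for the evaluation of the unrolled De Bruijn graph
-/

set_option autoImplicit false

namespace Pool.Agent.W997.DB

open Finset
open Pool.Agent.W997.TS (bit)

/-- The label of a gate of a circuit with the set `V` of inputs and the set `G` of gates. -/
inductive Op (V G : Type) : Type where
  /-- an input -/
  | lit (v : V) : Op V G
  /-- a NOT gate -/
  | not (a : G) : Op V G
  /-- an AND gate of fan-in 2 -/
  | and (a b : G) : Op V G
  /-- an OR gate of fan-in 2 -/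
  | or (a b : G) : Op V G

namespace Op

variable {V G : Type}

/-- The gates which feed a gate. -/
def args : Op V G → List G
  | lit _ => []
  | not a => [a]
  | and a b => [a, b]
  | or a b => [a, b]

/-- The value of a gate, if the values of the inputs and of the other gates are given. -/
def eval (y : V → Bool) (u : G → Bool) : Op V G → Bool
  | lit v => y v
  | not a => !u a
  | and a b => u a && u b
  | or a b => u a || u b

end Op

/-- A Boolean circuit with the set `V` of inputs: a finite set of gates with labels, and a level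
for every gate such that the gates which feed a gate have a smaller level. -/
structure Circuit (V : Type) where
  /-- the gates -/
  Gate : Type
  /-- there are finitely many gates -/
  [fintype : Fintype Gate]
  /-- the label of a gate -/
  op : Gate → Op V Gate
  /-- the level of a gate -/
  level : Gate → ℕ
  /-- the levels increase along the wires -/
  level_lt : ∀ g, ∀ a ∈ (op g).args, level a < level g
  /-- the output gate -/
  out : Gate

attribute [instance] Circuit.fintype

namespace Circuit

variable {V : Type} (C : Circuit V)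

/-- The number of gates. -/
def size : ℕ := Fintype.card C.Gate

/-- The largest level, which bounds the number of gates on every path. -/
def depth : ℕ := univ.sup C.level

/-- On the input `y` the output gate has the value `b`. -/
def Outputs (y : V → Bool) (b : Bool) : Prop :=
  ∃ u : C.Gate → Bool, (∀ g, u g = (C.op g).eval y u) ∧ u C.out = b

/-- The values of the gates are determined by the input. -/
theorem values_unique (y : V → Bool) (u u' : C.Gate → Bool)
    (h : ∀ g, u g = (C.op g).eval y u) (h' : ∀ g, u' g = (C.op g).eval y u') : u = u' := by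
  have key : ∀ n, ∀ g, C.level g < n → u g = u' g := by
    intro n
    induction n with
    | zero => intro g hg; omega
    | succ n ih =>
      intro g hg
      have hl := C.level_lt g
      rw [h g, h' g]
      cases hop : C.op g with
      | lit v => rfl
      | not a =>
        rw [hop] at hl
        have h1 := ih a (by have := hl a (by simp [Op.args]); omega)
        simp only [Op.eval, h1]
      | and a b =>
        rw [hop] at hl
        have h1 := ih a (by have := hl a (by simp [Op.args]); omega)
        have h2 := ih b (by have := hl b (by simp [Op.args]); omega)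
        simp only [Op.eval, h1, h2]
      | or a b =>
        rw [hop] at hl
        have h1 := ih a (by have := hl a (by simp [Op.args]); omega)
        have h2 := ih b (by have := hl b (by simp [Op.args]); omega)
        simp only [Op.eval, h1, h2]
  funext g
  exact key _ g (Nat.lt_succ_self _)

theorem output_unique (y : V → Bool) (b b' : Bool) (h : C.Outputs y b) (h' : C.Outputs y b') :
    b = b' := by
  obtain ⟨u, h1, rfl⟩ := h
  obtain ⟨u', h1', rfl⟩ := h'
  rw [C.values_unique y u u' h1 h1']

end Circuit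

/-- The bits of an input over the alphabet `Fin (2 ^ ℓ)`. -/
def bits {V : Type} {ℓ : ℕ} (x : V → Fin (2 ^ ℓ)) : V × Fin ℓ → Bool :=
  fun v => (x v.1).val.testBit v.2.val

section Eval

variable {D ρ h ℓ : ℕ}

/-- The tuple of letters with given bits. -/
def ent (w : Fin (D * ℓ) → Bool) : Fin D → Fin (2 ^ ℓ) := fun s =>
  ⟨Nat.ofBits (fun e : Fin ℓ => w (finProdFinEquiv (s, e))), Nat.ofBits_lt_two_pow _⟩

/-- The entry of the table of a node with given bits (or the variable of a leaf). -/
def entV (v : (Fin (h + 1) × Word D ρ) × Fin D) (w : Fin (D * ℓ) → Bool) :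
    Var D ρ h (2 ^ ℓ) :=
  if hj : v.1.1.val = 0 then Sum.inr (v.1.2, v.2)
  else Sum.inl (⟨v.1.1.val - 1, by have := v.1.1.2; omega⟩, v.1.2, v.2, ent w)

/-- A child of a node. -/
def chd (v : (Fin (h + 1) × Word D ρ) × Fin D) (s : Fin D) : (Fin (h + 1) × Word D ρ) × Fin D :=
  ((⟨v.1.1.val - 1, by have := v.1.1.2; omega⟩, shift v.1.2 v.2), s)

/-- The bits of the values of the children. -/
def tru (x : Input D ρ h (2 ^ ℓ)) (v : (Fin (h + 1) × Word D ρ) × Fin D) :
    Fin (D * ℓ) → Bool := fun q =>
  (valF x (chd v (finProdFinEquiv.symm q).1)).val.testBit (finProdFinEquiv.symm q).2.val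

theorem valF_tru (x : Input D ρ h (2 ^ ℓ)) (v : (Fin (h + 1) × Word D ρ) × Fin D) :
    x (entV v (tru x v)) = valF x v := by
  rw [valF_eq]
  congr 1
  unfold entV sys
  simp only
  by_cases hj : v.1.1.val = 0
  · rw [dif_pos hj, dif_pos hj]
  · rw [dif_neg hj, dif_neg hj]
    congr 4
    funext s
    apply Fin.ext
    simp only [ent, tru, Equiv.symm_apply_apply]
    rw [Nat.ofBits_testBit, Nat.mod_eq_of_lt (Fin.is_lt _)]
    rfl

/-- The first `m` bits are taken from `w`, the other ones are the true ones. -/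
def mix (x : Input D ρ h (2 ^ ℓ)) (v : (Fin (h + 1) × Word D ρ) × Fin D) (m : ℕ)
    (w : Fin (D * ℓ) → Bool) : Fin (D * ℓ) → Bool := fun q =>
  if q.val < m then w q else tru x v q

/-- The bit `c` of the entry with partly given bits. -/
def sel (x : Input D ρ h (2 ^ ℓ)) (v : (Fin (h + 1) × Word D ρ) × Fin D) (c : Fin ℓ) (m : ℕ)
    (w : Fin (D * ℓ) → Bool) : Bool :=
  (x (entV v (mix x v m w))).val.testBit c.val

theorem sel_zero (x : Input D ρ h (2 ^ ℓ)) (v : (Fin (h + 1) × Word D ρ) × Fin D) (c : Fin ℓ)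
    (w : Fin (D * ℓ) → Bool) : sel x v c 0 w = (valF x v).val.testBit c.val := by
  unfold sel
  have : mix x v 0 w = tru x v := by
    funext q
    simp [mix]
  rw [this, valF_tru x v]

theorem sel_top (x : Input D ρ h (2 ^ ℓ)) (v : (Fin (h + 1) × Word D ρ) × Fin D) (c : Fin ℓ)
    (m : ℕ) (w : Fin (D * ℓ) → Bool) (hm : v.1.1.val = 0 ∨ ¬ m < D * ℓ) :
    sel x v c m w = (x (entV v w)).val.testBit c.val := by
  unfold sel
  rcases hm with hm | hm
  · unfold entV
    rw [dif_pos hm, dif_pos hm]
  · have : mix x v m w = w := by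
      funext q
      unfold mix
      rw [if_pos]
      have := q.2
      omega
    rw [this]

theorem sel_succ (x : Input D ρ h (2 ^ ℓ)) (v : (Fin (h + 1) × Word D ρ) × Fin D) (c : Fin ℓ)
    (m : ℕ) (hm : m < D * ℓ) (w : Fin (D * ℓ) → Bool) (b : Bool) (hb : tru x v ⟨m, hm⟩ = b) :
    sel x v c (m + 1) (Function.update w ⟨m, hm⟩ b) = sel x v c m w := by
  unfold sel
  congr 4
  funext q
  unfold mix
  by_cases h1 : q = ⟨m, hm⟩
  · subst h1
    rw [if_pos (by simp only; omega), if_neg (by simp only; omega), Function.update_self, hb]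
  · have h2 : q.val ≠ m := fun h3 => h1 (Fin.ext h3)
    rw [Function.update_of_ne h1]
    by_cases h3 : q.val < m
    · rw [if_pos (by omega), if_pos h3]
    · rw [if_neg (by omega), if_neg h3]

/-- The gates. -/
abbrev EGate (D ρ h ℓ : ℕ) : Type :=
  ((Fin (h + 1) × Word D ρ) × Fin D) × Fin ℓ × Fin (D * ℓ + 1) × (Fin (D * ℓ) → Bool) × Fin 4

/-- The gate for a bit of the value of a node. -/
def valG (v : (Fin (h + 1) × Word D ρ) × Fin D) (c : Fin ℓ) (κ : Fin 4) : EGate D ρ h ℓ :=
  (v, c, 0, fun _ => false, κ)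

/-- The labels of the gates. -/
def eop (g : EGate D ρ h ℓ) : Op (Var D ρ h (2 ^ ℓ) × Fin ℓ) (EGate D ρ h ℓ) :=
  if g.2.2.2.2 = 3 then Op.not (valG g.1 g.2.1 0)
  else if hm : g.1.1.1.val = 0 ∨ ¬ g.2.2.1.val < D * ℓ then
    Op.lit (entV g.1 g.2.2.2.1, g.2.1)
  else if g.2.2.2.2 = 0 then
    Op.or (g.1, g.2.1, g.2.2.1, g.2.2.2.1, 1) (g.1, g.2.1, g.2.2.1, g.2.2.2.1, 2)
  else if g.2.2.2.2 = 1 then
    Op.and
      (valG (chd g.1 (finProdFinEquiv.symm (⟨g.2.2.1.val, by omega⟩ : Fin (D * ℓ))).1)
        (finProdFinEquiv.symm (⟨g.2.2.1.val, by omega⟩ : Fin (D * ℓ))).2 3)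
      (g.1, g.2.1, ⟨g.2.2.1.val + 1, by omega⟩,
        Function.update g.2.2.2.1 ⟨g.2.2.1.val, by omega⟩ false, 0)
  else
    Op.and
      (valG (chd g.1 (finProdFinEquiv.symm (⟨g.2.2.1.val, by omega⟩ : Fin (D * ℓ))).1)
        (finProdFinEquiv.symm (⟨g.2.2.1.val, by omega⟩ : Fin (D * ℓ))).2 0)
      (g.1, g.2.1, ⟨g.2.2.1.val + 1, by omega⟩,
        Function.update g.2.2.2.1 ⟨g.2.2.1.val, by omega⟩ true, 0)

/-- The levels of the gates. -/
def elev (g : EGate D ρ h ℓ) : ℕ :=
  if g.2.2.2.2 = 3 then g.1.1.1.val * (2 * (D * ℓ) + 1) + 1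
  else if g.1.1.1.val = 0 then 0
  else if g.2.2.2.2 = 0 then
    (g.1.1.1.val - 1) * (2 * (D * ℓ) + 1) + 1 + 2 * (D * ℓ - g.2.2.1.val)
  else (g.1.1.1.val - 1) * (2 * (D * ℓ) + 1) + 2 * (D * ℓ - g.2.2.1.val)

theorem elev_valG (v : (Fin (h + 1) × Word D ρ) × Fin D) (c : Fin ℓ) :
    elev (valG v c 0) = v.1.1.val * (2 * (D * ℓ) + 1) := by
  unfold elev valG
  simp only [Fin.isValue, Fin.reduceEq, if_false, if_true, Fin.coe_ofNat_eq_mod, Nat.zero_mod,
    Nat.sub_zero]
  split_ifs with h1
  · rw [h1, zero_mul]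
  · obtain ⟨j, hj⟩ : ∃ j, v.1.1.val = j + 1 := ⟨v.1.1.val - 1, by omega⟩
    rw [hj, Nat.add_sub_cancel]
    ring

theorem elev_valG3 (v : (Fin (h + 1) × Word D ρ) × Fin D) (c : Fin ℓ) :
    elev (valG v c 3) = v.1.1.val * (2 * (D * ℓ) + 1) + 1 := by
  unfold elev valG
  simp

theorem eop_lt (g : EGate D ρ h ℓ) : ∀ a ∈ (eop g).args, elev a < elev g := by
  obtain ⟨v, c, m, w, κ⟩ := g
  intro a ha
  unfold eop at ha
  simp only at ha
  by_cases h3 : κ = 3
  · rw [if_pos h3] at ha
    simp only [Op.args, List.mem_singleton] at ha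
    subst ha
    rw [elev_valG]
    unfold elev
    simp only
    rw [if_pos h3]
    omega
  · rw [if_neg h3] at ha
    by_cases hm : v.1.1.val = 0 ∨ ¬ m.val < D * ℓ
    · rw [dif_pos hm] at ha
      simp [Op.args] at ha
    · rw [dif_neg hm] at ha
      push Not at hm
      obtain ⟨hj, hm⟩ := hm
      by_cases h0 : κ = 0
      · rw [if_pos h0] at ha
        subst h0
        simp only [Op.args, List.mem_cons, List.not_mem_nil, or_false] at ha
        have e1 : elev ((v, c, m, w, 0) : EGate D ρ h ℓ) =
            (v.1.1.val - 1) * (2 * (D * ℓ) + 1) + 1 + 2 * (D * ℓ - m.val) := by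
          unfold elev
          simp only [Fin.isValue, Fin.reduceEq, if_false, if_true, if_neg hj]
        rcases ha with rfl | rfl
        · rw [e1]
          unfold elev
          simp only [Fin.isValue, Fin.reduceEq, if_false, if_neg hj, Fin.reduceEq]
          simp
        · rw [e1]
          unfold elev
          simp only [Fin.isValue, Fin.reduceEq, if_false, if_neg hj, Fin.reduceEq]
          simp
      · rw [if_neg h0] at ha
        have e1 : elev ((v, c, m, w, κ) : EGate D ρ h ℓ) =
            (v.1.1.val - 1) * (2 * (D * ℓ) + 1) + 2 * (D * ℓ - m.val) := by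
          unfold elev
          simp only
          rw [if_neg h3, if_neg hj, if_neg h0]
        have e2 : ∀ w' : Fin (D * ℓ) → Bool,
            elev ((v, c, ⟨m.val + 1, by omega⟩, w', 0) : EGate D ρ h ℓ) <
            (v.1.1.val - 1) * (2 * (D * ℓ) + 1) + 2 * (D * ℓ - m.val) := by
          intro w'
          unfold elev
          simp only [Fin.isValue, Fin.reduceEq, if_false, if_true, if_neg hj]
          omega
        rw [e1]
        by_cases h1 : κ = 1
        · rw [if_pos h1] at ha
          simp only [Op.args, List.mem_cons, List.not_mem_nil, or_false] at ha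
          rcases ha with rfl | rfl
          · rw [elev_valG3]
            simp only [chd]
            omega
          · exact e2 _
        · rw [if_neg h1] at ha
          simp only [Op.args, List.mem_cons, List.not_mem_nil, or_false] at ha
          rcases ha with rfl | rfl
          · rw [elev_valG]
            simp only [chd]
            omega
          · exact e2 _

/-- The values of the gates. -/
def eval (x : Input D ρ h (2 ^ ℓ)) (g : EGate D ρ h ℓ) : Bool :=
  if g.2.2.2.2 = 3 then !(valF x g.1).val.testBit g.2.1.val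
  else if hm : g.1.1.1.val = 0 ∨ ¬ g.2.2.1.val < D * ℓ then sel x g.1 g.2.1 g.2.2.1.val g.2.2.2.1
  else if g.2.2.2.2 = 0 then sel x g.1 g.2.1 g.2.2.1.val g.2.2.2.1
  else if g.2.2.2.2 = 1 then
    (!tru x g.1 ⟨g.2.2.1.val, by omega⟩ && sel x g.1 g.2.1 (g.2.2.1.val + 1)
      (Function.update g.2.2.2.1 ⟨g.2.2.1.val, by omega⟩ false))
  else
    (tru x g.1 ⟨g.2.2.1.val, by omega⟩ && sel x g.1 g.2.1 (g.2.2.1.val + 1)
      (Function.update g.2.2.2.1 ⟨g.2.2.1.val, by omega⟩ true))

theorem eval_zero (x : Input D ρ h (2 ^ ℓ)) (v : (Fin (h + 1) × Word D ρ) × Fin D) (c : Fin ℓ)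
    (m : Fin (D * ℓ + 1)) (w : Fin (D * ℓ) → Bool) :
    eval x ((v, c, m, w, 0) : EGate D ρ h ℓ) = sel x v c m.val w := by
  unfold eval
  simp only [Fin.isValue, Fin.reduceEq, if_false, if_true, dite_eq_ite, ite_self]

theorem eval_valG (x : Input D ρ h (2 ^ ℓ)) (v : (Fin (h + 1) × Word D ρ) × Fin D) (c : Fin ℓ) :
    eval x (valG v c 0) = (valF x v).val.testBit c.val := by
  unfold valG
  rw [eval_zero]
  exact sel_zero x v c _

theorem eval_valG3 (x : Input D ρ h (2 ^ ℓ)) (v : (Fin (h + 1) × Word D ρ) × Fin D) (c : Fin ℓ) :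
    eval x (valG v c 3) = !(valF x v).val.testBit c.val := by
  unfold valG eval
  simp only [Fin.isValue, if_true]

theorem eval_eop (x : Input D ρ h (2 ^ ℓ)) (g : EGate D ρ h ℓ) :
    eval x g = (eop g).eval (bits x) (eval x) := by
  obtain ⟨v, c, m, w, κ⟩ := g
  unfold eop
  simp only
  by_cases h3 : κ = 3
  · rw [if_pos h3]
    subst h3
    simp only [Op.eval]
    rw [eval_valG]
    unfold eval
    simp only [Fin.isValue, if_true]
  · rw [if_neg h3]
    by_cases hm : v.1.1.val = 0 ∨ ¬ m.val < D * ℓ
    · rw [dif_pos hm]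
      simp only [Op.eval, bits]
      rw [← sel_top x v c m.val w hm]
      unfold eval
      simp only
      rw [if_neg h3, dif_pos hm]
    · rw [dif_neg hm]
      have hm' := hm
      push Not at hm'
      obtain ⟨hj, hml⟩ := hm'
      have e1 : eval x ((v, c, m, w, 1) : EGate D ρ h ℓ) =
          (!tru x v ⟨m.val, hml⟩ && sel x v c (m.val + 1)
            (Function.update w ⟨m.val, hml⟩ false)) := by
        unfold eval
        simp only [Fin.isValue, Fin.reduceEq, if_false, if_true, dif_neg hm]
      have e2 : eval x ((v, c, m, w, 2) : EGate D ρ h ℓ) =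
          (tru x v ⟨m.val, hml⟩ && sel x v c (m.val + 1)
            (Function.update w ⟨m.val, hml⟩ true)) := by
        unfold eval
        simp only [Fin.isValue, Fin.reduceEq, if_false, dif_neg hm]
      by_cases h0 : κ = 0
      · rw [if_pos h0]
        subst h0
        simp only [Op.eval]
        rw [eval_zero, e1, e2]
        cases htr : tru x v ⟨m.val, hml⟩ with
        | false =>
          rw [sel_succ x v c m.val hml w false htr]
          simp
        | true =>
          rw [sel_succ x v c m.val hml w true htr]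
          simp
      · rw [if_neg h0]
        by_cases h1 : κ = 1
        · rw [if_pos h1]
          subst h1
          simp only [Op.eval]
          rw [e1, eval_valG3, eval_zero]
          rfl
        · rw [if_neg h1]
          have h2 : κ = 2 := by
            have := κ.2
            apply Fin.ext
            have a0 : κ.val ≠ 0 := fun h => h0 (Fin.ext h)
            have a1 : κ.val ≠ 1 := fun h => h1 (Fin.ext h)
            have a3 : κ.val ≠ 3 := fun h => h3 (Fin.ext h)
            simp only [Fin.isValue, Fin.reduceFinMk, Fin.coe_ofNat_eq_mod, Nat.reduceMod]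
            omega
          subst h2
          simp only [Op.eval]
          rw [e2, eval_valG, eval_zero]
          rfl

/-- The circuit which computes the lowest bit of the value of the root. -/
def circ (D ρ h ℓ : ℕ) (hℓ : 0 < ℓ) (g0 : Word D ρ) (i0 : Fin D) :
    Circuit (Var D ρ h (2 ^ ℓ) × Fin ℓ) where
  Gate := EGate D ρ h ℓ
  op := eop
  level := elev
  level_lt := eop_lt
  out := valG ((hgt h 0, g0), i0) ⟨0, hℓ⟩ 3

theorem circ_size (hℓ : 0 < ℓ) (g0 : Word D ρ) (i0 : Fin D) :
    (circ D ρ h ℓ hℓ g0 i0).size =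
      ((h + 1) * D ^ (ρ + 1) * D) * (ℓ * ((D * ℓ + 1) * (2 ^ (D * ℓ) * 4))) := by
  unfold Circuit.size
  change Fintype.card (EGate D ρ h ℓ) = _
  simp only [Fintype.card_prod, Fintype.card_fun, Fintype.card_fin, Fintype.card_bool]

theorem circ_depth (hℓ : 0 < ℓ) (g0 : Word D ρ) (i0 : Fin D) :
    (circ D ρ h ℓ hℓ g0 i0).depth ≤ h * (2 * (D * ℓ) + 1) + 1 := by
  unfold Circuit.depth
  apply Finset.sup_le
  intro g _
  change elev g ≤ _
  obtain ⟨⟨⟨j, g⟩, i⟩, c, m, w, κ⟩ := g
  have hj : j.val ≤ h := by have := j.2; omega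
  have h1 : j.val * (2 * (D * ℓ) + 1) ≤ h * (2 * (D * ℓ) + 1) := Nat.mul_le_mul_right _ hj
  have h2 : j.val ≠ 0 → (j.val - 1) * (2 * (D * ℓ) + 1) + (2 * (D * ℓ) + 1) =
      j.val * (2 * (D * ℓ) + 1) := by
    intro h3
    obtain ⟨j', hj'⟩ : ∃ j', j.val = j' + 1 := ⟨j.val - 1, by omega⟩
    rw [hj', Nat.add_sub_cancel]
    ring
  unfold elev
  simp only
  split_ifs with h3 h4 h5
  · omega
  · omega
  · have := h2 h4
    omega
  · have := h2 h4
    omega

theorem circ_outputs (hℓ : 0 < ℓ) (g0 : Word D ρ) (i0 : Fin D) (x : Input D ρ h (2 ^ ℓ)) :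
    (circ D ρ h ℓ hℓ g0 i0).Outputs (bits x) (bit (value x h le_rfl g0 i0)) := by
  refine ⟨eval x, eval_eop x, ?_⟩
  change eval x (valG ((hgt h 0, g0), i0) ⟨0, hℓ⟩ 3) = _
  rw [eval_valG3]
  have hroot : valF x ((hgt h 0, g0), i0) = value x h le_rfl g0 i0 := rfl
  rw [hroot]
  unfold bit
  rw [Nat.testBit_zero]
  have := Nat.mod_two_eq_zero_or_one (value x h le_rfl g0 i0).val
  rcases this with h1 | h1 <;> simp [h1]

end Eval

end Pool.Agent.W997.DB
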