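import Pool.Agent.W997.DB.Final2

/-!
# Short forms of the statements
-/

set_option autoImplicit false

namespace Pool.Agent.W997.DB

open Finset
open Pool.Agent.W997.TS (DBP bit)

/-- The lowest bit of the value of the root `(g, i)`. -/
def rootBit {D ρ h k : ℕ} (g : Word D ρ) (i : Fin D) (x : Input D ρ h k) : Bool :=
  bit (value x h le_rfl g i)

section

variable {V : Type}

/-- The function is computed by a Boolean circuit over the bits of the variables which has size at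
most `S` and depth at most `T`. -/
def ByCircuit {ℓ : ℕ} (f : (V → Fin (2 ^ ℓ)) → Bool) (S T : ℝ) : Prop :=
  ∃ C : Circuit (V × Fin ℓ), (C.size : ℝ) ≤ S ∧ (C.depth : ℝ) ≤ T ∧
    ∀ x, C.Outputs (bits x) (f x)

variable [Fintype V] [DecidableEq V] {k : ℕ}

/-- The function is computed by a deterministic branching program of log size at most `s` which on
every input stops after at most `t` steps and reads at most `m` different variables. -/
def ByProgram (f : (V → Fin k) → Bool) (s t m : ℝ) : Prop :=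
  ∃ P : DBP V k, Real.log P.size ≤ s ∧
    ∀ x, ∃ t' m' : ℕ, (t' : ℝ) ≤ t ∧ (m' : ℝ) ≤ m ∧ P.Run x t' m' (f x)

/-- Every deterministic branching program of log size at most `s` which halts on all inputs and
agrees with the function on a fraction of at least `1 / 2 + γ` of them reads on average at least `m`
different variables. -/
def HardReads (f : (V → Fin k) → Bool) (s γ m : ℝ) : Prop :=
  ∀ (P : DBP V k) (T M : (V → Fin k) → ℕ) (R : (V → Fin k) → Bool), Real.log P.size ≤ s →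
    (∀ x, P.Run x (T x) (M x) (R x)) →
    (1 / 2 + γ) * Fintype.card (V → Fin k) ≤ (univ.filter (fun x => R x = f x)).card →
    m * Fintype.card (V → Fin k) ≤ ∑ x, (M x : ℝ)

/-- Every deterministic branching program of log size at most `s` which halts on all inputs and
agrees with the function on a fraction of at least `1 / 2 + γ` of them reads on average at least `m`
different variables or makes on average at least `t` steps. -/
def HardReadsOrTime (f : (V → Fin k) → Bool) (s γ m t : ℝ) : Prop :=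
  ∀ (P : DBP V k) (T M : (V → Fin k) → ℕ) (R : (V → Fin k) → Bool), Real.log P.size ≤ s →
    (∀ x, P.Run x (T x) (M x) (R x)) →
    (1 / 2 + γ) * Fintype.card (V → Fin k) ≤ (univ.filter (fun x => R x = f x)).card →
    m * Fintype.card (V → Fin k) ≤ ∑ x, (M x : ℝ) ∨ t * Fintype.card (V → Fin k) ≤ ∑ x, (T x : ℝ)

end

theorem run_le {V : Type} {k : ℕ} [DecidableEq V] (P : DBP V k) {x : V → Fin k} {t m : ℕ}
    {r : Bool} (h : P.Run x t m r) : m ≤ t := by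
  obtain ⟨l, -, h1, h2⟩ := h
  rw [← h1, ← h2]
  refine (List.toFinset_card_le _).trans ?_
  rw [List.length_map]

/-- **The law for the space.** -/
theorem law_stmt (δ : ℝ) (hδ : 0 < δ) : ∃ D ℓ₁ : ℕ, 2 ≤ D ∧ 1 ≤ ℓ₁ ∧ ∃ c : ℝ, 0 < c ∧ ∃ p₀ : ℕ,
    ∀ p : ℕ, p₀ ≤ p → ∀ h : ℕ, 1 ≤ h → h ≤ 2 ^ p → ∀ ℓ : ℕ, ℓ = ℓ₁ * p → ∀ N : ℝ,
    N = Fintype.card (Var D (2 * p) h (2 ^ ℓ)) → N ^ c ≤ 2 ^ p ∧
      ∀ (g : Word D (2 * p)) (i : Fin D) (f : Input D (2 * p) h (2 ^ ℓ) → Bool),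
      f = rootBit g i →
      ByCircuit f (N ^ 2) (5 * h * Real.log N) ∧
      ByProgram f (2 * h * Real.log N) (D ^ (h + 1)) (N ^ δ) ∧
      ByProgram f (N ^ δ) (N ^ δ) (N ^ δ) ∧
      HardReads f (c * h * Real.log N) (N ^ (-c)) (N ^ (1 - δ)) := by
  obtain ⟨β, p₀, hβ, hp₀, hpar⟩ := exists_par δ hδ
  have hb4 : 4 ≤ 2 ^ β := by
    calc 4 = 2 ^ 2 := by norm_num
      _ ≤ 2 ^ β := Nat.pow_le_pow_right (by norm_num) (by omega)
  obtain ⟨D, hD⟩ : ∃ D, D = (2 ^ β) ^ 3 := ⟨_, rfl⟩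
  have hD2 : 2 ≤ D := by
    rw [hD]
    calc 2 ≤ 2 ^ β := by omega
      _ = (2 ^ β) ^ 1 := (pow_one _).symm
      _ ≤ (2 ^ β) ^ 3 := Nat.pow_le_pow_right (by positivity) (by norm_num)
  have hβ0 : (0 : ℝ) < β := by
    have : 0 < β := by omega
    exact_mod_cast this
  refine ⟨D, 21 * β, hD2, by omega,
    1 / (4 * (β : ℝ) * (21 * ((2 ^ β : ℕ) : ℝ) ^ 3 + 9)), by positivity, p₀, ?_⟩
  intro p hp h h1 hh ℓ hℓ N' hN'
  obtain ⟨N, hN⟩ : ∃ N, N = Fintype.card (Var D (2 * p) h (2 ^ ℓ)) := ⟨_, rfl⟩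
  rw [← hN] at hN'
  subst hN'
  have hpp : p < 2 ^ p := Nat.lt_two_pow_self
  have hh' : h + 1 ≤ (2 ^ β) ^ (2 * p) := by
    calc h + 1 ≤ 2 ^ p * 2 ^ p := by nlinarith
      _ = 2 ^ (2 * p) := by rw [← pow_add]; congr 1; ring
      _ ≤ (2 ^ β) ^ (2 * p) := Nat.pow_le_pow_left (by omega) _
  have H := hpar D hD p hp h h1 hh' ℓ hℓ N hN
  refine ⟨?_, ?_⟩
  · refine H.hNc.trans ?_
    rw [← Real.rpow_natCast]
    apply Real.rpow_le_rpow_of_exponent_le (by norm_num)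
    have hp0 : (0 : ℝ) ≤ p := by positivity
    linarith
  · rintro g i f rfl
    refine ⟨?_, ?_, ?_, ?_⟩
    · obtain ⟨C, h2, h3, h4⟩ := H.circuits g i
      exact ⟨C, by exact_mod_cast h2, h3, h4⟩
    · obtain ⟨P, h2, h3⟩ := H.space g i
      refine ⟨P, h2, ?_⟩
      intro x
      obtain ⟨t, m, h4, h5, h6⟩ := h3 x
      exact ⟨t, m, by exact_mod_cast h4, h5, h6⟩
    · obtain ⟨P, h2, h3⟩ := H.time g i
      refine ⟨P, h2, ?_⟩
      intro x
      obtain ⟨t, m, h4, h5⟩ := h3 x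
      have h6 : (m : ℝ) ≤ t := by exact_mod_cast run_le P h5
      exact ⟨t, m, h4, h6.trans h4, h5⟩
    · intro P T M R hS hrun hag
      exact H.law hh g i P T M R hS hrun hag

/-- **The tradeoff between time and space.** -/
theorem tradeoff_stmt (δ : ℝ) (hδ : 0 < δ) : ∃ D ℓ₁ : ℕ, 2 ≤ D ∧ 1 ≤ ℓ₁ ∧
    ∃ c : ℝ, 0 < c ∧ ∃ p₀ : ℕ,
    ∀ p : ℕ, p₀ ≤ p → ∀ q : ℕ, 2 ≤ q → q ≤ 2 ^ p → ∀ h : ℕ, h = q * (2 * p + 1) →
    ∀ ℓ : ℕ, ℓ = ℓ₁ * p → ∀ N : ℝ,
    N = Fintype.card (Var D (2 * p) h (2 ^ ℓ)) → N ^ c ≤ 2 ^ p ∧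
      ∀ (g : Word D (2 * p)) (i : Fin D) (f : Input D (2 * p) h (2 ^ ℓ) → Bool),
      f = rootBit g i →
      ByCircuit f (N ^ 2) (5 * q * Real.log N ^ 2) ∧
      ByProgram f (2 * q * Real.log N ^ 2) (N ^ q) (N ^ δ) ∧
      ByProgram f (N ^ δ) (N ^ δ) (N ^ δ) ∧
      HardReadsOrTime f (N ^ c) (N ^ (-c)) (N ^ (1 - δ)) (N ^ (c * q)) := by
  obtain ⟨β, p₀, hβ, hp₀, hpar⟩ := exists_par δ hδ
  have hb4 : 4 ≤ 2 ^ β := by
    calc 4 = 2 ^ 2 := by norm_num
      _ ≤ 2 ^ β := Nat.pow_le_pow_right (by norm_num) (by omega)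
  obtain ⟨D, hD⟩ : ∃ D, D = (2 ^ β) ^ 3 := ⟨_, rfl⟩
  have hD2 : 2 ≤ D := by
    rw [hD]
    calc 2 ≤ 2 ^ β := by omega
      _ = (2 ^ β) ^ 1 := (pow_one _).symm
      _ ≤ (2 ^ β) ^ 3 := Nat.pow_le_pow_right (by positivity) (by norm_num)
  have hβ0 : (0 : ℝ) < β := by
    have : 0 < β := by omega
    exact_mod_cast this
  refine ⟨D, 21 * β, hD2, by omega,
    1 / (4 * (β : ℝ) * (21 * ((2 ^ β : ℕ) : ℝ) ^ 3 + 9)), by positivity, p₀, ?_⟩
  intro p hp q hq2 hq h hhq ℓ hℓ N' hN'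
  obtain ⟨N, hN⟩ : ∃ N, N = Fintype.card (Var D (2 * p) h (2 ^ ℓ)) := ⟨_, rfl⟩
  rw [← hN] at hN'
  subst hN'
  have hpp : p < 2 ^ p := Nat.lt_two_pow_self
  have h1 : 1 ≤ h := by
    rw [hhq]
    exact Nat.one_le_iff_ne_zero.2 (by positivity)
  have hh' : h + 1 ≤ (2 ^ β) ^ (2 * p) := by
    calc h + 1 ≤ q * (2 * p + 2) := by rw [hhq]; nlinarith
      _ ≤ 2 ^ p * (2 * 2 ^ p) := Nat.mul_le_mul hq (by omega)
      _ ≤ 2 ^ p * (2 ^ p * 2 ^ p) := by
          apply Nat.mul_le_mul_left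
          apply Nat.mul_le_mul_right
          omega
      _ ≤ 4 ^ p * 4 ^ p := by
          have : 4 ^ p = 2 ^ p * 2 ^ p := by rw [← mul_pow]; norm_num
          rw [this]
          nlinarith [Nat.one_le_two_pow (n := p)]
      _ = 4 ^ (2 * p) := by rw [← pow_add]; congr 1; ring
      _ ≤ (2 ^ β) ^ (2 * p) := Nat.pow_le_pow_left hb4 _
  have H := hpar D hD p hp h h1 hh' ℓ hℓ N hN
  have hlog := H.log_N_ge
  have hlog0 : (0 : ℝ) ≤ Real.log N := Real.log_nonneg (by exact_mod_cast H.one_le_N)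
  have hhr : (h : ℝ) ≤ q * Real.log N := by
    rw [hhq]
    push_cast
    push_cast at hlog
    exact mul_le_mul_of_nonneg_left hlog (by positivity)
  refine ⟨?_, ?_⟩
  · refine H.hNc.trans ?_
    rw [← Real.rpow_natCast]
    apply Real.rpow_le_rpow_of_exponent_le (by norm_num)
    have hp0 : (0 : ℝ) ≤ p := by positivity
    linarith
  · rintro g i f rfl
    refine ⟨?_, ?_, ?_, ?_⟩
    · obtain ⟨C, h2, h3, h4⟩ := H.circuits g i
      refine ⟨C, by exact_mod_cast h2, h3.trans ?_, h4⟩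
      calc 5 * (h : ℝ) * Real.log N ≤ 5 * (q * Real.log N) * Real.log N := by gcongr
        _ = 5 * q * Real.log N ^ 2 := by ring
    · obtain ⟨P, h2, h3⟩ := H.space g i
      refine ⟨P, h2.trans ?_, ?_⟩
      · calc 2 * (h : ℝ) * Real.log N ≤ 2 * (q * Real.log N) * Real.log N := by gcongr
          _ = 2 * q * Real.log N ^ 2 := by ring
      · intro x
        obtain ⟨t, m, h4, h5, h6⟩ := h3 x
        exact ⟨t, m, by exact_mod_cast h4.trans (H.time_le q hq2 hhq), h5, h6⟩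
    · obtain ⟨P, h2, h3⟩ := H.time g i
      refine ⟨P, h2, ?_⟩
      intro x
      obtain ⟨t, m, h4, h5⟩ := h3 x
      have h6 : (m : ℝ) ≤ t := by exact_mod_cast run_le P h5
      exact ⟨t, m, h4, h6.trans h4, h5⟩
    · intro P T M R hS hrun hag
      exact H.tradeoff q hq2 hhq g i P T M R hS hrun hag

end Pool.Agent.W997.DB
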