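import Pool.Agent.W997.TS.Defs

/-!
# Evaluation of the unrolled De Bruijn graph
-/

set_option autoImplicit false

namespace Pool.Agent.W997.DB

/-- Words of length `ρ + 1` over `Fin D`. -/
abbrev Word (D ρ : ℕ) : Type := Fin (ρ + 1) → Fin D

/-- Forget the first letter and append a letter. -/
def shift {D ρ : ℕ} (g : Word D ρ) (i : Fin D) : Word D ρ :=
  Fin.snoc (α := fun _ => Fin D) (Fin.tail g) i

/-- A node is given by a height `j ≤ h`, a word `g` and a letter `i`.  The children of the node
`(j + 1, g, i)` are the `D` nodes `(j, shift g i, s)`, `s : Fin D`, and the nodes of height `0` are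
the leaves.  There is one variable for every leaf, and for every inner node one variable for every
tuple of values of its children (the entries of the table of the node). -/
abbrev Var (D ρ h k : ℕ) : Type :=
  (Fin h × Word D ρ × Fin D × (Fin D → Fin k)) ⊕ (Word D ρ × Fin D)

instance (priority := 10000) instDecidableEqVar (D ρ h k : ℕ) : DecidableEq (Var D ρ h k) :=
  instDecidableEqSum

/-- An input assigns an element of the alphabet `Fin k` to every variable. -/
abbrev Input (D ρ h k : ℕ) : Type := Var D ρ h k → Fin k

/-- The value of a node: the value of a leaf is the value of its variable, the value of an inner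
node is the entry of its table which belongs to the tuple of the values of its children. -/
def value {D ρ h k : ℕ} (x : Input D ρ h k) : (j : ℕ) → j ≤ h → Word D ρ → Fin D → Fin k
  | 0, _, g, i => x (Sum.inr (g, i))
  | j + 1, hj, g, i =>
    x (Sum.inl (⟨j, hj⟩, g, i, fun s => value x j (Nat.le_of_succ_le hj) (shift g i) s))

end Pool.Agent.W997.DB
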