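import Pool.Agent.W997.DB.Inst
import Pool.Agent.W997.TS.Irrel

/-!
# The tradeoff
-/

set_option autoImplicit false

namespace Pool.Agent.W997.DB

open Finset
open Pool.Agent.W997.TS (DBP flip flip_flip flip_val bit path_unique path_congr)

section Top

variable {V Γ : Type} {D k : ℕ} [Fintype Γ] [DecidableEq Γ] [DecidableEq V] (Y : Sys V Γ D k)

/-- A change at the top changes only the value at the top. -/
theorem Sys.val_update (val : (V → Fin k) → Γ × Fin D → Fin k)
    (hval : ∀ x v, val x v = x (Y.pos (val x) v)) (v0 : Γ × Fin D)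
    (htop : ∀ v, 0 < Y.ht v.1 → Y.cg v ≠ v0.1) (x : V → Fin k) (y : Fin k) :
    val (Function.update x (Y.pos (val x) v0) y) = Function.update (val x) v0 y ∧
      Y.pos (Function.update (val x) v0 y) v0 = Y.pos (val x) v0 := by
  have hp : ∀ v, Y.pos (Function.update (val x) v0 y) v = Y.pos (val x) v := by
    intro v
    rw [Y.pos_eq_iff]
    intro h s
    rw [Function.update_of_ne]
    intro h1
    exact htop v h (congrArg Prod.fst h1)
  refine ⟨?_, hp v0⟩
  refine Y.val_unique (Function.update x (Y.pos (val x) v0) y) _ _ (hval _) ?_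
  intro v
  rw [hp v]
  by_cases h : v = v0
  · subst h
    rw [Function.update_self, Function.update_self]
  · rw [Function.update_of_ne h, Function.update_of_ne, hval x v]
    intro h1
    apply h
    have h2 := Y.nodeOf_pos (val x) v
    rw [h1, Y.nodeOf_pos] at h2
    exact h2.symm

end Top

theorem bit_flip {k : ℕ} (hk : Even k) (c : Fin k) : bit (flip hk c) = !bit c := by
  unfold bit
  rw [flip_val]
  split_ifs with h
  · have h1 : ¬ (c.val + 1) % 2 = 0 := by omega
    simp [h, h1]
  · have h1 : (c.val - 1) % 2 = 0 := by omega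
    simp [h, h1]

section Half

variable {V : Type} {k : ℕ} [Fintype V] [DecidableEq V]

omit [Fintype V] [DecidableEq V] in
/-- If the answer is toggled by an involution of `E` which does not change the output, then at most
half of the outputs in `E` are right. -/
theorem half (E : Finset (V → Fin k)) (R f : (V → Fin k) → Bool)
    (φ : (V → Fin k) → (V → Fin k)) (hφE : ∀ x ∈ E, φ x ∈ E) (hφ : ∀ x ∈ E, φ (φ x) = x)
    (hR : ∀ x ∈ E, R (φ x) = R x) (hf : ∀ x ∈ E, f (φ x) = !f x) :
    2 * (E.filter (fun x => R x = f x)).card ≤ E.card := by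
  classical
  have h1 : (E.filter (fun x => R x = f x)).card ≤ (E.filter (fun x => ¬ R x = f x)).card := by
    refine card_le_card_of_injOn φ ?_ ?_
    · intro x hx
      obtain ⟨h1, h2⟩ := mem_filter.1 (mem_coe.1 hx)
      refine mem_coe.2 (mem_filter.2 ⟨hφE x h1, ?_⟩)
      rw [hR x h1, hf x h1, h2]
      cases f x <;> simp
    · intro x hx x' hx' h
      have h2 := (mem_filter.1 (mem_coe.1 hx)).1
      have h2' := (mem_filter.1 (mem_coe.1 hx')).1
      rw [← hφ x h2, ← hφ x' h2', h]
  have h2 := card_filter_add_card_filter_not (s := E) (fun x => R x = f x)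
  omega

end Half

variable {D ρ h k : ℕ}

/-- The computation `l` evaluates the root, knows nothing at the start, and never has `m` crowded
groups. -/
def Good (P : DBP (Var D ρ h k) k) (w m : ℕ) (g0 : Word D ρ) (i0 : Fin D)
    (z : (Fin (h + 1) × Word D ρ) × Fin D → Fin k) (l : List P.State) : Prop :=
  (∃ q' ∈ l, P.query q' = (sys D ρ h k).pos z ((hgt h 0, g0), i0)) ∧
    ¬ (sys D ρ h k).Crowded P z (D + 1 - w) 1 l ∧
    ∀ q' l', q' :: l' <:+ l → ¬ (sys D ρ h k).Crowded P z (D + 1 - w) m (q' :: l')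

/-- **Most computations are good.** -/
theorem core (w m t : ℕ) (γ : ℝ) (hk : Even k) (hk1 : 1 ≤ k) (hw1 : 1 ≤ w) (hw : w ≤ D)
    (P : DBP (Var D ρ h k) k) (g0 : Word D ρ) (i0 : Fin D)
    (T M : Input D ρ h k → ℕ) (R : Input D ρ h k → Bool)
    (hrun : ∀ x, P.Run x (T x) (M x) (R x))
    (hfail : ((((h + 1) * D ^ (ρ + 1)) * 2 ^ D * D * t : ℕ) / (k : ℝ) ^ (D + 1 - w)) + P.size *
      ((((h + 1) * D ^ (ρ + 1)) * 2 ^ D * D * t : ℕ) / (k : ℝ) ^ (D + 1 - w)) ^ m ≤ γ)
    (hag : (1 / 2 + γ) * Fintype.card (Input D ρ h k) ≤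
      (univ.filter (fun x => R x = bit (value x h le_rfl g0 i0))).card) :
    open Classical in
    γ * Fintype.card (Input D ρ h k) ≤ (univ.filter (fun x => t < M x)).card +
      (univ.filter (fun x => ∃ l : List P.State, l.length = T x ∧
        Good P w m g0 i0 (valF x) l)).card := by
  classical
  choose L hLR hLT hLM using hrun
  set Y := sys D ρ h k with hY
  set I := Fintype.card (Input D ρ h k) with hI
  have hval := fun (x : Input D ρ h k) v => valF_eq x v
  set v0 : (Fin (h + 1) × Word D ρ) × Fin D := ((hgt h 0, g0), i0) with hv0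
  have hroot : ∀ x : Input D ρ h k, valF x v0 = value x h le_rfl g0 i0 := by
    intro x
    rfl
  have htop : ∀ v, 0 < Y.ht v.1 → Y.cg v ≠ v0.1 := by
    rintro ⟨⟨j, g⟩, i⟩ hj hcon
    have h1 := congrArg (fun γ => γ.1.val) hcon
    simp only [hY, sys, hv0, hgt] at h1 hj
    have := j.2
    omega
  -- the inputs for which the root is not evaluated
  set E := univ.filter (fun x : Input D ρ h k =>
    ∀ q' ∈ P.start :: L x, P.query q' ≠ Y.pos (valF x) v0) with hE
  set φ : Input D ρ h k → Input D ρ h k := fun x =>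
    Function.update x (Y.pos (valF x) v0) (flip hk (x (Y.pos (valF x) v0))) with hφ
  have hφval : ∀ x, valF (φ x) = Function.update (valF x) v0 (flip hk (x (Y.pos (valF x) v0))) :=
    fun x => (Y.val_update valF hval v0 htop x _).1
  have hφpos : ∀ x, Y.pos (valF (φ x)) v0 = Y.pos (valF x) v0 := by
    intro x
    rw [hφval x]
    exact (Y.val_update valF hval v0 htop x _).2
  have hφpath : ∀ x ∈ E, L (φ x) = L x ∧ R (φ x) = R x := by
    intro x hx
    have h1 : P.IsPath (φ x) P.start (L x) (R x) := by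
      refine path_congr P (L x) P.start ?_ (hLR x)
      intro q' hq'
      rw [hφ]
      simp only
      rw [Function.update_of_ne ((mem_filter.1 hx).2 q' hq')]
    exact path_unique P _ _ _ (hLR _) h1
  have hhalf : 2 * (E.filter (fun x => R x = bit (value x h le_rfl g0 i0))).card ≤ E.card := by
    refine half E R (fun x => bit (value x h le_rfl g0 i0)) φ ?_ ?_ (fun x hx => (hφpath x hx).2) ?_
    · intro x hx
      rw [hE, mem_filter]
      refine ⟨mem_univ _, ?_⟩
      rw [(hφpath x hx).1, hφpos]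
      exact (mem_filter.1 hx).2
    · intro x _
      change Function.update (φ x) (Y.pos (valF (φ x)) v0)
        (flip hk (φ x (Y.pos (valF (φ x)) v0))) = x
      rw [hφpos]
      have h1 : φ x (Y.pos (valF x) v0) = flip hk (x (Y.pos (valF x) v0)) := by
        rw [hφ]
        simp only [Function.update_self]
      rw [h1, Pool.Agent.W997.TS.flip_flip]
      change Function.update (Function.update x (Y.pos (valF x) v0) _) (Y.pos (valF x) v0)
        (x (Y.pos (valF x) v0)) = x
      rw [Function.update_idem, Function.update_eq_self]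
    · intro x _
      rw [← hroot (φ x), ← hroot x, hφval, Function.update_self, bit_flip, hval x v0]
  -- the bad inputs
  set B := univ.filter (fun x : Input D ρ h k =>
    (∀ a, (Y.asked P a (P.start :: L x)).card ≤ t) ∧
      (Y.Crowded P (valF x) (D + 1 - w) 1 (P.start :: L x) ∨
        ∃ q' l', q' :: l' <:+ P.start :: L x ∧
          Y.Crowded P (valF x) (D + 1 - w) m (q' :: l'))) with hB
  have hBb : (B.card : ℝ) ≤ γ * I := by
    refine (Y.random_bound valF hval P D (fun γ => card_prs γ) t (D + 1 - w) m (by omega) hk1 L R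
      hLR B (fun x hx => (mem_filter.1 hx).2)).trans ?_
    apply mul_le_mul_of_nonneg_right _ (by positivity)
    have h1 : Fintype.card (Fin (h + 1) × Word D ρ) = (h + 1) * D ^ (ρ + 1) := by
      rw [Fintype.card_prod, Fintype.card_fun, Fintype.card_fin, Fintype.card_fin,
        Fintype.card_fin]
    rw [h1]
    exact hfail
  -- the good inputs
  have hcov : I ≤ E.card + B.card + ((univ.filter (fun x => t < M x)).card +
      (univ.filter (fun x => ∃ l : List P.State, l.length = T x ∧
        Good P w m g0 i0 (valF x) l)).card) := by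
    rw [hI, ← card_univ]
    refine (card_le_card (?_ : (univ : Finset (Input D ρ h k)) ⊆ (E ∪ B) ∪
      (univ.filter (fun x => t < M x) ∪ univ.filter (fun x => ∃ l : List P.State,
        l.length = T x ∧ Good P w m g0 i0 (valF x) l)))).trans
      ((card_union_le _ _).trans (Nat.add_le_add (card_union_le _ _) (card_union_le _ _)))
    intro x _
    by_cases h1 : x ∈ E
    · exact mem_union_left _ (mem_union_left _ h1)
    by_cases h2 : x ∈ B
    · exact mem_union_left _ (mem_union_right _ h2)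
    apply mem_union_right
    by_cases h3 : ∀ a, (Y.asked P a (P.start :: L x)).card ≤ t
    · apply mem_union_right
      rw [mem_filter]
      refine ⟨mem_univ _, ?_⟩
      rw [hB, mem_filter] at h2
      push Not at h2
      obtain ⟨h4, h5⟩ := h2 (mem_univ _) h3
      refine ⟨P.start :: L x, hLT x, ?_, h4, h5⟩
      rw [hE, mem_filter] at h1
      push Not at h1
      exact h1 (mem_univ _)
    · apply mem_union_left
      rw [mem_filter]
      refine ⟨mem_univ _, ?_⟩
      push Not at h3
      obtain ⟨a, ha⟩ := h3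
      refine lt_of_lt_of_le ha ?_
      rw [← hLM x]
      exact card_le_card (filter_subset _ _)
  have hcorr : (univ.filter (fun x => R x = bit (value x h le_rfl g0 i0))).card ≤
      (E.filter (fun x => R x = bit (value x h le_rfl g0 i0))).card + (I - E.card) := by
    have h1 : univ.filter (fun x => R x = bit (value x h le_rfl g0 i0)) ⊆
        E.filter (fun x => R x = bit (value x h le_rfl g0 i0)) ∪ Eᶜ := by
      intro x hx
      by_cases h2 : x ∈ E
      · exact mem_union_left _ (mem_filter.2 ⟨h2, (mem_filter.1 hx).2⟩)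
      · exact mem_union_right _ (mem_compl.2 h2)
    refine (card_le_card h1).trans ((card_union_le _ _).trans ?_)
    rw [card_compl]
  have hEI : E.card ≤ I := by
    rw [hI, ← card_univ]
    exact card_le_univ E
  have h1 : (univ.filter (fun x => R x = bit (value x h le_rfl g0 i0))).card * 2 + E.card ≤
      2 * I := by omega
  have h2 : ((univ.filter (fun x => R x = bit (value x h le_rfl g0 i0))).card : ℝ) * 2 + E.card ≤
      2 * I := by exact_mod_cast h1
  have h3 : (E.card : ℝ) ≤ (1 - 2 * γ) * I := by linarith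
  have h4 : (I : ℝ) ≤ E.card + B.card + ((univ.filter (fun x => t < M x)).card +
      (univ.filter (fun x => ∃ l : List P.State, l.length = T x ∧
        Good P w m g0 i0 (valF x) l)).card) := by exact_mod_cast hcov
  linarith

/-- **The general tradeoff.** -/
theorem tradeoff (w m a0 κ q t : ℕ) (γ : ℝ) (hk : Even k) (hk1 : 1 ≤ k)
    (hw1 : 1 ≤ w) (hw : w ≤ D) (ha0 : 1 ≤ a0) (hq : 1 ≤ q) (hh : q * (ρ + 1) ≤ h)
    (c1 : 2 * m * D ^ (ρ + 1) ≤ a0 * w ^ (ρ + 1)) (c2 : 2 * (κ * a0) ≤ w ^ (ρ + 1))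
    (P : DBP (Var D ρ h k) k) (g0 : Word D ρ) (i0 : Fin D)
    (T M : Input D ρ h k → ℕ) (R : Input D ρ h k → Bool)
    (hrun : ∀ x, P.Run x (T x) (M x) (R x))
    (hfail : ((((h + 1) * D ^ (ρ + 1)) * 2 ^ D * D * t : ℕ) / (k : ℝ) ^ (D + 1 - w)) + P.size *
      ((((h + 1) * D ^ (ρ + 1)) * 2 ^ D * D * t : ℕ) / (k : ℝ) ^ (D + 1 - w)) ^ m ≤ γ)
    (hag : (1 / 2 + γ) * Fintype.card (Input D ρ h k) ≤
      (univ.filter (fun x => R x = bit (value x h le_rfl g0 i0))).card) :
    γ * Fintype.card (Input D ρ h k) ≤ (univ.filter (fun x => t < M x)).card +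
      (univ.filter (fun x => κ ^ q ≤ T x)).card := by
  classical
  refine (core w m t γ hk hk1 hw1 hw P g0 i0 T M R hrun hfail hag).trans ?_
  apply add_le_add
  · exact_mod_cast card_le_card fun x hx => hx
  · norm_cast
    apply card_le_card
    intro x hx
    obtain ⟨l, h1, h2, h3, h4⟩ := (mem_filter.1 hx).2
    refine mem_filter.2 ⟨mem_univ _, ?_⟩
    rw [← h1]
    exact long_time P (valF x) l w m a0 κ q hw1 hw ha0 hq hh c1 c2 g0 i0 h2 h3 h4

/-- **The law.** -/
theorem law_card (w m t : ℕ) (γ : ℝ) (hk : Even k) (hk1 : 1 ≤ k)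
    (hw2 : 2 ≤ w) (hw : w ≤ D) (hh : 1 ≤ h) (hmh : m ≤ h)
    (hm : 4 * m * D ^ (ρ + 1) ≤ w ^ (ρ + 1) * w ^ (ρ + 1))
    (P : DBP (Var D ρ h k) k) (g0 : Word D ρ) (i0 : Fin D)
    (T M : Input D ρ h k → ℕ) (R : Input D ρ h k → Bool)
    (hrun : ∀ x, P.Run x (T x) (M x) (R x))
    (hfail : ((((h + 1) * D ^ (ρ + 1)) * 2 ^ D * D * t : ℕ) / (k : ℝ) ^ (D + 1 - w)) + P.size *
      ((((h + 1) * D ^ (ρ + 1)) * 2 ^ D * D * t : ℕ) / (k : ℝ) ^ (D + 1 - w)) ^ m ≤ γ)
    (hag : (1 / 2 + γ) * Fintype.card (Input D ρ h k) ≤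
      (univ.filter (fun x => R x = bit (value x h le_rfl g0 i0))).card) :
    γ * Fintype.card (Input D ρ h k) ≤ (univ.filter (fun x => t < M x)).card := by
  classical
  have h1 := core w m t γ hk hk1 (by omega) hw P g0 i0 T M R hrun hfail hag
  have h2 : (univ.filter (fun x => ∃ l : List P.State, l.length = T x ∧
      Good P w m g0 i0 (valF x) l)) = ∅ := by
    rw [eq_empty_iff_forall_notMem]
    intro x hx
    obtain ⟨l, -, h2, h3, h4⟩ := (mem_filter.1 hx).2
    exact no_good P (valF x) l w m hw2 hw hh hmh hm g0 i0 h2 h3 h4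
  rw [h2, card_empty, Nat.cast_zero, add_zero] at h1
  refine h1.trans ?_
  exact_mod_cast card_le_card fun x hx => hx

/-- The law for the average number of variables. -/
theorem law_avg (w m t : ℕ) (γ : ℝ) (hk : Even k) (hk1 : 1 ≤ k)
    (hw2 : 2 ≤ w) (hw : w ≤ D) (hh : 1 ≤ h) (hmh : m ≤ h)
    (hm : 4 * m * D ^ (ρ + 1) ≤ w ^ (ρ + 1) * w ^ (ρ + 1))
    (P : DBP (Var D ρ h k) k) (g0 : Word D ρ) (i0 : Fin D)
    (T M : Input D ρ h k → ℕ) (R : Input D ρ h k → Bool)
    (hrun : ∀ x, P.Run x (T x) (M x) (R x))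
    (hfail : ((((h + 1) * D ^ (ρ + 1)) * 2 ^ D * D * t : ℕ) / (k : ℝ) ^ (D + 1 - w)) + P.size *
      ((((h + 1) * D ^ (ρ + 1)) * 2 ^ D * D * t : ℕ) / (k : ℝ) ^ (D + 1 - w)) ^ m ≤ γ)
    (hag : (1 / 2 + γ) * Fintype.card (Input D ρ h k) ≤
      (univ.filter (fun x => R x = bit (value x h le_rfl g0 i0))).card) :
    γ * (t + 1) * Fintype.card (Input D ρ h k) ≤ ∑ x, (M x : ℝ) := by
  classical
  have h2 := law_card w m t γ hk hk1 hw2 hw hh hmh hm P g0 i0 T M R hrun hfail hag
  set I : ℝ := (Fintype.card (Input D ρ h k) : ℝ) with hI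
  have h3 : (univ.filter (fun x => t < M x)).card * (t + 1) ≤ ∑ x, M x := by
    calc (univ.filter (fun x => t < M x)).card * (t + 1)
        = ∑ _x ∈ univ.filter (fun x => t < M x), (t + 1) := by rw [sum_const, smul_eq_mul]
      _ ≤ ∑ x ∈ univ.filter (fun x => t < M x), M x := by
          apply sum_le_sum
          intro x hx
          exact (mem_filter.1 hx).2
      _ ≤ ∑ x, M x := sum_le_sum_of_subset (filter_subset _ _)
  have h4 : (((univ.filter (fun x => t < M x)).card * (t + 1) : ℕ) : ℝ) ≤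
      ((∑ x, M x : ℕ) : ℝ) := by exact_mod_cast h3
  push_cast at h4
  calc γ * (t + 1) * I = γ * I * (t + 1) := by ring
    _ ≤ (univ.filter (fun x => t < M x)).card * (t + 1) :=
        mul_le_mul_of_nonneg_right h2 (by positivity)
    _ ≤ _ := h4

/-- The tradeoff for the averages. -/
theorem tradeoff_avg (w m a0 κ q t : ℕ) (γ : ℝ) (hk : Even k) (hk1 : 1 ≤ k)
    (hw1 : 1 ≤ w) (hw : w ≤ D) (ha0 : 1 ≤ a0) (hq : 1 ≤ q) (hh : q * (ρ + 1) ≤ h)
    (c1 : 2 * m * D ^ (ρ + 1) ≤ a0 * w ^ (ρ + 1)) (c2 : 2 * (κ * a0) ≤ w ^ (ρ + 1))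
    (P : DBP (Var D ρ h k) k) (g0 : Word D ρ) (i0 : Fin D)
    (T M : Input D ρ h k → ℕ) (R : Input D ρ h k → Bool)
    (hrun : ∀ x, P.Run x (T x) (M x) (R x))
    (hfail : ((((h + 1) * D ^ (ρ + 1)) * 2 ^ D * D * t : ℕ) / (k : ℝ) ^ (D + 1 - w)) + P.size *
      ((((h + 1) * D ^ (ρ + 1)) * 2 ^ D * D * t : ℕ) / (k : ℝ) ^ (D + 1 - w)) ^ m ≤ γ)
    (hag : (1 / 2 + γ) * Fintype.card (Input D ρ h k) ≤
      (univ.filter (fun x => R x = bit (value x h le_rfl g0 i0))).card) :
    γ / 2 * (t + 1) * Fintype.card (Input D ρ h k) ≤ ∑ x, (M x : ℝ) ∨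
      γ / 2 * (κ : ℝ) ^ q * Fintype.card (Input D ρ h k) ≤ ∑ x, (T x : ℝ) := by
  classical
  have h1 := tradeoff w m a0 κ q t γ hk hk1 hw1 hw ha0 hq hh c1 c2 P g0 i0 T M R hrun hfail hag
  set I : ℝ := (Fintype.card (Input D ρ h k) : ℝ) with hI
  by_cases h2 : γ / 2 * I ≤ (univ.filter (fun x => t < M x)).card
  · left
    have h3 : (univ.filter (fun x => t < M x)).card * (t + 1) ≤ ∑ x, M x := by
      calc (univ.filter (fun x => t < M x)).card * (t + 1)
          = ∑ _x ∈ univ.filter (fun x => t < M x), (t + 1) := by rw [sum_const, smul_eq_mul]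
        _ ≤ ∑ x ∈ univ.filter (fun x => t < M x), M x := by
            apply sum_le_sum
            intro x hx
            exact (mem_filter.1 hx).2
        _ ≤ ∑ x, M x := sum_le_sum_of_subset (filter_subset _ _)
    have h4 : (((univ.filter (fun x => t < M x)).card * (t + 1) : ℕ) : ℝ) ≤
        ((∑ x, M x : ℕ) : ℝ) := by exact_mod_cast h3
    push_cast at h4
    calc γ / 2 * (t + 1) * I = γ / 2 * I * (t + 1) := by ring
      _ ≤ (univ.filter (fun x => t < M x)).card * (t + 1) :=
          mul_le_mul_of_nonneg_right h2 (by positivity)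
      _ ≤ _ := h4
  · right
    push Not at h2
    have h3 : (univ.filter (fun x => κ ^ q ≤ T x)).card * κ ^ q ≤ ∑ x, T x := by
      calc (univ.filter (fun x => κ ^ q ≤ T x)).card * κ ^ q
          = ∑ _x ∈ univ.filter (fun x => κ ^ q ≤ T x), κ ^ q := by rw [sum_const, smul_eq_mul]
        _ ≤ ∑ x ∈ univ.filter (fun x => κ ^ q ≤ T x), T x := by
            apply sum_le_sum
            intro x hx
            exact (mem_filter.1 hx).2
        _ ≤ ∑ x, T x := sum_le_sum_of_subset (filter_subset _ _)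
    have h4 : (((univ.filter (fun x => κ ^ q ≤ T x)).card * κ ^ q : ℕ) : ℝ) ≤
        ((∑ x, T x : ℕ) : ℝ) := by exact_mod_cast h3
    push_cast at h4
    have h5 : γ / 2 * I ≤ (univ.filter (fun x => κ ^ q ≤ T x)).card := by linarith
    calc γ / 2 * (κ : ℝ) ^ q * I = γ / 2 * I * (κ : ℝ) ^ q := by ring
      _ ≤ (univ.filter (fun x => κ ^ q ≤ T x)).card * (κ : ℝ) ^ q :=
          mul_le_mul_of_nonneg_right h5 (by positivity)
      _ ≤ _ := h4

section Halt

variable {V : Type} {k : ℕ} (P : DBP V k)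

theorem isPath_append {x : V → Fin k} {r : Bool} : ∀ (l1 l2 : List P.State) (q q' : P.State),
    P.IsPath x q (l1 ++ q' :: l2) r → P.IsPath x q' l2 r
  | [], _, _, _, h => h.2
  | _ :: l1, l2, _, q', h => isPath_append l1 l2 _ q' h.2

/-- A computation which stops does not visit a state twice. -/
theorem nodup_path {x : V → Fin k} {r : Bool} : ∀ (l : List P.State) (q : P.State),
    P.IsPath x q l r → (q :: l).Nodup
  | [], q, _ => by simp
  | q1 :: l, q, h => by
    rw [List.nodup_cons]
    refine ⟨?_, nodup_path l q1 h.2⟩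
    intro hq
    obtain ⟨l1, l2, hl⟩ := List.append_of_mem hq
    have h1 := h
    rw [hl] at h1
    have h2 := isPath_append P l1 l2 q q h1
    have h3 := (path_unique P _ _ _ h1 h2).1
    have h4 := congrArg List.length h3
    simp only [List.length_append, List.length_cons] at h4
    omega

theorem time_le_size [DecidableEq V] {x : V → Fin k} {t m : ℕ} {r : Bool} (h : P.Run x t m r) :
    t ≤ P.size := by
  obtain ⟨l, h1, h2, -⟩ := h
  rw [← h2]
  exact (nodup_path P l _ h1).length_le_card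

end Halt

end Pool.Agent.W997.DB
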