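import Pool.Agent.W997.DB.Defs

/-!
# Growth in the unrolled De Bruijn graph, and the recursion for the time
-/

set_option autoImplicit false

namespace Pool.Agent.W997.DB

open Finset

theorem shift_last {D ρ : ℕ} (g : Fin (ρ + 1) → Fin D) (i : Fin D) :
    shift g i (Fin.last ρ) = i := by
  simp [shift]

theorem shift_castSucc {D ρ : ℕ} (g : Fin (ρ + 1) → Fin D) (i : Fin D) (t : Fin ρ) :
    shift g i t.castSucc = g t.succ := by
  simp [shift, Fin.tail]

section Window

variable {D ρ : ℕ} (w : ℕ) (L : ℕ → (Fin (ρ + 1) → Fin D) → Fin D → Prop)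
  (R : ℕ → Finset (Fin (ρ + 1) → Fin D))

/-- The groups of a level which have fewer than `w` nodes outside `L`. -/
noncomputable def closed (j : ℕ) : Finset (Fin (ρ + 1) → Fin D) :=
  open Classical in
  (R j).filter (fun g => (univ.filter (fun i : Fin D => ¬ L j g i)).card < w)

/-- The groups which are reached from `c` in `j` steps. -/
noncomputable def reach (c : Fin (ρ + 1) → Fin D) : ℕ → Finset (Fin (ρ + 1) → Fin D)
  | 0 => {c}
  | j + 1 =>
    open Classical in
    (((reach c j \ closed w L R j) ×ˢ (univ : Finset (Fin D))).filter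
      (fun p => ¬ L j p.1 p.2)).image (fun p => shift p.1 p.2)

theorem reach_inv (c : Fin (ρ + 1) → Fin D) : ∀ (j : ℕ), ∀ g ∈ reach w L R c j,
    ∀ (t : ℕ) (ht : t + j < ρ + 1), g ⟨t, by omega⟩ = c ⟨t + j, ht⟩
  | 0, g, hg, t, ht => by
    rw [reach, mem_singleton] at hg
    subst hg
    rfl
  | j + 1, g, hg, t, ht => by
    classical
    rw [reach, mem_image] at hg
    obtain ⟨⟨g', i⟩, hg', rfl⟩ := hg
    have h1 := (mem_sdiff.1 (mem_product.1 (mem_filter.1 hg').1).1).1
    have h2 := reach_inv c j g' h1 (t + 1) (by omega)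
    have h3 : (⟨t, by omega⟩ : Fin (ρ + 1)) = (⟨t, by omega⟩ : Fin ρ).castSucc := rfl
    have h4 : (⟨t, by omega⟩ : Fin ρ).succ = (⟨t + 1, by omega⟩ : Fin (ρ + 1)) := rfl
    rw [h3, shift_castSucc, h4]
    refine h2.trans ?_
    congr 1
    apply Fin.ext
    simp only
    omega

variable {w L R}

theorem reach_sub (hR : ∀ j, j < ρ + 1 → ∀ g ∈ R j, ∀ i, ¬ L j g i → shift g i ∈ R (j + 1))
    {c : Fin (ρ + 1) → Fin D} (hc : c ∈ R 0) : ∀ j, j ≤ ρ + 1 → reach w L R c j ⊆ R j
  | 0, _ => by
    intro g hg
    rw [reach, mem_singleton] at hg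
    subst hg
    exact hc
  | j + 1, hj => by
    classical
    intro g hg
    rw [reach, mem_image] at hg
    obtain ⟨⟨g', i⟩, hg', rfl⟩ := hg
    obtain ⟨h0, h0'⟩ := mem_filter.1 hg'
    have h1 := (mem_sdiff.1 (mem_product.1 h0).1).1
    exact hR j (by omega) g' (reach_sub hR hc j (by omega) h1) i h0'

theorem reach_card (c : Fin (ρ + 1) → Fin D) (hc : c ∈ R 0)
    (hR : ∀ j, j < ρ + 1 → ∀ g ∈ R j, ∀ i, ¬ L j g i → shift g i ∈ R (j + 1)) (j : ℕ)
    (hj : j < ρ + 1) :
    w * (reach w L R c j \ closed w L R j).card ≤ (reach w L R c (j + 1)).card := by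
  classical
  rw [reach, card_image_of_injOn]
  · set B := reach w L R c j \ closed w L R j with hB
    have h1 : ((B ×ˢ (univ : Finset (Fin D))).filter (fun p => ¬ L j p.1 p.2)).card =
        ∑ g ∈ B, (univ.filter (fun i : Fin D => ¬ L j g i)).card := by
      rw [card_filter, sum_product]
      apply sum_congr rfl
      intro g _
      rw [card_filter]
    rw [h1, mul_comm, ← smul_eq_mul, ← sum_const]
    apply sum_le_sum
    intro g hg
    obtain ⟨h2, h3⟩ := mem_sdiff.1 hg
    by_contra hcon
    apply h3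
    rw [closed, mem_filter]
    exact ⟨reach_sub hR hc j (by omega) h2, not_le.1 hcon⟩
  · rintro ⟨g, i⟩ hg ⟨g', i'⟩ hg' h
    simp only at h
    have h1 := (mem_sdiff.1 (mem_product.1 (mem_filter.1 (mem_coe.1 hg)).1).1).1
    have h1' := (mem_sdiff.1 (mem_product.1 (mem_filter.1 (mem_coe.1 hg')).1).1).1
    have hi : i = i' := by
      have := congrFun h (Fin.last ρ)
      rwa [shift_last, shift_last] at this
    have hg0 : g = g' := by
      funext t
      rcases Fin.eq_zero_or_eq_succ t with rfl | ⟨t, rfl⟩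
      · have e1 := reach_inv w L R c j g h1 0 (by omega)
        have e2 := reach_inv w L R c j g' h1' 0 (by omega)
        exact e1.trans e2.symm
      · have := congrFun h t.castSucc
        rwa [shift_castSucc, shift_castSucc] at this
    rw [hg0, hi]

theorem reach_count (A : Finset (Fin (ρ + 1) → Fin D)) (j : ℕ) (hj : j ≤ ρ + 1)
    (g : Fin (ρ + 1) → Fin D) : (A.filter (fun c => g ∈ reach w L R c j)).card ≤ D ^ j := by
  classical
  have h1 : D ^ j = Fintype.card (Fin j → Fin D) := by
    rw [Fintype.card_fun, Fintype.card_fin, Fintype.card_fin]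
  rw [h1, ← card_univ]
  refine card_le_card_of_injOn (fun c t => c (Fin.castLE hj t)) (fun _ _ => mem_coe.2 (mem_univ _))
    ?_
  intro c hc c' hc' h
  have h2 := (mem_filter.1 (mem_coe.1 hc)).2
  have h2' := (mem_filter.1 (mem_coe.1 hc')).2
  funext t
  by_cases ht : t.val < j
  · have := congrFun h ⟨t.val, ht⟩
    exact this
  · have e1 := reach_inv w L R c j g h2 (t.val - j) (by have := t.2; omega)
    have e2 := reach_inv w L R c' j g h2' (t.val - j) (by have := t.2; omega)
    have e3 : (⟨t.val - j + j, by have := t.2; omega⟩ : Fin (ρ + 1)) = t := by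
      apply Fin.ext
      simp only
      omega
    rw [e3] at e1 e2
    exact e1.symm.trans e2

theorem window_key (hw : w ≤ D) (H : ℕ) (hH : H ≤ ρ + 1)
    (hR : ∀ j, j < ρ + 1 → ∀ g ∈ R j, ∀ i, ¬ L j g i → shift g i ∈ R (j + 1))
    (A : Finset (Fin (ρ + 1) → Fin D)) (hA : A ⊆ R 0) :
    w ^ H * A.card ≤ ∑ c ∈ A, (reach w L R c H).card +
      D ^ H * ∑ i ∈ range H, (closed w L R i).card := by
  classical
  have key : ∀ j, j ≤ ρ + 1 → w ^ j * A.card ≤ ∑ c ∈ A, (reach w L R c j).card +
      D ^ j * ∑ i ∈ range j, (closed w L R i).card := by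
    intro j
    induction j with
    | zero => intro _; simp [reach]
    | succ j ih =>
      intro hj
      have h1 := ih (by omega)
      have h2 : ∑ c ∈ A, (reach w L R c j ∩ closed w L R j).card ≤
          D ^ j * (closed w L R j).card := by
        calc ∑ c ∈ A, (reach w L R c j ∩ closed w L R j).card
            = ∑ c ∈ A, ∑ g ∈ closed w L R j, if g ∈ reach w L R c j then 1 else 0 := by
              apply sum_congr rfl
              intro c _
              rw [← card_filter]
              congr 1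
              ext g
              simp only [mem_inter, mem_filter]
              exact and_comm
          _ = ∑ g ∈ closed w L R j, (A.filter (fun c => g ∈ reach w L R c j)).card := by
              rw [sum_comm]
              apply sum_congr rfl
              intro g _
              rw [card_filter]
          _ ≤ ∑ _g ∈ closed w L R j, D ^ j :=
              sum_le_sum fun g _ => reach_count A j (by omega) g
          _ = D ^ j * (closed w L R j).card := by rw [sum_const, smul_eq_mul, mul_comm]
      have h3 : w * ∑ c ∈ A, (reach w L R c j \ closed w L R j).card ≤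
          ∑ c ∈ A, (reach w L R c (j + 1)).card := by
        rw [mul_sum]
        exact sum_le_sum fun c hc => reach_card c (hA hc) hR j (by omega)
      have h4 : ∑ c ∈ A, (reach w L R c j).card =
          ∑ c ∈ A, (reach w L R c j ∩ closed w L R j).card +
          ∑ c ∈ A, (reach w L R c j \ closed w L R j).card := by
        rw [← sum_add_distrib]
        apply sum_congr rfl
        intro c _
        exact (card_inter_add_card_sdiff _ _).symm
      rw [sum_range_succ]
      set a := ∑ c ∈ A, (reach w L R c j).card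
      set a1 := ∑ c ∈ A, (reach w L R c j ∩ closed w L R j).card
      set a2 := ∑ c ∈ A, (reach w L R c j \ closed w L R j).card
      set x := ∑ i ∈ range j, (closed w L R i).card
      set y := (closed w L R j).card
      calc w ^ (j + 1) * A.card = w * (w ^ j * A.card) := by ring
        _ ≤ w * (a + D ^ j * x) := Nat.mul_le_mul_left _ h1
        _ = w * a2 + (w * a1 + w * (D ^ j * x)) := by rw [h4]; ring
        _ ≤ ∑ c ∈ A, (reach w L R c (j + 1)).card + (D * (D ^ j * y) + D * (D ^ j * x)) := by
            apply Nat.add_le_add h3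
            apply Nat.add_le_add
            · exact Nat.mul_le_mul hw h2
            · exact Nat.mul_le_mul_right _ hw
        _ = _ := by ring
  exact key H hH

/-- **The window lemma.** -/
theorem window (hw : w ≤ D)
    (hR : ∀ j, j < ρ + 1 → ∀ g ∈ R j, ∀ i, ¬ L j g i → shift g i ∈ R (j + 1))
    (A : Finset (Fin (ρ + 1) → Fin D)) (hA : A ⊆ R 0) :
    w ^ (ρ + 1) * A.card ≤ A.card * (R (ρ + 1)).card +
      D ^ (ρ + 1) * ∑ j ∈ range (ρ + 1), (closed w L R j).card := by
  classical
  refine (window_key hw (ρ + 1) le_rfl hR A hA).trans ?_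
  apply Nat.add_le_add_right
  rw [← smul_eq_mul, ← sum_const]
  exact sum_le_sum fun c hc => card_le_card (reach_sub hR (hA hc) (ρ + 1) le_rfl)

/-- The window lemma for a shorter window. -/
theorem window_short (hw : w ≤ D) (H : ℕ) (hH : H ≤ ρ + 1)
    (hR : ∀ j, j < ρ + 1 → ∀ g ∈ R j, ∀ i, ¬ L j g i → shift g i ∈ R (j + 1))
    (A : Finset (Fin (ρ + 1) → Fin D)) (hA : A ⊆ R 0) :
    w ^ H * A.card ≤ A.card * (R H).card +
      D ^ H * ∑ j ∈ range H, (closed w L R j).card := by
  classical
  refine (window_key hw H hH hR A hA).trans ?_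
  apply Nat.add_le_add_right
  rw [← smul_eq_mul, ← sum_const]
  exact sum_le_sum fun c hc => card_le_card (reach_sub hR (hA hc) H hH)

end Window

/-- Cutting an interval into pieces. -/
theorem cut (f : ℕ → ℕ → ℕ) (h0 : ∀ a, f a a = 0) (h1 : ∀ a b, a ≤ b → f a (b + 1) ≤ f a b + 1)
    (h2 : ∀ a b c, a ≤ b → b ≤ c → f a c ≤ f a b + f b c) (T a0 F : ℕ) (ha0 : 1 ≤ a0)
    (hF : ∀ a b, a ≤ b → b ≤ T → a0 ≤ f a b → F ≤ b - a) :
    ∀ κ a b, a ≤ b → b ≤ T → κ * a0 ≤ f a b → κ * F ≤ b - a := by
  intro κ
  induction κ with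
  | zero => intro a b _ _ _; simp
  | succ κ ih =>
    intro a b hab hb hf
    have hex : ∃ s, a0 ≤ f a (a + s) := by
      refine ⟨b - a, ?_⟩
      rw [Nat.add_sub_cancel' hab]
      calc a0 ≤ (κ + 1) * a0 := Nat.le_mul_of_pos_left _ (by omega)
        _ ≤ _ := hf
    classical
    set s := Nat.find hex with hs
    have hs1 : a0 ≤ f a (a + s) := Nat.find_spec hex
    have hsb : s ≤ b - a := Nat.find_min' hex (by
      rw [Nat.add_sub_cancel' hab]
      calc a0 ≤ (κ + 1) * a0 := Nat.le_mul_of_pos_left _ (by omega)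
        _ ≤ _ := hf)
    have hs0 : s ≠ 0 := by
      intro h
      rw [h, Nat.add_zero, h0] at hs1
      omega
    obtain ⟨s', hs'⟩ : ∃ s', s = s' + 1 := ⟨s - 1, by omega⟩
    have hlt : f a (a + s') < a0 := by
      have := Nat.find_min hex (m := s') (by omega)
      omega
    have h3 : f a (a + s) ≤ a0 := by
      rw [hs', ← Nat.add_assoc]
      have := h1 a (a + s') (by omega)
      omega
    have h4 : κ * a0 ≤ f (a + s) b := by
      have := h2 a (a + s) b (by omega) (by omega)
      have e : (κ + 1) * a0 = κ * a0 + a0 := by ring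
      omega
    have h5 := ih (a + s) b (by omega) hb h4
    have h6 := hF a (a + s) (by omega) (by omega) hs1
    have e : (κ + 1) * F = κ * F + F := by ring
    omega

section Recursion

variable {D ρ : ℕ} (ev : ℕ → ℕ → (Fin (ρ + 1) → Fin D) → Fin D → Prop)

/-- The child groups of the nodes of depth `l` which are evaluated in `[a, b)`. -/
noncomputable def dem (a b l : ℕ) : Finset (Fin (ρ + 1) → Fin D) :=
  open Classical in
  univ.filter (fun g' => ∃ τ, a ≤ τ ∧ τ < b ∧ ∃ g i, ev τ l g i ∧ shift g i = g')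

theorem mem_dem {a b l : ℕ} {g' : Fin (ρ + 1) → Fin D} : g' ∈ dem ev a b l ↔
    ∃ τ, a ≤ τ ∧ τ < b ∧ ∃ g i, ev τ l g i ∧ shift g i = g' := by
  classical
  simp [dem]

theorem dem_self (a l : ℕ) : (dem ev a a l).card = 0 := by
  rw [card_eq_zero, eq_empty_iff_forall_notMem]
  intro g hg
  obtain ⟨τ, h1, h2, -⟩ := (mem_dem ev).1 hg
  omega

variable {ev}

theorem dem_succ (hev : ∀ τ l l' g g' i i', ev τ l g i → ev τ l' g' i' → g = g' ∧ i = i')
    (a b l : ℕ) : (dem ev a (b + 1) l).card ≤ (dem ev a b l).card + 1 := by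
  classical
  by_cases h : ∃ g i, ev b l g i
  · obtain ⟨g0, i0, h0⟩ := h
    have h1 : dem ev a (b + 1) l ⊆ insert (shift g0 i0) (dem ev a b l) := by
      intro g' hg'
      obtain ⟨τ, h1, h2, g, i, h3, h4⟩ := (mem_dem ev).1 hg'
      rw [mem_insert]
      by_cases hτ : τ = b
      · left
        subst hτ
        obtain ⟨rfl, rfl⟩ := hev _ _ _ _ _ _ _ h3 h0
        exact h4.symm
      · right
        exact (mem_dem ev).2 ⟨τ, h1, by omega, g, i, h3, h4⟩
    exact (card_le_card h1).trans (card_insert_le _ _)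
  · have h1 : dem ev a (b + 1) l ⊆ dem ev a b l := by
      intro g' hg'
      obtain ⟨τ, h1, h2, g, i, h3, h4⟩ := (mem_dem ev).1 hg'
      have hτ : τ ≠ b := by
        intro hτ
        subst hτ
        exact h ⟨g, i, h3⟩
      exact (mem_dem ev).2 ⟨τ, h1, by omega, g, i, h3, h4⟩
    exact (card_le_card h1).trans (Nat.le_succ _)

theorem dem_add (a b c l : ℕ) : (dem ev a c l).card ≤ (dem ev a b l).card + (dem ev b c l).card := by
  classical
  refine (card_le_card ?_).trans (card_union_le _ _)
  intro g' hg'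
  obtain ⟨τ, h1, h2, h3⟩ := (mem_dem ev).1 hg'
  rw [mem_union]
  by_cases hτ : τ < b
  · exact Or.inl ((mem_dem ev).2 ⟨τ, h1, hτ, h3⟩)
  · exact Or.inr ((mem_dem ev).2 ⟨τ, not_lt.1 hτ, h2, h3⟩)

/-- **The recursion for the time.** -/
theorem time_bound (hev : ∀ τ l l' g g' i i', ev τ l g i → ev τ l' g' i' → g = g' ∧ i = i')
    (live : ℕ → ℕ → (Fin (ρ + 1) → Fin D) → Fin D → Prop) (h T w m a0 κ q : ℕ)
    (hdem : ∀ a τ l g i s, a ≤ τ → τ < T → l < h → ev τ l g i →
      ¬ live a (l + 1) (shift g i) s → ∃ τ', a ≤ τ' ∧ τ' < τ ∧ ev τ' (l + 1) (shift g i) s)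
    (hcl : ∀ a, a < T → ∀ Z : Finset (ℕ × (Fin (ρ + 1) → Fin D)),
      (∀ p ∈ Z, 1 ≤ p.1 ∧ p.1 ≤ h ∧
        ∀ C : Finset (Fin D), (∀ i, i ∈ C ↔ ¬ live a p.1 p.2 i) → C.card < w) → Z.card < m)
    (hcl0 : ∀ l g, 1 ≤ l → l ≤ h → ∀ C : Finset (Fin D), (∀ i, i ∈ C ↔ ¬ live 0 l g i) →
      w ≤ C.card)
    (hw : w ≤ D) (ha0 : 1 ≤ a0) (hq : 1 ≤ q) (hh : q * (ρ + 1) ≤ h)
    (c1 : 2 * m * D ^ (ρ + 1) ≤ a0 * w ^ (ρ + 1)) (c2 : 2 * (κ * a0) ≤ w ^ (ρ + 1))
    (τ0 : ℕ) (hτ0 : τ0 < T) (g0 : Fin (ρ + 1) → Fin D) (i0 : Fin D) (hroot : ev τ0 0 g0 i0) :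
    κ ^ q ≤ T := by
  classical
  -- the closure of the demanded groups
  have hclos : ∀ a b l, b ≤ T → l < h → ∀ g' ∈ dem ev a b l, ∀ s, ¬ live a (l + 1) g' s →
      shift g' s ∈ dem ev a b (l + 1) := by
    intro a b l hb hl g' hg' s hs
    obtain ⟨τ, h1, h2, g, i, h3, rfl⟩ := (mem_dem ev).1 hg'
    obtain ⟨τ', h4, h5, h6⟩ := hdem a τ l g i s h1 (by omega) hl h3 hs
    exact (mem_dem ev).2 ⟨τ', h4, by omega, _, _, h6, rfl⟩
  have hdlt : ∀ a b l, a ≤ b → (dem ev a b l).card ≤ b - a := by
    intro a b l hab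
    induction b, hab using Nat.le_induction with
    | base => rw [dem_self]; omega
    | succ b hab ih =>
      have := dem_succ hev a b l
      omega
  have hcut := fun (l F : ℕ) => cut (fun a b => (dem ev a b l).card) (fun a => dem_self ev a l)
    (fun a b _ => dem_succ hev a b l) (fun a b c _ _ => dem_add a b c l) T a0 F ha0
  have key : ∀ j, j ≤ q → ∀ a b, a ≤ b → b ≤ T → a0 ≤ (dem ev a b ((q - j) * (ρ + 1))).card →
      κ ^ j ≤ b - a := by
    intro j
    induction j with
    | zero =>
      intro _ a b hab hb hd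
      have := hdlt a b ((q - 0) * (ρ + 1)) hab
      rw [pow_zero]
      omega
    | succ j ih =>
      intro hj a b hab hb hd
      set l0 := (q - (j + 1)) * (ρ + 1) with hl0
      have hl1 : l0 + (ρ + 1) = (q - j) * (ρ + 1) := by
        rw [hl0, ← Nat.succ_mul]
        congr 1
        omega
      have hlh : l0 + (ρ + 1) ≤ h := by
        rw [hl1]
        refine le_trans (Nat.mul_le_mul_right _ (Nat.sub_le _ _)) hh
      have hne : a < T := by
        by_contra hcon
        have : a = b := by omega
        subst this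
        rw [dem_self] at hd
        omega
      set R : ℕ → Finset (Fin (ρ + 1) → Fin D) := fun i => dem ev a b (l0 + i) with hR
      set L : ℕ → (Fin (ρ + 1) → Fin D) → Fin D → Prop := fun i => live a (l0 + i + 1) with hL
      have hwin := window (w := w) (L := L) (R := R) hw (by
        intro i hi g hg s hs
        exact hclos a b (l0 + i) hb (by omega) g hg s hs) (R 0) (Subset.refl _)
      have hX : ∑ i ∈ range (ρ + 1), (closed w L R i).card < m := by
        have h1 := hcl a hne ((range (ρ + 1)).sigma (fun i => closed w L R i) |>.image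
          (fun p => (l0 + p.1 + 1, p.2))) (by
          intro p hp
          obtain ⟨p', hp', rfl⟩ := mem_image.1 hp
          obtain ⟨h2, h3⟩ := mem_sigma.1 hp'
          rw [mem_range] at h2
          refine ⟨by simp only; omega, by simp only; omega, ?_⟩
          intro C hC
          rw [closed, mem_filter] at h3
          refine lt_of_le_of_lt (card_le_card ?_) h3.2
          intro i hi
          rw [mem_filter]
          exact ⟨mem_univ _, (hC i).1 hi⟩)
        rw [card_image_of_injOn, card_sigma] at h1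
        · exact h1
        · rintro ⟨p1, p2⟩ _ ⟨p1', p2'⟩ _ hpp
          simp only [Prod.mk.injEq] at hpp
          obtain ⟨e1, e2⟩ := hpp
          have e3 : p1 = p1' := by omega
          subst e3 e2
          rfl
      have hA : a0 ≤ (R 0).card := hd
      have hbig : κ * a0 ≤ (R (ρ + 1)).card := by
        by_contra hcon
        push Not at hcon
        set Ac := (R 0).card
        set Rc := (R (ρ + 1)).card
        set W := w ^ (ρ + 1)
        set DD := D ^ (ρ + 1)
        set Xc := ∑ i ∈ range (ρ + 1), (closed w L R i).card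
        have e1 : 2 * Rc < W := by omega
        have e2 : 2 * (W * Ac) ≤ Ac * (2 * Rc) + 2 * (DD * Xc) := by
          calc 2 * (W * Ac) ≤ 2 * (Ac * Rc + DD * Xc) := Nat.mul_le_mul_left _ hwin
            _ = _ := by ring
        have hDD : 0 < DD := by
          have : 0 < D := by
            rcases Nat.eq_zero_or_pos D with h0 | h0
            · subst h0
              have : W ≤ 0 := by
                have : w = 0 := by omega
                simp only [W, this]
                simp
              omega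
            · exact h0
          positivity
        have e3 : DD * Xc < DD * m := Nat.mul_lt_mul_of_pos_left hX hDD
        have e4 : Ac * (2 * Rc) ≤ Ac * W := Nat.mul_le_mul_left _ e1.le
        have e5 : 2 * m * DD ≤ Ac * W := c1.trans (Nat.mul_le_mul_right _ hA)
        have e6 : 2 * (W * Ac) < Ac * W + 2 * (DD * m) := by omega
        have e7 : 2 * (W * Ac) = Ac * W + Ac * W := by ring
        have e8 : 2 * (DD * m) = 2 * m * DD := by ring
        omega
      have hF : ∀ a' b', a' ≤ b' → b' ≤ T → a0 ≤ (dem ev a' b' (l0 + (ρ + 1))).card →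
          κ ^ j ≤ b' - a' := by
        intro a' b' h1 h2 h3
        rw [hl1] at h3
        exact ih (by omega) a' b' h1 h2 h3
      have := hcut (l0 + (ρ + 1)) (κ ^ j) hF κ a b hab hb hbig
      rw [pow_succ, mul_comm]
      exact this
  -- the first window
  obtain ⟨p, rfl⟩ : ∃ p, q = p + 1 := ⟨q - 1, by omega⟩
  set R : ℕ → Finset (Fin (ρ + 1) → Fin D) := fun i => dem ev 0 T i with hR
  set L : ℕ → (Fin (ρ + 1) → Fin D) → Fin D → Prop := fun i => live 0 (i + 1) with hL
  have hrh : ρ + 1 ≤ h := by
    refine le_trans ?_ hh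
    exact Nat.le_mul_of_pos_left _ (by omega)
  have hwin := window (w := w) (L := L) (R := R) hw (by
    intro i hi g hg s hs
    exact hclos 0 T i le_rfl (by omega) g hg s hs) {shift g0 i0} (by
      intro g hg
      rw [mem_singleton] at hg
      subst hg
      exact (mem_dem ev).2 ⟨τ0, by omega, hτ0, g0, i0, hroot, rfl⟩)
  have hX : ∑ i ∈ range (ρ + 1), (closed w L R i).card = 0 := by
    apply sum_eq_zero
    intro i hi
    rw [mem_range] at hi
    rw [card_eq_zero, eq_empty_iff_forall_notMem]
    intro g hg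
    rw [closed, mem_filter] at hg
    have h1 := hcl0 (i + 1) g (by omega) (by omega)
      (univ.filter (fun s : Fin D => ¬ L i g s)) (by intro s; simp [hL])
    have h2 := hg.2
    omega
  rw [hX, card_singleton, mul_one, one_mul, mul_zero, add_zero] at hwin
  have hF : ∀ a' b', a' ≤ b' → b' ≤ T → a0 ≤ (dem ev a' b' (ρ + 1)).card →
      κ ^ p ≤ b' - a' := by
    intro a' b' h1 h2 h3
    refine key p (by omega) a' b' h1 h2 ?_
    have : (p + 1 - p) * (ρ + 1) = ρ + 1 := by
      have : p + 1 - p = 1 := by omega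
      rw [this, one_mul]
    rw [this]
    exact h3
  have h1 : κ * a0 ≤ (R (ρ + 1)).card := by omega
  have := hcut (ρ + 1) (κ ^ p) hF κ 0 T (by omega) le_rfl h1
  rw [pow_succ, mul_comm]
  simpa using this

end Recursion

end Pool.Agent.W997.DB
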