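import Pool.Agent.W997.DB.Grow

/-!
# Blocking all paths
-/

set_option autoImplicit false

namespace Pool.Agent.W997.DB

open Finset

section Path

variable {D ρ : ℕ}

/-- The groups along a path. -/
def pg (g1 : Fin (ρ + 1) → Fin D) (s : ℕ → Fin D) : ℕ → (Fin (ρ + 1) → Fin D)
  | 0 => g1
  | n + 1 => shift (pg g1 s n) (s n)

theorem pg_congr (g1 : Fin (ρ + 1) → Fin D) (s s' : ℕ → Fin D) :
    ∀ n, (∀ i, i < n → s' i = s i) → pg g1 s' n = pg g1 s n
  | 0, _ => rfl
  | n + 1, h => by
    rw [pg, pg, pg_congr g1 s s' n (fun i hi => h i (by omega)), h n (by omega)]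

theorem pg_letter (g1 : Fin (ρ + 1) → Fin D) (s : ℕ → Fin D) (n : ℕ) :
    ∀ i, i < ρ + 1 → pg g1 s (n + 1 + i) ⟨ρ - i, by omega⟩ = s n
  | 0, _ => shift_last _ _
  | i + 1, hi => by
    have h1 : (⟨ρ - (i + 1), by omega⟩ : Fin (ρ + 1)) = (⟨ρ - (i + 1), by omega⟩ : Fin ρ).castSucc :=
      rfl
    have h2 : (⟨ρ - (i + 1), by omega⟩ : Fin ρ).succ = (⟨ρ - i, by omega⟩ : Fin (ρ + 1)) := by
      apply Fin.ext
      simp only [Fin.succ_mk]
      omega
    rw [← Nat.add_assoc, pg, h1, shift_castSucc, h2]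
    exact pg_letter g1 s n i (by omega)

/-- **Blocked paths.** -/
theorem extension (lv : ℕ → (Fin (ρ + 1) → Fin D) → Fin D → Prop) (h w m : ℕ) (hw1 : 1 ≤ w)
    (hw : w ≤ D) (hm : 4 * m * D ^ (ρ + 1) ≤ w ^ (ρ + 1) * w ^ (ρ + 1))
    (hcl : ∀ Z : Finset (ℕ × (Fin (ρ + 1) → Fin D)),
      (∀ p ∈ Z, p.1 < h ∧ ∀ C : Finset (Fin D), (∀ i, i ∈ C ↔ ¬ lv p.1 p.2 i) → C.card < w) →
      Z.card < m)
    (g1 : Fin (ρ + 1) → Fin D) (s : ℕ → Fin D) (n0 : ℕ) (hn0 : n0 ≤ h)
    (hs : ∀ n, n < n0 → ¬ lv n (pg g1 s n) (s n))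
    (hbl : ∀ s' : ℕ → Fin D, (∀ i, i < n0 → s' i = s i) →
      ∃ n, n < h ∧ lv n (pg g1 s' n) (s' n)) :
    ∃ (s' : ℕ → Fin D) (e : ℕ), (∀ i, i < n0 → s' i = s i) ∧ n0 ≤ e ∧ e < n0 + (ρ + 1) ∧ e < h ∧
      ∀ C : Finset (Fin D), (∀ i, i ∈ C ↔ ¬ lv e (pg g1 s' e) i) → C.card < w := by
  classical
  by_contra hcon
  push Not at hcon
  -- the reachable groups
  set R : ℕ → Finset (Fin (ρ + 1) → Fin D) := fun j => univ.filter (fun g =>
    ∃ s' : ℕ → Fin D, (∀ i, i < n0 → s' i = s i) ∧ pg g1 s' (n0 + j) = g ∧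
      ∀ n, n0 ≤ n → n < n0 + j → ¬ lv n (pg g1 s' n) (s' n)) with hR
  have hR0 : (R 0).card = 1 := by
    rw [card_eq_one]
    refine ⟨pg g1 s n0, ?_⟩
    ext g
    rw [hR, mem_singleton]
    simp only [mem_filter, mem_univ, true_and, Nat.add_zero]
    constructor
    · rintro ⟨s', h1, h2, -⟩
      rw [← h2]
      exact pg_congr g1 s s' n0 h1
    · rintro rfl
      exact ⟨s, fun _ _ => rfl, rfl, fun n h1 h2 => by omega⟩
  have hRs : ∀ j, ∀ g ∈ R j, ∀ i, ¬ lv (n0 + j) g i → shift g i ∈ R (j + 1) := by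
    intro j g hg i hi
    obtain ⟨s', h1, h2, h3⟩ := (mem_filter.1 hg).2
    have h4 : ∀ n, n ≤ n0 + j → pg g1 (Function.update s' (n0 + j) i) n = pg g1 s' n := by
      intro n hn
      apply pg_congr
      intro i' hi'
      rw [Function.update_of_ne (by omega)]
    refine mem_filter.2 ⟨mem_univ _, Function.update s' (n0 + j) i, ?_, ?_, ?_⟩
    · intro i' hi'
      rw [Function.update_of_ne (by omega)]
      exact h1 i' hi'
    · rw [← Nat.add_assoc, pg, h4 _ le_rfl, Function.update_self, h2]
    · intro n hn1 hn2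
      rw [h4 n (by omega)]
      by_cases hn : n = n0 + j
      · subst hn
        rw [Function.update_self, h2]
        exact hi
      · rw [Function.update_of_ne hn]
        exact h3 n hn1 (by omega)
  have hRe : (R (h - n0)).card = 0 := by
    rw [card_eq_zero, eq_empty_iff_forall_notMem]
    intro g hg
    obtain ⟨s', h1, -, h3⟩ := (mem_filter.1 hg).2
    obtain ⟨n, hn, h4⟩ := hbl s' h1
    by_cases hn0' : n < n0
    · apply hs n hn0'
      rw [← pg_congr g1 s s' n (fun i hi => h1 i (by omega)), ← h1 n hn0']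
      exact h4
    · exact h3 n (by omega) (by omega) h4
  -- nothing is closed at the beginning
  have hcl0 : ∀ j, j < ρ + 1 → n0 + j < h →
      (closed w (fun j => lv (n0 + j)) R j).card = 0 := by
    intro j hj hjh
    rw [card_eq_zero, eq_empty_iff_forall_notMem]
    intro g hg
    rw [closed, mem_filter] at hg
    obtain ⟨s', h1, h2, -⟩ := (mem_filter.1 hg.1).2
    obtain ⟨C, hC, hC'⟩ := hcon s' (n0 + j) h1 (by omega) (by omega) hjh
    refine absurd hg.2 (not_lt.2 (hC'.trans (card_le_card ?_)))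
    intro i hi
    rw [mem_filter]
    refine ⟨mem_univ _, ?_⟩
    rw [← h2]
    exact (hC i).1 hi
  -- the number of closed groups
  have hclm : ∀ (b H : ℕ), n0 + b + H ≤ h →
      ∑ i ∈ range H, (closed w (fun j => lv (n0 + (b + j))) (fun j => R (b + j)) i).card < m := by
    intro b H hbH
    have h1 := hcl ((range H).sigma
      (fun i => closed w (fun j => lv (n0 + (b + j))) (fun j => R (b + j)) i) |>.image
      (fun p => (n0 + (b + p.1), p.2))) (by
      intro p hp
      obtain ⟨p', hp', rfl⟩ := mem_image.1 hp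
      obtain ⟨h2, h3⟩ := mem_sigma.1 hp'
      rw [mem_range] at h2
      refine ⟨by simp only; omega, ?_⟩
      intro C hC
      rw [closed, mem_filter] at h3
      refine lt_of_le_of_lt (card_le_card ?_) h3.2
      intro i hi
      rw [mem_filter]
      exact ⟨mem_univ _, (hC i).1 hi⟩)
    rw [card_image_of_injOn, card_sigma] at h1
    · exact h1
    · rintro ⟨p1, p2⟩ _ ⟨p1', p2'⟩ _ hpp
      simp only [Prod.mk.injEq] at hpp
      obtain ⟨e1, e2⟩ := hpp
      have e3 : p1 = p1' := by omega
      subst e3 e2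
      rfl
  set W := w ^ (ρ + 1) with hW
  set DD := D ^ (ρ + 1) with hDD
  have hDpos : 0 < D := by omega
  by_cases hcase : h - n0 ≤ ρ + 1
  · have h1 := window_short (w := w) (L := fun j => lv (n0 + j)) (R := R) hw (h - n0) hcase
      (fun j _ => hRs j) (R 0) (Subset.refl _)
    rw [hR0, hRe, mul_zero, zero_add, mul_one] at h1
    have h2 : ∑ j ∈ range (h - n0), (closed w (fun j => lv (n0 + j)) R j).card = 0 := by
      apply sum_eq_zero
      intro j hj
      rw [mem_range] at hj
      exact hcl0 j (by omega) (by omega)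
    rw [h2, mul_zero] at h1
    have h3 : 0 < w ^ (h - n0) := by positivity
    omega
  · push Not at hcase
    have hbig : ∀ q, (q + 1) * (ρ + 1) ≤ h - n0 → W ≤ 2 * (R ((q + 1) * (ρ + 1))).card := by
      intro q
      induction q with
      | zero =>
        intro hq
        have h1 := window (w := w) (L := fun j => lv (n0 + j)) (R := R) hw
          (fun j _ => hRs j) (R 0) (Subset.refl _)
        have h2 : ∑ j ∈ range (ρ + 1), (closed w (fun j => lv (n0 + j)) R j).card = 0 := by
          apply sum_eq_zero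
          intro j hj
          rw [mem_range] at hj
          exact hcl0 j (by omega) (by omega)
        rw [h2, hR0, mul_zero, mul_one, one_mul, add_zero] at h1
        rw [zero_add, one_mul]
        omega
      | succ q ih =>
        intro hq
        have e0 : (q + 1 + 1) * (ρ + 1) = (q + 1) * (ρ + 1) + (ρ + 1) := by ring
        have hA := ih (by omega)
        set b := (q + 1) * (ρ + 1) with hb
        have h1 := window (w := w) (L := fun j => lv (n0 + (b + j))) (R := fun j => R (b + j)) hw
          (fun j _ => by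
            intro g hg i hi
            exact hRs (b + j) g hg i hi) (R (b + 0)) (Subset.refl _)
        have h2 := hclm b (ρ + 1) (by omega)
        rw [e0]
        simp only [Nat.add_zero] at h1
        set Ac := (R b).card
        set Rc := (R (b + (ρ + 1))).card
        set X := ∑ i ∈ range (ρ + 1),
          (closed w (fun j => lv (n0 + (b + j))) (fun j => R (b + j)) i).card
        by_contra hcon2
        push Not at hcon2
        have hWpos : 0 < W := by positivity
        have hDDpos : 0 < DD := by positivity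
        have hApos : 0 < Ac := by omega
        have e1 : DD * X < DD * m := Nat.mul_lt_mul_of_pos_left h2 hDDpos
        have e2 : W * W ≤ 2 * Ac * W := Nat.mul_le_mul_right _ hA
        have e3 : Ac * (2 * Rc) < Ac * W := Nat.mul_lt_mul_of_pos_left hcon2 hApos
        have e4 : 4 * m * DD ≤ W * W := hm
        have e5 : 4 * (W * Ac) ≤ 2 * (Ac * (2 * Rc)) + 4 * (DD * X) := by
          calc 4 * (W * Ac) ≤ 4 * (Ac * Rc + DD * X) := Nat.mul_le_mul_left _ h1
            _ = _ := by ring
        have e6 : 4 * (DD * m) = 4 * m * DD := by ring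
        have e7 : W * Ac = Ac * W := Nat.mul_comm _ _
        have e8 : 2 * Ac * W = 2 * (Ac * W) := by ring
        omega
    -- the last window
    obtain ⟨q, J, hJ, hqJ⟩ : ∃ q J, J < ρ + 1 ∧ h - n0 = (q + 1) * (ρ + 1) + J := by
      refine ⟨(h - n0) / (ρ + 1) - 1, (h - n0) % (ρ + 1), Nat.mod_lt _ (by omega), ?_⟩
      have h1 : 1 ≤ (h - n0) / (ρ + 1) := (Nat.one_le_div_iff (by omega)).2 (by omega)
      rw [Nat.sub_add_cancel h1]
      have := Nat.div_add_mod (h - n0) (ρ + 1)
      rw [mul_comm] at this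
      exact this.symm
    have hA := hbig q (by omega)
    set b := (q + 1) * (ρ + 1) with hb
    have h1 := window_short (w := w) (L := fun j => lv (n0 + (b + j))) (R := fun j => R (b + j)) hw
      J (by omega) (fun j _ => by
        intro g hg i hi
        exact hRs (b + j) g hg i hi) (R (b + 0)) (Subset.refl _)
    have h2 := hclm b J (by omega)
    simp only [Nat.add_zero] at h1
    rw [← hqJ, hRe, mul_zero, zero_add] at h1
    set Ac := (R b).card
    set X := ∑ i ∈ range J, (closed w (fun j => lv (n0 + (b + j))) (fun j => R (b + j)) i).card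
    obtain ⟨K, hK⟩ : ∃ K, ρ + 1 = J + K := ⟨ρ + 1 - J, by omega⟩
    have e1 : D ^ J * X < D ^ J * m := Nat.mul_lt_mul_of_pos_left h2 (by positivity)
    have e2 : 4 * m * (D ^ J * D ^ K) ≤ W * (w ^ J * w ^ K) := by
      rw [← pow_add, ← pow_add, ← hK]
      exact hm
    have e3 : w ^ J * W ≤ 2 * (w ^ J * Ac) := by
      calc w ^ J * W ≤ w ^ J * (2 * Ac) := Nat.mul_le_mul_left _ hA
        _ = _ := by ring
    have e4 : w ^ J * W < 2 * (D ^ J * m) := by omega
    have e5 : w ^ K ≤ D ^ K := Nat.pow_le_pow_left hw K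
    have hDK : 0 < D ^ K := by positivity
    have e6 : w ^ J * W * D ^ K < 2 * (D ^ J * m) * D ^ K := Nat.mul_lt_mul_of_pos_right e4 hDK
    have e7 : w ^ J * W * w ^ K ≤ w ^ J * W * D ^ K := Nat.mul_le_mul_left _ e5
    have e8 : 4 * m * (D ^ J * D ^ K) = 2 * (2 * (D ^ J * m) * D ^ K) := by ring
    have e9 : W * (w ^ J * w ^ K) = w ^ J * W * w ^ K := by ring
    omega

/-- **Every computation blocks many groups.** -/
theorem law (live : ℕ → ℕ → (Fin (ρ + 1) → Fin D) → Fin D → Prop) (h T w m : ℕ)
    (hw2 : 2 ≤ w) (hw : w ≤ D) (hh : 1 ≤ h) (hmh : m ≤ h)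
    (hm : 4 * m * D ^ (ρ + 1) ≤ w ^ (ρ + 1) * w ^ (ρ + 1))
    (hstep : ∀ a n g s, live (a + 1) n g s → ¬ live a n g s → n + 1 < h →
      ∀ s', live a (n + 1) (shift g s) s')
    (h0 : ∀ n g, n < h → ∃ s, ¬ live 0 n g s)
    (g1 : Fin (ρ + 1) → Fin D) (τ0 : ℕ) (hτ0 : τ0 < T) (hroot : ∀ s, live τ0 0 g1 s)
    (hcl : ∀ a, a < T → ∀ Z : Finset (ℕ × (Fin (ρ + 1) → Fin D)),
      (∀ p ∈ Z, p.1 < h ∧
        ∀ C : Finset (Fin D), (∀ i, i ∈ C ↔ ¬ live a p.1 p.2 i) → C.card < w) → Z.card < m) :
    False := by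
  classical
  set Free : ℕ → Prop := fun a => ∃ s : ℕ → Fin D, ∀ n, n < h → ¬ live a n (pg g1 s n) (s n)
    with hFree
  have hDpos : 0 < D := by omega
  -- there is a free path at the beginning
  have hf0 : Free 0 := by
    have : ∀ n, n ≤ h → ∃ s : ℕ → Fin D, ∀ i, i < n → ¬ live 0 i (pg g1 s i) (s i) := by
      intro n
      induction n with
      | zero => intro _; exact ⟨fun _ => ⟨0, hDpos⟩, fun i hi => by omega⟩
      | succ n ih =>
        intro hn
        obtain ⟨s, hs⟩ := ih (by omega)
        obtain ⟨x, hx⟩ := h0 n (pg g1 s n) (by omega)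
        refine ⟨Function.update s n x, ?_⟩
        intro i hi
        have h1 : pg g1 (Function.update s n x) i = pg g1 s i := by
          apply pg_congr
          intro j hj
          rw [Function.update_of_ne (by omega)]
        rw [h1]
        by_cases hin : i = n
        · subst hin
          rw [Function.update_self]
          exact hx
        · rw [Function.update_of_ne hin]
          exact hs i (by omega)
    exact this h le_rfl
  have hfτ : ¬ Free τ0 := by
    rintro ⟨s, hs⟩
    exact hs 0 (by omega) (hroot (s 0))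
  -- the last step with a free path
  obtain ⟨a, ha, hfa, hfa'⟩ : ∃ a, a < τ0 ∧ Free a ∧ ¬ Free (a + 1) := by
    by_contra hcon
    push Not at hcon
    have : ∀ a, a ≤ τ0 → Free a := by
      intro a
      induction a with
      | zero => intro _; exact hf0
      | succ a ih =>
        intro hle
        exact hcon a (by omega) (ih (by omega))
    exact hfτ (this τ0 le_rfl)
  obtain ⟨s, hs⟩ := hfa
  have hs' : ∀ n, n + 1 < h → ¬ live (a + 1) n (pg g1 s n) (s n) := by
    intro n hn hl
    exact hs (n + 1) hn (hstep a n _ _ hl (hs n (by omega)) hn (s (n + 1)))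
  -- the blocking groups
  have key : ∀ l : Fin h, ∃ (s' : ℕ → Fin D) (e : ℕ), (∀ i, i < l.val → s' i = s i) ∧
      l.val ≤ e ∧ e < l.val + 1 + (ρ + 1) ∧ e < h ∧ (l.val < e → s' l.val ≠ s l.val) ∧
      ∀ C : Finset (Fin D), (∀ i, i ∈ C ↔ ¬ live (a + 1) e (pg g1 s' e) i) → C.card < w := by
    rintro ⟨l, hl⟩
    simp only
    by_cases hheavy : ∀ C : Finset (Fin D),
        (∀ i, i ∈ C ↔ ¬ live (a + 1) l (pg g1 s l) i) → C.card < w
    · exact ⟨s, l, fun _ _ => rfl, le_rfl, by omega, hl, fun h => absurd h (lt_irrefl _), hheavy⟩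
    · push Not at hheavy
      obtain ⟨C, hC, hCw⟩ := hheavy
      obtain ⟨x, hx, hxs⟩ : ∃ x ∈ C, x ≠ s l := by
        by_contra hcon
        push Not at hcon
        have : C ⊆ {s l} := fun x hx => mem_singleton.2 (hcon x hx)
        have := card_le_card this
        rw [card_singleton] at this
        omega
      have h1 : ∀ n, n ≤ l → pg g1 (Function.update s l x) n = pg g1 s n := by
        intro n hn
        apply pg_congr
        intro j hj
        rw [Function.update_of_ne (by omega)]
      obtain ⟨s', e, h2, h3, h4, h5, h6⟩ := extension (fun n g i => live (a + 1) n g i) h w m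
        (by omega) hw hm (hcl (a + 1) (by omega)) g1 (Function.update s l x) (l + 1) (by omega)
        (by
          intro n hn
          rw [h1 n (by omega)]
          by_cases hnl : n = l
          · subst hnl
            rw [Function.update_self]
            exact (hC x).1 hx
          · rw [Function.update_of_ne hnl]
            exact hs' n (by omega))
        (by
          intro s' _
          by_contra hcon
          push Not at hcon
          exact hfa' ⟨s', hcon⟩)
      refine ⟨s', e, ?_, by omega, by omega, h5, ?_, h6⟩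
      · intro i hi
        rw [h2 i (by omega), Function.update_of_ne (by omega)]
      · intro _
        rw [h2 l (by omega), Function.update_self]
        exact hxs
  choose σ e hσ1 hσ2 hσ3 hσ4 hσ5 hσ6 using key
  set p : Fin h → ℕ × (Fin (ρ + 1) → Fin D) := fun l => (e l, pg g1 (σ l) (e l)) with hp
  have hlt : ∀ l l' : Fin h, l < l' → p l ≠ p l' := by
    intro l l' hll hpp
    simp only [hp, Prod.mk.injEq] at hpp
    obtain ⟨h1, h2⟩ := hpp
    have h3 : l.val < l'.val := hll
    have h4 := hσ2 l'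
    have h5 : l.val < e l := by omega
    have h6 := hσ3 l
    obtain ⟨i, hi⟩ : ∃ i, e l = l.val + 1 + i := ⟨e l - (l.val + 1), by omega⟩
    have h7 := pg_letter g1 (σ l) l.val i (by omega)
    have h8 := pg_letter g1 (σ l') l.val i (by omega)
    rw [← hi] at h7 h8
    rw [← h1] at h2
    rw [← h2, h7, hσ1 l' l.val h3] at h8
    exact hσ5 l h5 h8
  have hinj : Function.Injective p := by
    intro l l' hpp
    rcases lt_trichotomy l l' with h1 | h1 | h1
    · exact absurd hpp (hlt l l' h1)
    · exact h1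
    · exact absurd hpp.symm (hlt l' l h1)
  have hfin := hcl (a + 1) (by omega) (univ.image p) (by
    intro q hq
    obtain ⟨l, -, rfl⟩ := mem_image.1 hq
    exact ⟨hσ4 l, hσ6 l⟩)
  rw [card_image_of_injective _ hinj, card_univ, Fintype.card_fin] at hfin
  omega

end Path

end Pool.Agent.W997.DB
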