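import Pool.Agent.W997.DB.Input
import Pool.Agent.W997.DB.Grow
import Pool.Agent.W997.DB.Law

/-!
# The unrolled De Bruijn graph as a group structured evaluation problem
-/

set_option autoImplicit false

namespace Pool.Agent.W997.DB

open Finset
open Pool.Agent.W997.TS (DBP)

section Lists

variable {V Γ : Type} {D k : ℕ} [Fintype Γ] [DecidableEq Γ] [DecidableEq V] (Y : Sys V Γ D k)
  (P : DBP V k)

theorem Sys.not_live (z : Γ × Fin D → Fin k) (c a : Γ × Fin D) (ha : a ∈ Y.prs c.1) :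
    ∀ (l : List P.State) (τ : ℕ) (q : P.State), l[τ]? = some q → P.query q = Y.pos z a →
      ¬ Y.Live P z c l → ∃ τ', τ' < τ ∧ ∃ q', l[τ']? = some q' ∧ P.query q' = Y.pos z c
  | [], τ, q, h, _, _ => by simp at h
  | q0 :: l, 0, q, h, hq, hL => by
    simp only [List.getElem?_cons_zero, Option.some.injEq] at h
    subst h
    exact absurd (Or.inl ⟨a, ha, hq⟩) hL
  | q0 :: l, τ + 1, q, h, hq, hL => by
    simp only [List.getElem?_cons_succ] at h
    by_cases h1 : P.query q0 = Y.pos z c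
    · exact ⟨0, by omega, q0, by simp, h1⟩
    · have h2 : ¬ Y.Live P z c l := fun h3 => hL (Or.inr ⟨h1, h3⟩)
      obtain ⟨τ', h3, q', h4, h5⟩ := Sys.not_live z c a ha l τ q h hq h2
      exact ⟨τ' + 1, by omega, q', by simpa using h4, h5⟩

end Lists

variable {D ρ h k : ℕ}

/-- The evaluation problem. -/
def sys (D ρ h k : ℕ) : Sys (Var D ρ h k) (Fin (h + 1) × Word D ρ) D k where
  nodeOf := fun v => match v with
    | Sum.inl (j, g, i, _) => ((j.succ, g), i)
    | Sum.inr (g, i) => ((0, g), i)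
  pos := fun z v =>
    if hj : v.1.1.val = 0 then Sum.inr (v.1.2, v.2)
    else Sum.inl (⟨v.1.1.val - 1, by have := v.1.1.2; omega⟩, v.1.2, v.2,
      fun s => z ((⟨v.1.1.val - 1, by have := v.1.1.2; omega⟩, shift v.1.2 v.2), s))
  ht := fun γ => γ.1.val
  cg := fun v => (⟨v.1.1.val - 1, by have := v.1.1.2; omega⟩, shift v.1.2 v.2)
  nodeOf_pos := by
    rintro z ⟨⟨j, g⟩, i⟩
    by_cases hj : j.val = 0
    · simp only [hj, dite_true]
      have : j = 0 := Fin.ext hj
      rw [this]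
    · simp only [hj, dite_false]
      have : (⟨j.val - 1, by have := j.2; omega⟩ : Fin h).succ = j := by
        apply Fin.ext
        simp only [Fin.succ_mk]
        omega
      rw [this]
  pos_eq_iff := by
    rintro z w ⟨⟨j, g⟩, i⟩
    by_cases hj : j.val = 0
    · simp [hj]
    · simp only [hj, dite_false, Sum.inl.injEq, Prod.mk.injEq, true_and]
      constructor
      · intro h1 _ s
        exact congrFun h1 s
      · intro h1
        funext s
        exact h1 (by omega) s
  cg_lt := by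
    rintro ⟨⟨j, g⟩, i⟩ hj
    simp only at hj ⊢
    omega

/-- The values of all nodes. -/
def valF (x : Input D ρ h k) : (Fin (h + 1) × Word D ρ) × Fin D → Fin k :=
  fun v => value x v.1.1.val (Nat.le_of_lt_succ v.1.1.2) v.1.2 v.2

theorem valF_eq (x : Input D ρ h k) (v : (Fin (h + 1) × Word D ρ) × Fin D) :
    valF x v = x ((sys D ρ h k).pos (valF x) v) := by
  obtain ⟨⟨⟨j, hj⟩, g⟩, i⟩ := v
  cases j with
  | zero => rfl
  | succ j => rfl

theorem card_prs (γ : Fin (h + 1) × Word D ρ) : ((sys D ρ h k).prs γ).card ≤ D := by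
  classical
  have h1 : D = Fintype.card (Fin D) := (Fintype.card_fin D).symm
  conv_rhs => rw [h1, ← card_univ]
  refine card_le_card_of_injOn (fun a => a.1.2 0) (fun _ _ => mem_coe.2 (mem_univ _)) ?_
  rintro ⟨⟨j, g⟩, i⟩ ha ⟨⟨j', g'⟩, i'⟩ ha' h2
  obtain ⟨h3, h4⟩ := ((sys D ρ h k).mem_prs).1 (mem_coe.1 ha)
  obtain ⟨h3', h4'⟩ := ((sys D ρ h k).mem_prs).1 (mem_coe.1 ha')
  have h5 := h4.trans h4'.symm
  simp only [sys, Prod.mk.injEq, Fin.mk.injEq] at h5 h3 h3' h2
  obtain ⟨h6, h7⟩ := h5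
  have hj : j = j' := by
    apply Fin.ext
    omega
  have hi : i = i' := by
    have := congrFun h7 (Fin.last ρ)
    rwa [shift_last, shift_last] at this
  have hg : g = g' := by
    funext t
    rcases Fin.eq_zero_or_eq_succ t with rfl | ⟨t, rfl⟩
    · exact h2
    · have := congrFun h7 t.castSucc
      rwa [shift_castSucc, shift_castSucc] at this
  rw [hj, hi, hg]

/-- The height of a depth. -/
def hgt (h l : ℕ) : Fin (h + 1) := ⟨h - l, by omega⟩

theorem hgt_inj {l l' : ℕ} (hl : l ≤ h) (hl' : l' ≤ h) (he : hgt h l = hgt h l') : l = l' := by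
  have := congrArg Fin.val he
  simp only [hgt] at this
  omega

/-- **The time of a computation** which reads few variables at every node and does not have many
crowded groups. -/
theorem long_time (P : DBP (Var D ρ h k) k)
    (z : (Fin (h + 1) × Word D ρ) × Fin D → Fin k) (l : List P.State) (w m a0 κ q : ℕ)
    (hw1 : 1 ≤ w) (hw : w ≤ D) (ha0 : 1 ≤ a0) (hq : 1 ≤ q) (hh : q * (ρ + 1) ≤ h)
    (c1 : 2 * m * D ^ (ρ + 1) ≤ a0 * w ^ (ρ + 1)) (c2 : 2 * (κ * a0) ≤ w ^ (ρ + 1))
    (g0 : Word D ρ) (i0 : Fin D)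
    (hroot : ∃ q' ∈ l, P.query q' = (sys D ρ h k).pos z ((hgt h 0, g0), i0))
    (hcr0 : ¬ (sys D ρ h k).Crowded P z (D + 1 - w) 1 l)
    (hcr : ∀ q' l', q' :: l' <:+ l → ¬ (sys D ρ h k).Crowded P z (D + 1 - w) m (q' :: l')) :
    κ ^ q ≤ l.length := by
  classical
  set Y := sys D ρ h k with hY
  obtain ⟨q0, hq0, hq0'⟩ := hroot
  obtain ⟨τ0, hτ0⟩ := List.mem_iff_getElem?.1 hq0
  have hlen : ∀ (l : List P.State) (τ : ℕ) (q' : P.State), l[τ]? = some q' → τ < l.length := by
    intro l τ q' h1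
    by_contra hcon
    rw [List.getElem?_eq_none (not_lt.1 hcon)] at h1
    cases h1
  have hlvc : ∀ (γ : Fin (h + 1) × Word D ρ) (l' : List P.State) (C : Finset (Fin D)),
      (∀ i, i ∈ C ↔ ¬ Y.Live P z (γ, i) l') → Y.lv P z γ l' + C.card = D := by
    intro γ l' C hC
    have h1 : C = univ.filter (fun s : Fin D => ¬ Y.Live P z (γ, s) l') := by
      ext i
      rw [hC i, mem_filter]
      simp
    unfold Sys.lv
    rw [h1]
    have h2 := card_filter_add_card_filter_not (s := (univ : Finset (Fin D)))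
      (fun s : Fin D => Y.Live P z (γ, s) l')
    rw [card_univ, Fintype.card_fin] at h2
    convert h2 using 2
  refine time_bound (ρ := ρ) (D := D)
    (ev := fun τ l' g i => l' ≤ h ∧ ∃ q', l[τ]? = some q' ∧
      P.query q' = Y.pos z ((hgt h l', g), i)) ?_
    (fun a l' g s => Y.Live P z ((hgt h l', g), s) (l.drop a)) h l.length w m a0 κ q
    ?_ ?_ ?_ hw ha0 hq hh c1 c2 τ0 (hlen _ _ _ hτ0) g0 i0 ⟨Nat.zero_le _, q0, hτ0, hq0'⟩
  · rintro τ l1 l2 g g' i i' ⟨-, q1, h1, h2⟩ ⟨-, q2, h3, h4⟩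
    rw [h1] at h3
    cases h3
    have h5 : Y.nodeOf (P.query q1) = ((hgt h l1, g), i) := by rw [h2, Y.nodeOf_pos]
    have h6 : Y.nodeOf (P.query q1) = ((hgt h l2, g'), i') := by rw [h4, Y.nodeOf_pos]
    rw [h5] at h6
    exact ⟨(Prod.mk.inj (Prod.mk.inj h6).1).2, (Prod.mk.inj h6).2⟩
  · rintro a τ l' g i s haτ hτ hl' ⟨-, q1, h1, h2⟩ hnl
    have hpar : ((hgt h l', g), i) ∈ Y.prs (hgt h (l' + 1), shift g i) := by
      rw [Y.mem_prs]
      refine ⟨?_, ?_⟩
      · simp only [hY, sys, hgt]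
        omega
      · simp only [hY, sys, hgt, Prod.mk.injEq, Fin.mk.injEq, and_true]
        omega
    have h3 : (l.drop a)[τ - a]? = some q1 := by
      rw [List.getElem?_drop, Nat.add_sub_cancel' haτ]
      exact h1
    obtain ⟨τ', h4, q', h5, h6⟩ := Y.not_live P z ((hgt h (l' + 1), shift g i), s) _ hpar
      (l.drop a) (τ - a) q1 h3 h2 hnl
    rw [List.getElem?_drop] at h5
    exact ⟨a + τ', by omega, by omega, by omega, q', h5, h6⟩
  · intro a ha Z hZ
    by_contra hcon
    push Not at hcon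
    obtain ⟨Z', hZ', hZc⟩ := exists_subset_card_eq hcon
    obtain ⟨q', l', hl'⟩ : ∃ q' l', l.drop a = q' :: l' := by
      cases h1 : l.drop a with
      | nil =>
        rw [List.drop_eq_nil_iff] at h1
        omega
      | cons q' l' => exact ⟨q', l', rfl⟩
    apply hcr q' l' (hl' ▸ List.drop_suffix a l)
    refine ⟨Z'.image (fun p => (hgt h p.1, p.2)), ?_, ?_⟩
    · rw [card_image_of_injOn, hZc]
      rintro ⟨p1, p2⟩ hp ⟨p1', p2'⟩ hp' hpp
      simp only [Prod.mk.injEq] at hpp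
      obtain ⟨e1, e2⟩ := hpp
      have e3 := hgt_inj (hZ _ (hZ' (mem_coe.1 hp))).2.1 (hZ _ (hZ' (mem_coe.1 hp'))).2.1 e1
      simp only at e3
      rw [e3, e2]
    · intro γ hγ
      obtain ⟨p, hp, rfl⟩ := mem_image.1 hγ
      have h1 := (hZ p (hZ' hp)).2.2
        (univ.filter (fun i => ¬ Y.Live P z ((hgt h p.1, p.2), i) (l.drop a)))
        (by intro i; simp)
      have h2 := hlvc (hgt h p.1, p.2) (l.drop a)
        (univ.filter (fun i => ¬ Y.Live P z ((hgt h p.1, p.2), i) (l.drop a)))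
        (by intro i; simp)
      rw [hl'] at h1 h2
      omega
  · intro l' g h1 h2 C hC
    by_contra hcon
    push Not at hcon
    apply hcr0
    refine ⟨{(hgt h l', g)}, card_singleton _, ?_⟩
    intro γ hγ
    rw [mem_singleton] at hγ
    subst hγ
    have h3 := hlvc (hgt h l', g) l C (by
      intro i
      rw [hC i, List.drop_zero])
    omega

/-- **No computation is good** if `m` is at most the height. -/
theorem no_good (P : DBP (Var D ρ h k) k)
    (z : (Fin (h + 1) × Word D ρ) × Fin D → Fin k) (l : List P.State) (w m : ℕ)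
    (hw2 : 2 ≤ w) (hw : w ≤ D) (hh : 1 ≤ h) (hmh : m ≤ h)
    (hm : 4 * m * D ^ (ρ + 1) ≤ w ^ (ρ + 1) * w ^ (ρ + 1))
    (g0 : Word D ρ) (i0 : Fin D)
    (hroot : ∃ q' ∈ l, P.query q' = (sys D ρ h k).pos z ((hgt h 0, g0), i0))
    (hcr0 : ¬ (sys D ρ h k).Crowded P z (D + 1 - w) 1 l)
    (hcr : ∀ q' l', q' :: l' <:+ l → ¬ (sys D ρ h k).Crowded P z (D + 1 - w) m (q' :: l')) :
    False := by
  classical
  set Y := sys D ρ h k with hY
  obtain ⟨q0, hq0, hq0'⟩ := hroot
  obtain ⟨τ0, hτ0⟩ := List.mem_iff_getElem?.1 hq0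
  have hlen : ∀ (l : List P.State) (τ : ℕ) (q' : P.State), l[τ]? = some q' → τ < l.length := by
    intro l τ q' h1
    by_contra hcon
    rw [List.getElem?_eq_none (not_lt.1 hcon)] at h1
    cases h1
  have hdrop : ∀ τ q', l[τ]? = some q' → l.drop τ = q' :: l.drop (τ + 1) := by
    intro τ q' h1
    have h2 := hlen l τ q' h1
    rw [List.drop_eq_getElem_cons h2]
    rw [List.getElem?_eq_getElem h2] at h1
    cases h1
    rfl
  have hlvc : ∀ (γ : Fin (h + 1) × Word D ρ) (l' : List P.State) (C : Finset (Fin D)),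
      (∀ i, i ∈ C ↔ ¬ Y.Live P z (γ, i) l') → Y.lv P z γ l' + C.card = D := by
    intro γ l' C hC
    have h1 : C = univ.filter (fun s : Fin D => ¬ Y.Live P z (γ, s) l') := by
      ext i
      rw [hC i, mem_filter]
      simp
    unfold Sys.lv
    rw [h1]
    have h2 := card_filter_add_card_filter_not (s := (univ : Finset (Fin D)))
      (fun s : Fin D => Y.Live P z (γ, s) l')
    rw [card_univ, Fintype.card_fin] at h2
    convert h2 using 2
  have hpar : ∀ n, n < h → ∀ (g : Word D ρ) (i : Fin D),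
      ((hgt h n, g), i) ∈ Y.prs (hgt h (n + 1), shift g i) := by
    intro n hn g i
    rw [Y.mem_prs]
    refine ⟨?_, ?_⟩
    · simp only [hY, sys, hgt]
      omega
    · simp only [hY, sys, hgt, Prod.mk.injEq, Fin.mk.injEq, and_true]
      omega
  refine law (ρ := ρ) (D := D)
    (fun a n g s => Y.Live P z ((hgt h (n + 1), g), s) (l.drop a)) h l.length w m hw2 hw hh hmh hm
    ?_ ?_ (shift g0 i0) τ0 (hlen _ _ _ hτ0) ?_ ?_
  · intro a n g s hl1 hl0 hn s'
    by_cases ha : a < l.length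
    · obtain ⟨q1, hq1⟩ : ∃ q1, l[a]? = some q1 := ⟨l[a], List.getElem?_eq_getElem ha⟩
      have h1 := hdrop a q1 hq1
      rw [h1] at hl0 ⊢
      left
      refine ⟨((hgt h (n + 1), g), s), hpar (n + 1) hn g s, ?_⟩
      by_contra hne
      exact hl0 (Or.inr ⟨hne, hl1⟩)
    · rw [List.drop_eq_nil_of_le (by omega)] at hl1
      exact absurd hl1 (by simp [Sys.Live])
  · intro n g hn
    by_contra hcon
    push Not at hcon
    apply hcr0
    refine ⟨{(hgt h (n + 1), g)}, card_singleton _, ?_⟩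
    intro γ hγ
    rw [mem_singleton] at hγ
    subst hγ
    have h3 := hlvc (hgt h (n + 1), g) l ∅ (by
      intro i
      have := hcon i
      rw [List.drop_zero] at this
      simp [this])
    rw [card_empty, add_zero] at h3
    omega
  · intro s
    rw [hdrop τ0 q0 hτ0]
    left
    exact ⟨_, hpar 0 (by omega) g0 i0, hq0'⟩
  · intro a ha Z hZ
    by_contra hcon
    push Not at hcon
    obtain ⟨Z', hZ', hZc⟩ := exists_subset_card_eq hcon
    obtain ⟨q', l', hl'⟩ : ∃ q' l', l.drop a = q' :: l' := by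
      cases h1 : l.drop a with
      | nil =>
        rw [List.drop_eq_nil_iff] at h1
        omega
      | cons q' l' => exact ⟨q', l', rfl⟩
    apply hcr q' l' (hl' ▸ List.drop_suffix a l)
    refine ⟨Z'.image (fun p => (hgt h (p.1 + 1), p.2)), ?_, ?_⟩
    · rw [card_image_of_injOn, hZc]
      rintro ⟨p1, p2⟩ hp ⟨p1', p2'⟩ hp' hpp
      simp only [Prod.mk.injEq] at hpp
      obtain ⟨e1, e2⟩ := hpp
      have e0 := (hZ _ (hZ' (mem_coe.1 hp))).1
      have e0' := (hZ _ (hZ' (mem_coe.1 hp'))).1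
      simp only at e0 e0'
      have e3 := hgt_inj (by omega) (by omega) e1
      have e4 : p1 = p1' := by omega
      rw [e4, e2]
    · intro γ hγ
      obtain ⟨p, hp, rfl⟩ := mem_image.1 hγ
      have h1 := (hZ p (hZ' hp)).2
        (univ.filter (fun i => ¬ Y.Live P z ((hgt h (p.1 + 1), p.2), i) (l.drop a)))
        (by intro i; simp)
      have h2 := hlvc (hgt h (p.1 + 1), p.2) (l.drop a)
        (univ.filter (fun i => ¬ Y.Live P z ((hgt h (p.1 + 1), p.2), i) (l.drop a)))
        (by intro i; simp)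
      rw [hl'] at h1 h2
      omega

end Pool.Agent.W997.DB
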