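import Pool.Agent.W997.TS.Fast
import Pool.Agent.W997.DB.Inst

/-!
# Upper bounds: the program with small space and the program with small time
-/

set_option autoImplicit false

namespace Pool.Agent.W997.DB

open Finset
open Pool.Agent.W997.TS (DBP bit Node fast kid par rootN cnt cnt_pos ll ll_leaf ll_kid Full
  kid_val par_kid kid_ne_nil fast_next fast_read)

section StepsQ

variable {V : Type} {k : ℕ}

/-- From `q` the program reaches `q'` after `t` steps, and all states before `q'` satisfy `Q`. -/
def StepsQ (P : DBP V k) (x : V → Fin k) (Q : P.State → Prop) : P.State → ℕ → P.State → Prop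
  | q, 0, q' => q = q'
  | q, t + 1, q' => Q q ∧ ∃ q1, P.next q (x (P.query q)) = Sum.inl q1 ∧ StepsQ P x Q q1 t q'

theorem StepsQ.append {P : DBP V k} {x : V → Fin k} {Q : P.State → Prop} : ∀ {t : ℕ}
    {q q' : P.State} {t' : ℕ} {q'' : P.State}, StepsQ P x Q q t q' → StepsQ P x Q q' t' q'' →
      StepsQ P x Q q (t + t') q''
  | 0, q, q', t', q'', h, h' => by
    have : q = q' := h
    subst this
    rwa [Nat.zero_add]
  | t + 1, q, q', t', q'', h, h' => by
    obtain ⟨h0, q1, h1, h2⟩ := h
    rw [Nat.add_right_comm]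
    exact ⟨h0, q1, h1, StepsQ.append h2 h'⟩

theorem StepsQ.halts {P : DBP V k} {x : V → Fin k} {Q : P.State → Prop} {r : Bool} : ∀ {t : ℕ}
    {q q' : P.State}, StepsQ P x Q q t q' → Q q' → P.next q' (x (P.query q')) = Sum.inr r →
      ∃ l : List P.State, l.length + 1 = t + 1 ∧ P.IsPath x q l r ∧ ∀ s ∈ q :: l, Q s
  | 0, q, q', h, hQ, h' => by
    have : q = q' := h
    subst this
    exact ⟨[], rfl, h', by simpa using hQ⟩
  | t + 1, q, q', h, hQ, h' => by
    obtain ⟨h0, q1, h1, h2⟩ := h
    obtain ⟨l, hl, hp, hq⟩ := StepsQ.halts h2 hQ h'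
    refine ⟨q1 :: l, by rw [List.length_cons]; omega, ⟨h1, hp⟩, ?_⟩
    intro s hs
    rcases List.mem_cons.1 hs with rfl | hs
    · exact h0
    · exact hq s hs

end StepsQ

section Fast

variable {d k n : ℕ}

/-- The state reads the entry which belongs to the true values of the children. -/
def Thr {hd : 0 < d} {hk : 0 < k} (x : TS.Input d k n) (q : (fast d k n hd hk).State) : Prop :=
  (fast d k n hd hk).query q = TS.pos (TS.valF x) q.1

theorem fast_query (hd : 0 < d) (hk : 0 < k) (x : TS.Input d k n) (v : Node d n)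
    (z : Fin (n + 1) → Fin d → Fin k) (hz : Full x v z) :
    (fast d k n hd hk).query (v, z) = TS.pos (TS.valF x) v := by
  unfold TS.pos
  simp only [fast]
  split_ifs with h
  · rw [hz h]
  · rfl

/-- Evaluation of the subtree of `v`. -/
theorem fast_evalQ (hd : 0 < d) (hk : 0 < k) (x : TS.Input d k n) : ∀ (j : ℕ) (v : Node d n),
    v.1.length + j = n → ∀ z : Fin (n + 1) → Fin d → Fin k,
      ∃ z', StepsQ (fast d k n hd hk) x (Thr x) (ll hd v, z) (cnt d j - 1) (v, z') ∧ Full x v z' ∧
        ∀ i : Fin (n + 1), i.val < v.1.length → z' i = z i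
  | 0, v, hv, z => by
    refine ⟨z, ?_, ?_, fun i _ => rfl⟩
    · rw [ll_leaf hd v (by omega)]
      exact rfl
    · intro h
      omega
  | j + 1, v, hv, z => by
    have hvn : v.1.length < n := by omega
    set iv : Fin (n + 1) := ⟨v.1.length, Nat.lt_succ_of_le v.2⟩ with hiv
    -- from the child `s` on
    have key : ∀ (r : ℕ) (s : Fin d), s.val + r + 1 = d → ∀ z : Fin (n + 1) → Fin d → Fin k,
        (∀ s' : Fin d, s'.val < s.val → z iv s' = TS.valF x (kid v s')) →
        ∃ z', StepsQ (fast d k n hd hk) x (Thr x) (ll hd (kid v s), z) ((r + 1) * cnt d j) (v, z') ∧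
          Full x v z' ∧ ∀ i : Fin (n + 1), i.val < v.1.length → z' i = z i := by
      intro r
      induction r with
      | zero =>
        intro s hs z hz
        obtain ⟨z1, h1, h2, h3⟩ := fast_evalQ hd hk x j (kid v s)
          (by rw [kid_val hvn, List.length_cons]; omega) z
        have h4 := fast_next hd hk v hvn s z1 (TS.valF x (kid v s))
        rw [dif_neg (by omega)] at h4
        refine ⟨Function.update z1 iv (Function.update (z1 iv) s (TS.valF x (kid v s))),
          ?_, ?_, ?_⟩
        · have h5 : StepsQ (fast d k n hd hk) x (Thr x) (kid v s, z1) 1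
              (v, Function.update z1 iv (Function.update (z1 iv) s (TS.valF x (kid v s)))) := by
            refine ⟨fast_query hd hk x (kid v s) z1 h2, _, ?_, rfl⟩
            rw [fast_read hd hk x (kid v s) z1 h2]
            exact h4
          have h6 := h1.append h5
          have h7 : cnt d j - 1 + 1 = (0 + 1) * cnt d j := by
            have := cnt_pos d j
            omega
          rw [h7] at h6
          exact h6
        · intro _
          change Function.update z1 iv _ iv = _
          rw [Function.update_self]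
          funext s'
          by_cases hss : s' = s
          · rw [hss, Function.update_self]
          · rw [Function.update_of_ne hss]
            have h5 : s'.val < s.val := by
              have := s'.2
              have h6 : s'.val ≠ s.val := fun h => hss (Fin.ext h)
              omega
            rw [h3 iv (by rw [kid_val hvn, List.length_cons]; exact Nat.lt_succ_self _)]
            exact hz s' h5
        · intro i hi
          rw [Function.update_of_ne, h3 i (by rw [kid_val hvn, List.length_cons]; omega)]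
          intro h
          rw [h] at hi
          exact absurd hi (lt_irrefl _)
      | succ r ih =>
        intro s hs z hz
        obtain ⟨z1, h1, h2, h3⟩ := fast_evalQ hd hk x j (kid v s)
          (by rw [kid_val hvn, List.length_cons]; omega) z
        have h4 := fast_next hd hk v hvn s z1 (TS.valF x (kid v s))
        rw [dif_pos (by omega)] at h4
        set z2 := Function.update z1 iv (Function.update (z1 iv) s (TS.valF x (kid v s))) with hz2
        obtain ⟨z', g1, g2, g3⟩ := ih ⟨s.val + 1, by omega⟩ (by simp only; omega) z2 (by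
          intro s' hs'
          simp only at hs'
          rw [hz2, Function.update_self]
          by_cases hss : s' = s
          · rw [hss, Function.update_self]
          · rw [Function.update_of_ne hss]
            have h5 : s'.val < s.val := by
              have h6 : s'.val ≠ s.val := fun h => hss (Fin.ext h)
              omega
            rw [h3 iv (by rw [kid_val hvn, List.length_cons]; exact Nat.lt_succ_self _)]
            exact hz s' h5)
        refine ⟨z', ?_, g2, ?_⟩
        · have h5 : StepsQ (fast d k n hd hk) x (Thr x) (kid v s, z1) 1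
              (ll hd (kid v ⟨s.val + 1, by omega⟩), z2) := by
            refine ⟨fast_query hd hk x (kid v s) z1 h2, _, ?_, rfl⟩
            rw [fast_read hd hk x (kid v s) z1 h2]
            exact h4
          have h6 := (h1.append h5).append g1
          have h7 : cnt d j - 1 + 1 + (r + 1) * cnt d j = (r + 1 + 1) * cnt d j := by
            have := cnt_pos d j
            have h8 : cnt d j - 1 + 1 = cnt d j := by omega
            rw [h8]
            ring
          rw [h7] at h6
          exact h6
        · intro i hi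
          rw [g3 i hi, hz2, Function.update_of_ne,
            h3 i (by rw [kid_val hvn, List.length_cons]; omega)]
          intro h
          rw [h] at hi
          exact absurd hi (lt_irrefl _)
    obtain ⟨z', h1, h2, h3⟩ := key (d - 1) ⟨0, hd⟩ (by simp only; omega) z (by
      intro s' hs'
      exact absurd hs' (Nat.not_lt_zero _))
    refine ⟨z', ?_, h2, h3⟩
    rw [ll_kid hd v hvn] at h1
    have h4 : (d - 1 + 1) * cnt d j = cnt d (j + 1) - 1 := by
      simp only [cnt]
      have : d - 1 + 1 = d := by omega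
      rw [this]
      omega
    rw [h4] at h1
    exact h1

/-- The fast program is thrifty. -/
theorem fast_runQ (hd : 0 < d) (hk : 0 < k) (x : TS.Input d k n) :
    ∃ l : List (fast d k n hd hk).State,
      (fast d k n hd hk).IsPath x (fast d k n hd hk).start l (bit (TS.rootValue x)) ∧
      ((fast d k n hd hk).start :: l).length = cnt d n ∧
      ∀ q ∈ (fast d k n hd hk).start :: l, Thr x q := by
  obtain ⟨z', h1, h2, -⟩ := fast_evalQ hd hk x n (rootN d n) (Nat.zero_add n)
    (fun _ _ => ⟨0, hk⟩)
  have h3 : (fast d k n hd hk).next (rootN d n, z')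
      (x ((fast d k n hd hk).query (rootN d n, z'))) = Sum.inr (bit (TS.rootValue x)) := by
    rw [fast_read hd hk x (rootN d n) z' h2, TS.rootValue_eq]
    simp only [fast]
    rw [dif_pos]
    rfl
  obtain ⟨l, hl, hp, hq⟩ := h1.halts (fast_query hd hk x (rootN d n) z' h2) h3
  refine ⟨l, hp, ?_, hq⟩
  rw [List.length_cons, hl]
  have := cnt_pos d n
  omega

end Fast

section Sub

variable {D ρ h k : ℕ}

/-- The label of the node of the De Bruijn graph which is reached from the root along a word. -/
def lab (g0 : Word D ρ) (i0 : Fin D) : List (Fin D) → Word D ρ × Fin D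
  | [] => (g0, i0)
  | s :: v => (shift (lab g0 i0 v).1 (lab g0 i0 v).2, s)

/-- The substitution of variables. -/
def sub (g0 : Word D ρ) (i0 : Fin D) : TS.Var D k h → Var D ρ h k
  | Sum.inl (v, a) => Sum.inl (⟨h - v.1.length - 1, by have := v.2; omega⟩,
      (lab g0 i0 v.1).1, (lab g0 i0 v.1).2, a)
  | Sum.inr v => Sum.inr (lab g0 i0 v.1)

theorem value_congr (x : Input D ρ h k) {j j' : ℕ} (hjj : j = j') (hj : j ≤ h) (hj' : j' ≤ h)
    (g : Word D ρ) (i : Fin D) : value x j hj g i = value x j' hj' g i := by
  subst hjj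
  rfl

theorem value_sub (g0 : Word D ρ) (i0 : Fin D) (x : Input D ρ h k) : ∀ (j : ℕ)
    (v : List (Fin D)) (hv : v.length + j = h),
      TS.value (fun w => x (sub g0 i0 w)) v (by omega) =
        value x j (by omega) (lab g0 i0 v).1 (lab g0 i0 v).2
  | 0, v, hv => by
    rw [TS.value, dif_neg (by omega)]
    rfl
  | j + 1, v, hv => by
    rw [TS.value, dif_pos (by omega), value]
    simp only [sub]
    congr 2
    refine Prod.ext ?_ (Prod.ext rfl (Prod.ext rfl ?_))
    · apply Fin.ext
      simp only
      omega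
    · funext s
      exact value_sub g0 i0 x j (s :: v) (by rw [List.length_cons]; omega)

/-- Renaming the variables. -/
def rename {V W : Type} {k : ℕ} (P : DBP V k) (φ : V → W) : DBP W k where
  State := P.State
  fintype := P.fintype
  start := P.start
  query := fun q => φ (P.query q)
  next := P.next

theorem rename_path {V W : Type} {k : ℕ} (P : DBP V k) (φ : V → W) (x : W → Fin k) (r : Bool) :
    ∀ (l : List P.State) (q : P.State), P.IsPath (fun v => x (φ v)) q l r →
      (rename P φ).IsPath x q l r
  | [], _, h => h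
  | _ :: l, _, h => ⟨h.1, rename_path P φ x r l _ h.2⟩

/-- The program with small space. -/
theorem small_space (hD : 0 < D) (hk : 0 < k) (g0 : Word D ρ) (i0 : Fin D) :
    ∃ P : DBP (Var D ρ h k) k, P.size = Fintype.card (Node D h) * (k ^ D) ^ (h + 1) ∧
      ∀ x, ∃ m, m ≤ (h + 1) * D ^ (ρ + 1) * D ∧
        P.Run x (cnt D h) m (bit (value x h le_rfl g0 i0)) := by
  classical
  refine ⟨rename (fast D k h hD hk) (sub g0 i0), ?_, ?_⟩
  · exact TS.fast_size D k h hD hk
  · intro x
    obtain ⟨l, h1, h2, h3⟩ := fast_runQ hD hk (fun w => x (sub g0 i0 w))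
    have hv : TS.rootValue (fun w => x (sub g0 i0 w)) = value x h le_rfl g0 i0 := by
      unfold TS.rootValue
      exact value_sub g0 i0 x h [] (by simp)
    rw [hv] at h1
    refine ⟨_, ?_, l, rename_path _ _ x _ l _ h1, h2, rfl⟩
    set Y := sys D ρ h k with hY
    have hsub : (((rename (fast D k h hD hk) (sub g0 i0)).start :: l).map
        (rename (fast D k h hD hk) (sub g0 i0)).query).toFinset ⊆
        (univ : Finset ((Fin (h + 1) × Word D ρ) × Fin D)).image (fun v => Y.pos (valF x) v) := by
      intro w hw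
      rw [List.mem_toFinset, List.mem_map] at hw
      obtain ⟨q, hq, rfl⟩ := hw
      have h4 : (fast D k h hD hk).query q = TS.pos (TS.valF (fun w => x (sub g0 i0 w))) q.1 :=
        h3 q hq
      rw [mem_image]
      refine ⟨((hgt h q.1.1.length, (lab g0 i0 q.1.1).1), (lab g0 i0 q.1.1).2), mem_univ _, ?_⟩
      change _ = sub g0 i0 ((fast D k h hD hk).query q)
      rw [h4]
      have h5 := q.1.2
      unfold TS.pos
      by_cases hlt : q.1.1.length < h
      · rw [dif_pos hlt]
        simp only [hY, sys, hgt, sub]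
        rw [dif_neg (by omega)]
        congr 3
        refine Prod.ext rfl ?_
        funext s
        simp only [valF]
        have h6 := value_sub g0 i0 x (h - q.1.1.length - 1) (s :: q.1.1)
          (by rw [List.length_cons]; omega)
        have h7 : (kid q.1 s).1 = s :: q.1.1 := kid_val hlt s
        have h8 : TS.valF (fun w => x (sub g0 i0 w)) (kid q.1 s) =
            TS.value (fun w => x (sub g0 i0 w)) (s :: q.1.1)
              (by rw [List.length_cons]; omega) :=
          TS.value_congr _ h7 _ _
        exact (h8.trans h6).symm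
      · rw [dif_neg hlt]
        simp only [hY, sys, hgt, sub]
        rw [dif_pos (by omega)]
    refine (card_le_card hsub).trans (card_image_le.trans ?_)
    rw [card_univ, Fintype.card_prod, Fintype.card_prod, Fintype.card_fun, Fintype.card_fin,
      Fintype.card_fin, Fintype.card_fin]

end Sub

section Seq

variable {D ρ h k : ℕ}

/-- The number of the labels. -/
theorem card_lab (D ρ : ℕ) : Fintype.card (Word D ρ × Fin D) = D ^ (ρ + 1) * D := by
  rw [Fintype.card_prod, Fintype.card_fun, Fintype.card_fin, Fintype.card_fin]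

/-- An enumeration of the labels. -/
noncomputable def labEquiv (D ρ : ℕ) : Word D ρ × Fin D ≃ Fin (D ^ (ρ + 1) * D) :=
  Fintype.equivFinOfCardEq (card_lab D ρ)

/-- The enumeration of the nodes by increasing height. -/
noncomputable def nodeAt (t : Fin ((h + 1) * (D ^ (ρ + 1) * D))) :
    (Fin (h + 1) × Word D ρ) × Fin D :=
  ((((finProdFinEquiv.symm t).1, ((labEquiv D ρ).symm (finProdFinEquiv.symm t).2).1)),
    ((labEquiv D ρ).symm (finProdFinEquiv.symm t).2).2)

/-- The place of a node in the enumeration. -/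
noncomputable def idx (v : (Fin (h + 1) × Word D ρ) × Fin D) :
    Fin ((h + 1) * (D ^ (ρ + 1) * D)) :=
  finProdFinEquiv (v.1.1, labEquiv D ρ (v.1.2, v.2))

theorem nodeAt_idx (v : (Fin (h + 1) × Word D ρ) × Fin D) : nodeAt (idx v) = v := by
  unfold nodeAt idx
  simp

theorem idx_nodeAt (t : Fin ((h + 1) * (D ^ (ρ + 1) * D))) : idx (nodeAt t) = t := by
  unfold nodeAt idx
  simp only [Prod.mk.eta, Equiv.apply_symm_apply]

theorem idx_lt {v v' : (Fin (h + 1) × Word D ρ) × Fin D} (hv : v.1.1.val < v'.1.1.val) :
    (idx v).val < (idx v').val := by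
  unfold idx
  simp only [finProdFinEquiv_apply_val]
  have h1 := (labEquiv D ρ (v.1.2, v.2)).2
  have h2 : D ^ (ρ + 1) * D * (v.1.1.val + 1) ≤ D ^ (ρ + 1) * D * v'.1.1.val :=
    Nat.mul_le_mul_left _ hv
  have h3 : D ^ (ρ + 1) * D * (v.1.1.val + 1) = D ^ (ρ + 1) * D * v.1.1.val + D ^ (ρ + 1) * D := by
    ring
  omega

/-- The sequential program: it evaluates all nodes by increasing height. -/
noncomputable def seqp (D ρ h k : ℕ) (hN : 0 < (h + 1) * (D ^ (ρ + 1) * D)) (hk : 0 < k)
    (g0 : Word D ρ) (i0 : Fin D) : DBP (Var D ρ h k) k where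
  State := Fin ((h + 1) * (D ^ (ρ + 1) * D)) × (Fin ((h + 1) * (D ^ (ρ + 1) * D)) → Fin k)
  start := (⟨0, hN⟩, fun _ => ⟨0, hk⟩)
  query := fun q => (sys D ρ h k).pos (fun v => q.2 (idx v)) (nodeAt q.1)
  next := fun q c =>
    if hlt : q.1.val + 1 < (h + 1) * (D ^ (ρ + 1) * D) then
      Sum.inl (⟨q.1.val + 1, hlt⟩, Function.update q.2 q.1 c)
    else Sum.inr (bit (Function.update q.2 q.1 c (idx ((hgt h 0, g0), i0))))

theorem seqp_size (D ρ h k : ℕ) (hN : 0 < (h + 1) * (D ^ (ρ + 1) * D)) (hk : 0 < k)
    (g0 : Word D ρ) (i0 : Fin D) : (seqp D ρ h k hN hk g0 i0).size =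
      ((h + 1) * (D ^ (ρ + 1) * D)) * k ^ ((h + 1) * (D ^ (ρ + 1) * D)) := by
  unfold DBP.size
  change Fintype.card (Fin ((h + 1) * (D ^ (ρ + 1) * D)) ×
    (Fin ((h + 1) * (D ^ (ρ + 1) * D)) → Fin k)) = _
  rw [Fintype.card_prod, Fintype.card_fun, Fintype.card_fin, Fintype.card_fin]

theorem seqp_query (hN : 0 < (h + 1) * (D ^ (ρ + 1) * D)) (hk : 0 < k)
    (g0 : Word D ρ) (i0 : Fin D) (x : Input D ρ h k) (t : Fin ((h + 1) * (D ^ (ρ + 1) * D)))
    (z : Fin ((h + 1) * (D ^ (ρ + 1) * D)) → Fin k)
    (hz : ∀ t' : Fin ((h + 1) * (D ^ (ρ + 1) * D)), t'.val < t.val → z t' = valF x (nodeAt t')) :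
    x ((seqp D ρ h k hN hk g0 i0).query (t, z)) = valF x (nodeAt t) := by
  rw [valF_eq]
  congr 1
  change (sys D ρ h k).pos (fun v => z (idx v)) (nodeAt t) = _
  rw [(sys D ρ h k).pos_eq_iff]
  intro hpos s
  have h1 := (sys D ρ h k).cg_lt (nodeAt t) hpos
  have h2 : (idx ((sys D ρ h k).cg (nodeAt t), s)).val < t.val := by
    conv_rhs => rw [← idx_nodeAt t]
    exact idx_lt h1
  rw [hz _ h2, nodeAt_idx]

theorem seqp_path (hN : 0 < (h + 1) * (D ^ (ρ + 1) * D)) (hk : 0 < k)
    (g0 : Word D ρ) (i0 : Fin D) (x : Input D ρ h k) : ∀ (r : ℕ)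
    (t : Fin ((h + 1) * (D ^ (ρ + 1) * D))), t.val + r + 1 = (h + 1) * (D ^ (ρ + 1) * D) →
    ∀ z : Fin ((h + 1) * (D ^ (ρ + 1) * D)) → Fin k,
    (∀ t' : Fin ((h + 1) * (D ^ (ρ + 1) * D)), t'.val < t.val → z t' = valF x (nodeAt t')) →
    ∃ l : List (seqp D ρ h k hN hk g0 i0).State, l.length = r ∧
      (seqp D ρ h k hN hk g0 i0).IsPath x (t, z) l (bit (value x h le_rfl g0 i0))
  | 0, t, ht, z, hz => by
    refine ⟨[], rfl, ?_⟩
    change (seqp D ρ h k hN hk g0 i0).next (t, z) (x ((seqp D ρ h k hN hk g0 i0).query (t, z))) = _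
    rw [seqp_query hN hk g0 i0 x t z hz]
    simp only [seqp]
    rw [dif_neg (by omega)]
    congr 2
    have hroot : value x h le_rfl g0 i0 = valF x ((hgt h 0, g0), i0) := rfl
    rw [hroot]
    by_cases h1 : idx ((hgt h 0, g0), i0) = t
    · rw [h1, Function.update_self, ← h1, nodeAt_idx]
    · rw [Function.update_of_ne h1, hz, nodeAt_idx]
      have h2 := (idx ((hgt h 0, g0), i0) : Fin ((h + 1) * (D ^ (ρ + 1) * D))).2
      have h3 : (idx ((hgt h 0, g0), i0)).val ≠ t.val := fun h4 => h1 (Fin.ext h4)
      omega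
  | r + 1, t, ht, z, hz => by
    have hlt : t.val + 1 < (h + 1) * (D ^ (ρ + 1) * D) := by omega
    obtain ⟨l, hl, hp⟩ := seqp_path hN hk g0 i0 x r ⟨t.val + 1, hlt⟩ (by simp only; omega)
      (Function.update z t (valF x (nodeAt t))) (by
        intro t' ht'
        simp only at ht'
        by_cases h1 : t' = t
        · rw [h1, Function.update_self]
        · rw [Function.update_of_ne h1]
          apply hz
          have h3 : t'.val ≠ t.val := fun h4 => h1 (Fin.ext h4)
          omega)
    refine ⟨(⟨t.val + 1, hlt⟩, Function.update z t (valF x (nodeAt t))) :: l, ?_, ?_, hp⟩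
    · rw [List.length_cons, hl]
    · rw [seqp_query hN hk g0 i0 x t z hz]
      simp only [seqp]
      rw [dif_pos hlt]

/-- The program with small time. -/
theorem small_time (hD : 0 < D) (hk : 0 < k) (g0 : Word D ρ) (i0 : Fin D) :
    ∃ P : DBP (Var D ρ h k) k,
      P.size = ((h + 1) * (D ^ (ρ + 1) * D)) * k ^ ((h + 1) * (D ^ (ρ + 1) * D)) ∧
      ∀ x, ∃ m, P.Run x ((h + 1) * (D ^ (ρ + 1) * D)) m (bit (value x h le_rfl g0 i0)) := by
  classical
  have hN : 0 < (h + 1) * (D ^ (ρ + 1) * D) := by positivity
  refine ⟨seqp D ρ h k hN hk g0 i0, seqp_size D ρ h k hN hk g0 i0, ?_⟩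
  intro x
  obtain ⟨l, hl, hp⟩ := seqp_path hN hk g0 i0 x ((h + 1) * (D ^ (ρ + 1) * D) - 1) ⟨0, hN⟩
    (by simp only; omega) (fun _ => ⟨0, hk⟩) (fun t' ht' => absurd ht' (Nat.not_lt_zero _))
  exact ⟨_, l, hp, by rw [List.length_cons, hl]; omega, rfl⟩

end Seq

end Pool.Agent.W997.DB
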