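import Pool.Agent.W997.TS.Asym
import Pool.Agent.W997.DB.Main
import Pool.Agent.W997.DB.Upper
import Pool.Agent.W997.DB.Circuit

/-!
# Choice of the parameters
-/

set_option autoImplicit false

namespace Pool.Agent.W997.DB

open Finset
open Pool.Agent.W997.TS (DBP bit Node cnt)

theorem card_var (D ρ h k : ℕ) : Fintype.card (Var D ρ h k) =
    h * (D ^ (ρ + 1) * (D * k ^ D)) + D ^ (ρ + 1) * D := by
  simp only [Fintype.card_sum, Fintype.card_prod, Fintype.card_fun, Fintype.card_fin]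

section Nat

variable {b p h : ℕ}

theorem nodes_le (hb : 4 ≤ b) (hp : 6 ≤ p) (hh : h + 1 ≤ b ^ (2 * p)) :
    (h + 1) * ((b ^ 3) ^ (2 * p + 1) * b ^ 3) ≤ b ^ (9 * p) := by
  calc (h + 1) * ((b ^ 3) ^ (2 * p + 1) * b ^ 3)
      ≤ b ^ (2 * p) * ((b ^ 3) ^ (2 * p + 1) * b ^ 3) := Nat.mul_le_mul_right _ hh
    _ = b ^ (8 * p + 6) := by rw [← pow_mul, ← pow_add, ← pow_add]; congr 1; ring
    _ ≤ b ^ (9 * p) := Nat.pow_le_pow_right (by omega) (by omega)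

theorem N_le {D : ℕ} (hD : D = b ^ 3) (hb : 4 ≤ b) (hp : 6 ≤ p) (hh : h + 1 ≤ b ^ (2 * p)) :
    Fintype.card (Var D (2 * p) h (b ^ (21 * p))) ≤ b ^ ((21 * b ^ 3 + 9) * p) := by
  rw [card_var, hD]
  have hk : 1 ≤ (b ^ (21 * p)) ^ b ^ 3 := Nat.one_le_pow _ _ (by positivity)
  set Q := (b ^ 3) ^ (2 * p + 1) * b ^ 3 with hQ
  set k := (b ^ (21 * p)) ^ b ^ 3 with hkdef
  calc h * ((b ^ 3) ^ (2 * p + 1) * (b ^ 3 * k)) + Q
      = h * (Q * k) + Q * 1 := by rw [hQ]; ring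
    _ ≤ h * (Q * k) + Q * k := by
        apply Nat.add_le_add_left
        exact Nat.mul_le_mul_left _ hk
    _ = (h + 1) * Q * k := by ring
    _ ≤ b ^ (9 * p) * k := Nat.mul_le_mul_right _ (nodes_le hb hp hh)
    _ = b ^ ((21 * b ^ 3 + 9) * p) := by
        rw [hkdef, ← pow_mul, ← pow_add]
        congr 1
        ring

theorem le_N (hh : 1 ≤ h) (D ρ k : ℕ) (hD : 1 ≤ D) :
    h * (D ^ (ρ + 1) * D * k ^ D) ≤ Fintype.card (Var D ρ h k) ∧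
      D * k ^ D ≤ Fintype.card (Var D ρ h k) := by
  rw [card_var]
  have h1 : h * (D ^ (ρ + 1) * D * k ^ D) = h * (D ^ (ρ + 1) * (D * k ^ D)) := by ring
  have h2 : 1 ≤ D ^ (ρ + 1) := Nat.one_le_pow _ _ hD
  have h3 : D * k ^ D ≤ h * (D ^ (ρ + 1) * (D * k ^ D)) := by
    calc D * k ^ D = 1 * (1 * (D * k ^ D)) := by ring
      _ ≤ h * (D ^ (ρ + 1) * (D * k ^ D)) :=
        Nat.mul_le_mul hh (Nat.mul_le_mul_right _ h2)
  constructor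
  · rw [h1]
    exact Nat.le_add_right _ _
  · exact h3.trans (Nat.le_add_right _ _)

theorem pow_le_N {D : ℕ} (hD : D = b ^ 3) (hb : 4 ≤ b) (hh : 1 ≤ h) :
    b ^ (21 * b ^ 3 * p) ≤ Fintype.card (Var D (2 * p) h (b ^ (21 * p))) := by
  have hD1 : 1 ≤ D := hD ▸ Nat.one_le_pow _ _ (by omega)
  have h1 := (le_N hh D (2 * p) (b ^ (21 * p)) hD1).2
  refine le_trans ?_ h1
  rw [hD]
  calc b ^ (21 * b ^ 3 * p) = 1 * (b ^ (21 * p)) ^ b ^ 3 := by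
        rw [one_mul, ← pow_mul]; congr 1; ring
    _ ≤ b ^ 3 * (b ^ (21 * p)) ^ b ^ 3 :=
        Nat.mul_le_mul_right _ (Nat.one_le_pow _ _ (by omega))

theorem e_bound (hb : 4 ≤ b) : 13 ≤ 21 * (b ^ 3 + 1 - b ^ 2) := by
  have : b ^ 2 * 4 ≤ b ^ 3 := by
    calc b ^ 2 * 4 ≤ b ^ 2 * b := Nat.mul_le_mul_left _ hb
      _ = b ^ 3 := by ring
  omega

theorem fail_num (hb : 4 ≤ b) (hp : 6 ≤ p) (hh : h + 1 ≤ b ^ (2 * p))
    (hP : 2 ^ (b ^ 3) * b ^ 3 * b ^ 3 ≤ b ^ p) :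
    ((h + 1) * (b ^ 3) ^ (2 * p + 1)) * 2 ^ (b ^ 3) * b ^ 3 *
      b ^ ((21 * (b ^ 3 + 1 - b ^ 2) - 11) * p) ≤
      b ^ ((21 * (b ^ 3 + 1 - b ^ 2) - 2) * p) := by
  have he := e_bound hb
  set e := b ^ 3 + 1 - b ^ 2
  calc ((h + 1) * (b ^ 3) ^ (2 * p + 1)) * 2 ^ (b ^ 3) * b ^ 3 * b ^ ((21 * e - 11) * p)
      ≤ (b ^ (2 * p) * (b ^ 3) ^ (2 * p + 1)) * 2 ^ (b ^ 3) * b ^ 3 * b ^ ((21 * e - 11) * p) := by
        gcongr
    _ = b ^ (8 * p) * (2 ^ (b ^ 3) * b ^ 3 * b ^ 3) * b ^ ((21 * e - 11) * p) := by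
        have : (b ^ 3) ^ (2 * p + 1) = b ^ (6 * p) * b ^ 3 := by
          rw [← pow_mul, ← pow_add]; congr 1; ring
        rw [this]
        have : b ^ (8 * p) = b ^ (2 * p) * b ^ (6 * p) := by rw [← pow_add]; congr 1; ring
        rw [this]
        ring
    _ ≤ b ^ (8 * p) * b ^ p * b ^ ((21 * e - 11) * p) := by gcongr
    _ = b ^ ((21 * e - 2) * p) := by
        rw [← pow_add, ← pow_add]
        congr 1
        obtain ⟨x, hx⟩ : ∃ x, 21 * e = x + 13 := ⟨21 * e - 13, by omega⟩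
        rw [hx]
        have e1 : x + 13 - 11 = x + 2 := by omega
        have e2 : x + 13 - 2 = x + 11 := by omega
        rw [e1, e2]
        ring

end Nat

section Real

theorem fail_ratio {b p h : ℕ} (hb : 4 ≤ b) (hp : 6 ≤ p) (hh : h + 1 ≤ b ^ (2 * p))
    (hP : 2 ^ (b ^ 3) * b ^ 3 * b ^ 3 ≤ b ^ p) :
    ((((h + 1) * (b ^ 3) ^ (2 * p + 1)) * 2 ^ (b ^ 3) * b ^ 3 *
      b ^ ((21 * (b ^ 3 + 1 - b ^ 2) - 11) * p) : ℕ) : ℝ) /
      (((b ^ (21 * p) : ℕ) : ℝ)) ^ (b ^ 3 + 1 - b ^ 2) ≤ 1 / ((b : ℝ) ^ p) ^ 2 := by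
  have he := e_bound hb
  have h1 := fail_num hb hp hh hP
  set e := b ^ 3 + 1 - b ^ 2
  have hb0 : (0 : ℝ) < b := by
    have : 0 < b := by omega
    exact_mod_cast this
  rw [div_le_div_iff₀ (by positivity) (by positivity), one_mul]
  have h2 : (((h + 1) * (b ^ 3) ^ (2 * p + 1)) * 2 ^ (b ^ 3) * b ^ 3 *
      b ^ ((21 * e - 11) * p)) * (b ^ p) ^ 2 ≤ (b ^ (21 * p)) ^ e := by
    refine (Nat.mul_le_mul_right _ h1).trans ?_
    rw [← pow_mul, ← pow_add, ← pow_mul]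
    apply Nat.pow_le_pow_right (by omega)
    obtain ⟨x, hx⟩ : ∃ x, 21 * e = x + 13 := ⟨21 * e - 13, by omega⟩
    have e1 : 21 * p * e = (21 * e) * p := by ring
    rw [e1, hx]
    have e2 : x + 13 - 2 = x + 11 := by omega
    rw [e2]
    nlinarith
  exact_mod_cast h2

theorem fail_sum (B : ℝ) (hB : 2 ≤ B) (F S : ℝ) (hF0 : 0 ≤ F) (hF : F ≤ 1 / B ^ 2) (m : ℕ)
    (hm : 1 ≤ m) (hS0 : 0 ≤ S) (hS : 2 * S ≤ B ^ m) : F + S * F ^ m ≤ 1 / B := by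
  have hB0 : 0 < B := by linarith
  have h1 : F ^ m ≤ (1 / B ^ 2) ^ m := pow_le_pow_left₀ hF0 hF m
  have h2 : S * F ^ m ≤ (B ^ m / 2) * (1 / B ^ 2) ^ m :=
    mul_le_mul (by linarith) h1 (by positivity) (by positivity)
  have h3 : (B ^ m / 2) * (1 / B ^ 2) ^ m = 1 / (2 * B ^ m) := by
    rw [div_pow, one_pow, ← pow_mul, Nat.mul_comm 2 m, pow_mul]
    have : B ^ m ≠ 0 := by positivity
    field_simp
  have h4 : 1 / (2 * B ^ m) ≤ 1 / (2 * B) := by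
    apply one_div_le_one_div_of_le (by positivity)
    have : B ^ 1 ≤ B ^ m := pow_le_pow_right₀ (by linarith) hm
    linarith
  have h5 : 1 / B ^ 2 ≤ 1 / (2 * B) := by
    apply one_div_le_one_div_of_le (by positivity)
    nlinarith
  have h6 : 1 / (2 * B) + 1 / (2 * B) = 1 / B := by
    field_simp
    norm_num
  linarith

theorem N_pow {b p h D : ℕ} (hD : D = b ^ 3) (hb : 4 ≤ b) (hp : 6 ≤ p) (hh : h + 1 ≤ b ^ (2 * p)) (hh1 : 1 ≤ h)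
    (δ : ℝ) (hδ : 2 ≤ δ * b) (hδ0 : 0 < δ) :
    (Fintype.card (Var D (2 * p) h (b ^ (21 * p))) : ℝ) ^ (1 - δ) ≤
      (b : ℝ) ^ ((21 * (b ^ 3 + 1 - b ^ 2) - 13) * p) := by
  have hNn := N_le hD hb hp hh
  have hNn' := pow_le_N (p := p) hD hb hh1
  have he := e_bound hb
  set N := Fintype.card (Var D (2 * p) h (b ^ (21 * p)))
  set e := b ^ 3 + 1 - b ^ 2 with hedef
  have hb1 : (1 : ℝ) ≤ b := by
    have : 1 ≤ b := by omega
    exact_mod_cast this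
  have hb0 : (0 : ℝ) < b := by linarith
  have hN1 : (1 : ℝ) ≤ N := by
    have : 1 ≤ N := le_trans (Nat.one_le_pow _ _ (by omega)) hNn'
    exact_mod_cast this
  by_cases hd : 1 ≤ δ
  · have h1 : (N : ℝ) ^ (1 - δ) ≤ 1 := Real.rpow_le_one_of_one_le_of_nonpos hN1 (by linarith)
    exact h1.trans (one_le_pow₀ hb1)
  · push Not at hd
    have h1 : (N : ℝ) ≤ (b : ℝ) ^ ((21 * b ^ 3 + 9) * p) := by exact_mod_cast hNn
    have h2 : (N : ℝ) ^ (1 - δ) ≤ ((b : ℝ) ^ ((21 * b ^ 3 + 9) * p)) ^ (1 - δ) :=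
      Real.rpow_le_rpow (by linarith) h1 (by linarith)
    refine h2.trans ?_
    rw [← Real.rpow_natCast, ← Real.rpow_natCast, ← Real.rpow_mul hb0.le]
    apply Real.rpow_le_rpow_of_exponent_le hb1
    have hp0 : (0 : ℝ) ≤ p := by positivity
    have hle : b ^ 2 ≤ b ^ 3 + 1 := by
      have : b ^ 2 ≤ b ^ 3 := Nat.pow_le_pow_right (by omega) (by omega)
      omega
    have h3 : ((21 * e - 13 : ℕ) : ℝ) = 21 * ((b : ℝ) ^ 3 + 1 - (b : ℝ) ^ 2) - 13 := by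
      rw [Nat.cast_sub he, hedef, Nat.cast_mul, Nat.cast_sub hle]
      push_cast
      ring
    have h4 : ((21 * b ^ 3 + 9) * (1 - δ) : ℝ) ≤ 21 * ((b : ℝ) ^ 3 + 1 - (b : ℝ) ^ 2) - 13 := by
      have h5 : 2 * (b : ℝ) ^ 2 ≤ δ * (b : ℝ) ^ 3 := by
        calc 2 * (b : ℝ) ^ 2 ≤ (δ * b) * (b : ℝ) ^ 2 :=
              mul_le_mul_of_nonneg_right hδ (by positivity)
          _ = δ * (b : ℝ) ^ 3 := by ring
      have h6 : (1 : ℝ) ≤ (b : ℝ) ^ 2 := one_le_pow₀ hb1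
      nlinarith
    rw [Nat.cast_mul, Nat.cast_mul, h3]
    push_cast
    calc ((21 * (b : ℝ) ^ 3 + 9) * p) * (1 - δ) = ((21 * (b : ℝ) ^ 3 + 9) * (1 - δ)) * p := by ring
      _ ≤ (21 * ((b : ℝ) ^ 3 + 1 - (b : ℝ) ^ 2) - 13) * p :=
          mul_le_mul_of_nonneg_right h4 hp0

/-- The number of variables is large. -/
theorem reads {b p h D : ℕ} (hD : D = b ^ 3) (hb : 4 ≤ b) (hp : 6 ≤ p) (hh : h + 1 ≤ b ^ (2 * p)) (hh1 : 1 ≤ h)
    (δ : ℝ) (hδ : 2 ≤ δ * b) (hδ0 : 0 < δ) :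
    (Fintype.card (Var D (2 * p) h (b ^ (21 * p))) : ℝ) ^ (1 - δ) ≤
      1 / (b : ℝ) ^ p / 2 * ((b ^ ((21 * (b ^ 3 + 1 - b ^ 2) - 11) * p) : ℕ) + 1) := by
  refine (N_pow hD hb hp hh hh1 δ hδ hδ0).trans ?_
  have he := e_bound hb
  set e := b ^ 3 + 1 - b ^ 2
  have hb4 : (4 : ℝ) ≤ b := by exact_mod_cast hb
  have hb0 : (0 : ℝ) < b := by linarith
  obtain ⟨x, hx⟩ : ∃ x, 21 * e = x + 13 := ⟨21 * e - 13, by omega⟩
  rw [hx]
  have e1 : x + 13 - 13 = x := by omega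
  have e2 : x + 13 - 11 = x + 2 := by omega
  rw [e1, e2]
  push_cast
  have h1 : (b : ℝ) ^ ((x + 2) * p) = (b : ℝ) ^ (x * p) * (b : ℝ) ^ p * (b : ℝ) ^ p := by
    rw [← pow_add, ← pow_add]; congr 1; ring
  have h2 : (2 : ℝ) ≤ (b : ℝ) ^ p := by
    calc (2 : ℝ) ≤ (b : ℝ) ^ 1 := by rw [pow_one]; linarith
      _ ≤ (b : ℝ) ^ p := pow_le_pow_right₀ (by linarith) (by omega)
  rw [h1]
  have h3 : (0 : ℝ) < (b : ℝ) ^ p := by positivity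
  have h4 : (0 : ℝ) < (b : ℝ) ^ (x * p) := by positivity
  rw [div_div, div_mul_eq_mul_div, le_div_iff₀ (by positivity), one_mul]
  nlinarith [mul_pos h4 h3]

end Real

end Pool.Agent.W997.DB
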