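import Pool.Agent.W997.DB.Asym

/-!
# The asymptotic statements
-/

set_option autoImplicit false

namespace Pool.Agent.W997.DB

open Finset
open Pool.Agent.W997.TS (DBP bit Node cnt)

theorem card_node_le' {D h : ℕ} (hD : 2 ≤ D) : Fintype.card (Node D h) ≤ D ^ (h + 1) := by
  have h1 := TS.card_inner_le (n := h + 1) hD
  have h2 : Fintype.card (Node D h) = Fintype.card {v : List (Fin D) // v.length < h + 1} :=
    Fintype.card_congr (Equiv.subtypeEquivRight fun v => Nat.lt_succ_iff.symm)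
  omega

/-- All parameters of the construction. -/
structure Par (β p h ℓ N : ℕ) (δ : ℝ) (D : ℕ) : Prop where
  hD : D = (2 ^ β) ^ 3
  hβ : 2 ≤ β
  hδ : 2 ≤ δ * ((2 ^ β : ℕ) : ℝ)
  hδ0 : 0 < δ
  hp : 6 ≤ p
  hP : 2 ^ ((2 ^ β) ^ 3) * (2 ^ β) ^ 3 * (2 ^ β) ^ 3 ≤ (2 ^ β) ^ p
  hℓ : ℓ = 21 * β * p
  hℓb : ℓ + 1 ≤ (2 ^ β) ^ p
  h1 : 1 ≤ h
  hh : h + 1 ≤ (2 ^ β) ^ (2 * p)
  hN : N = Fintype.card (Var D (2 * p) h (2 ^ ℓ))

namespace Par

variable {β p h ℓ N D : ℕ} {δ : ℝ}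

theorem hb (H : Par β p h ℓ N δ D) : 4 ≤ 2 ^ β := by
  calc 4 = 2 ^ 2 := by norm_num
    _ ≤ 2 ^ β := Nat.pow_le_pow_right (by norm_num) H.hβ

theorem hk (H : Par β p h ℓ N δ D) : 2 ^ ℓ = (2 ^ β) ^ (21 * p) := by
  rw [H.hℓ, ← pow_mul]
  congr 1
  ring

theorem hN' (H : Par β p h ℓ N δ D) :
    N = Fintype.card (Var D (2 * p) h ((2 ^ β) ^ (21 * p))) := by
  have := H.hN
  rw [H.hk] at this
  exact this

theorem N_le (H : Par β p h ℓ N δ D) : N ≤ (2 ^ β) ^ ((21 * (2 ^ β) ^ 3 + 9) * p) := by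
  rw [H.hN']
  exact DB.N_le H.hD H.hb H.hp H.hh

theorem le_N (H : Par β p h ℓ N δ D) : (2 ^ β) ^ (21 * (2 ^ β) ^ 3 * p) ≤ N := by
  rw [H.hN']
  exact pow_le_N H.hD H.hb H.h1

theorem one_le_N (H : Par β p h ℓ N δ D) : 1 ≤ N :=
  le_trans (Nat.one_le_pow _ _ (by positivity)) H.le_N

theorem hNc (H : Par β p h ℓ N δ D) :
    (N : ℝ) ^ (1 / (4 * (β : ℝ) * (21 * ((2 ^ β : ℕ) : ℝ) ^ 3 + 9))) ≤ (2 : ℝ) ^ ((p : ℝ) / 4) := by
  have h1 : (N : ℝ) ≤ (2 : ℝ) ^ (β * ((21 * (2 ^ β) ^ 3 + 9) * p)) := by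
    have := H.N_le
    rw [← pow_mul] at this
    exact_mod_cast this
  have hβ0 : (0 : ℝ) < β := by
    have := H.hβ
    have : 0 < β := by omega
    exact_mod_cast this
  refine (Real.rpow_le_rpow (by positivity) h1 (by positivity)).trans ?_
  rw [← Real.rpow_natCast, ← Real.rpow_mul (by norm_num)]
  apply le_of_eq
  congr 1
  push_cast
  field_simp

theorem ge_pow (H : Par β p h ℓ N δ D) : ((2 : ℝ) ^ β) ^ (10 * p) ≤ (N : ℝ) ^ δ := by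
  have h1 : ((2 : ℝ) ^ β) ^ (21 * (2 ^ β) ^ 3 * p) ≤ N := by exact_mod_cast H.le_N
  have hb4 : (4 : ℝ) ≤ (2 : ℝ) ^ β := by exact_mod_cast H.hb
  set b : ℝ := (2 : ℝ) ^ β with hbdef
  have hb1 : (1 : ℝ) ≤ b := by linarith
  have hδ : 2 ≤ δ * b := by
    have := H.hδ
    push_cast at this
    exact this
  have h2 : (b ^ (21 * (2 ^ β) ^ 3 * p)) ^ δ ≤ (N : ℝ) ^ δ :=
    Real.rpow_le_rpow (by positivity) h1 H.hδ0.le
  refine le_trans ?_ h2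
  rw [← Real.rpow_natCast b (21 * (2 ^ β) ^ 3 * p), ← Real.rpow_mul (by positivity),
    ← Real.rpow_natCast b (10 * p)]
  apply Real.rpow_le_rpow_of_exponent_le hb1
  push_cast
  rw [← hbdef]
  have hp0 : (0 : ℝ) ≤ p := by positivity
  have h3 : (10 : ℝ) ≤ 21 * b ^ 3 * δ := by
    have h4 : 2 * b ^ 2 ≤ (δ * b) * b ^ 2 := mul_le_mul_of_nonneg_right hδ (by positivity)
    nlinarith
  calc (10 : ℝ) * p ≤ (21 * b ^ 3 * δ) * p := mul_le_mul_of_nonneg_right h3 hp0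
    _ = 21 * b ^ 3 * p * δ := by ring

theorem two_pow_le_N (H : Par β p h ℓ N δ D) : 2 ^ ((2 ^ β) ^ 3 * ℓ) ≤ N := by
  refine le_trans ?_ H.le_N
  rw [← pow_mul 2 β (21 * (2 ^ β) ^ 3 * p), H.hℓ]
  apply Nat.pow_le_pow_right (by norm_num)
  apply le_of_eq
  ring

theorem log_N (H : Par β p h ℓ N δ D) : ((2 ^ β : ℕ) : ℝ) ^ 3 * ℓ * Real.log 2 ≤ Real.log N := by
  have h1 : ((2 : ℝ) ^ ((2 ^ β) ^ 3 * ℓ)) ≤ N := by exact_mod_cast H.two_pow_le_N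
  have h2 := Real.log_le_log (by positivity) h1
  rw [Real.log_pow] at h2
  push_cast at h2 ⊢
  exact h2

/-- The circuits. -/
theorem circuits (H : Par β p h ℓ N δ D) (g : Word D (2 * p)) (i : Fin D) :
    ∃ C : Circuit (Var D (2 * p) h (2 ^ ℓ) × Fin ℓ), C.size ≤ N ^ 2 ∧
      (C.depth : ℝ) ≤ 5 * h * Real.log N ∧
      ∀ x, C.Outputs (bits x) (bit (value x h le_rfl g i)) := by
  have hD := H.hD
  subst hD
  have hℓ0 : 0 < ℓ := by
    rw [H.hℓ]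
    have := H.hβ
    have := H.hp
    positivity
  refine ⟨circ ((2 ^ β) ^ 3) (2 * p) h ℓ hℓ0 g i, ?_, ?_, circ_outputs hℓ0 g i⟩
  · rw [circ_size]
    have hb := H.hb
    have hlb := H.hℓb
    have hleN := H.le_N
    have hp := H.hp
    have hN1 := (DB.le_N H.h1 ((2 ^ β) ^ 3) (2 * p) (2 ^ ℓ) (Nat.one_le_pow _ _ (by omega))).1
    rw [← H.hN] at hN1
    have hh1 := H.h1
    set b := 2 ^ β with hbdef
    have e1 : (2 ^ ℓ) ^ b ^ 3 = 2 ^ (b ^ 3 * ℓ) := by rw [← pow_mul]; congr 1; ring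
    rw [e1] at hN1
    have h2 : 8 * (ℓ * (b ^ 3 * ℓ + 1)) ≤ N := by
      have h3 : b ^ 3 * ℓ + 1 ≤ b ^ 3 * b ^ p := by
        calc b ^ 3 * ℓ + 1 ≤ b ^ 3 * ℓ + b ^ 3 * 1 := by
              apply Nat.add_le_add_left
              rw [mul_one]
              exact Nat.one_le_pow _ _ (by omega)
          _ = b ^ 3 * (ℓ + 1) := by ring
          _ ≤ b ^ 3 * b ^ p := Nat.mul_le_mul_left _ hlb
      calc 8 * (ℓ * (b ^ 3 * ℓ + 1)) ≤ b ^ 2 * (b ^ p * (b ^ 3 * b ^ p)) := by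
            apply Nat.mul_le_mul
            · nlinarith
            · exact Nat.mul_le_mul (by omega) h3
        _ = b ^ (2 * p + 5) := by ring
        _ ≤ b ^ (21 * b ^ 3 * p) := by
            apply Nat.pow_le_pow_right (by omega)
            have h4 : 1 ≤ b ^ 3 := Nat.one_le_pow _ _ (by omega)
            have h5 : 21 * 1 * p ≤ 21 * b ^ 3 * p :=
              Nat.mul_le_mul_right _ (Nat.mul_le_mul_left _ h4)
            omega
        _ ≤ N := hleN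
    calc ((h + 1) * (b ^ 3) ^ (2 * p + 1) * b ^ 3) *
          (ℓ * ((b ^ 3 * ℓ + 1) * (2 ^ (b ^ 3 * ℓ) * 4)))
        ≤ ((2 * h) * (b ^ 3) ^ (2 * p + 1) * b ^ 3) *
          (ℓ * ((b ^ 3 * ℓ + 1) * (2 ^ (b ^ 3 * ℓ) * 4))) := by
          gcongr
          omega
      _ = (h * ((b ^ 3) ^ (2 * p + 1) * b ^ 3 * 2 ^ (b ^ 3 * ℓ))) *
          (8 * (ℓ * (b ^ 3 * ℓ + 1))) := by ring
      _ ≤ N * N := Nat.mul_le_mul hN1 h2
      _ = N ^ 2 := by ring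
  · have h1 := circ_depth (h := h) hℓ0 g i
    have h2 : ((circ ((2 ^ β) ^ 3) (2 * p) h ℓ hℓ0 g i).depth : ℝ) ≤
        h * (2 * (((2 ^ β : ℕ) : ℝ) ^ 3 * ℓ) + 1) + 1 := by exact_mod_cast h1
    refine h2.trans ?_
    have h3 := H.log_N
    set L : ℝ := ((2 ^ β : ℕ) : ℝ) ^ 3 * ℓ with hL
    have h4 : (2 : ℝ) ≤ L := by
      have h5 : 2 ≤ (2 ^ β) ^ 3 * ℓ := by
        have h6 : 4 * 1 ≤ (2 ^ β) ^ 3 * ℓ := by
          apply Nat.mul_le_mul _ hℓ0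
          have := H.hb
          calc 4 ≤ 2 ^ β := this
            _ = (2 ^ β) ^ 1 := (pow_one _).symm
            _ ≤ (2 ^ β) ^ 3 := Nat.pow_le_pow_right (by positivity) (by norm_num)
        omega
      rw [hL]
      exact_mod_cast h5
    have hh1 : (1 : ℝ) ≤ h := by exact_mod_cast H.h1
    have h6 := Real.log_two_gt_d9
    have h7 : L * 0.69 ≤ Real.log N := by nlinarith
    have h8 : 2 * L + 2 ≤ 5 * Real.log N := by linarith
    nlinarith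

/-- The program with small space. -/
theorem space (H : Par β p h ℓ N δ D) (g : Word D (2 * p)) (i : Fin D) :
    ∃ P : DBP (Var D (2 * p) h (2 ^ ℓ)) (2 ^ ℓ),
      Real.log P.size ≤ 2 * h * Real.log N ∧
      ∀ x, ∃ t m : ℕ, t ≤ D ^ (h + 1) ∧ (m : ℝ) ≤ (N : ℝ) ^ δ ∧
        P.Run x t m (bit (value x h le_rfl g i)) := by
  have hD := H.hD
  subst hD
  have hb := H.hb
  have hD2 : 2 ≤ (2 ^ β) ^ 3 := by
    calc 2 ≤ 2 ^ β := by omega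
      _ = (2 ^ β) ^ 1 := (pow_one _).symm
      _ ≤ (2 ^ β) ^ 3 := Nat.pow_le_pow_right (by positivity) (by norm_num)
  obtain ⟨P, h1, h2⟩ := small_space (ρ := 2 * p) (h := h) (k := 2 ^ ℓ) (by omega) (by positivity)
    g i
  refine ⟨P, ?_, ?_⟩
  · rw [h1]
    have h3 := (DB.le_N H.h1 ((2 ^ β) ^ 3) (2 * p) (2 ^ ℓ) (by omega)).2
    rw [← H.hN] at h3
    have h4 : Fintype.card (Node ((2 ^ β) ^ 3) h) * ((2 ^ ℓ) ^ (2 ^ β) ^ 3) ^ (h + 1) ≤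
        N ^ (h + 1) := by
      calc Fintype.card (Node ((2 ^ β) ^ 3) h) * ((2 ^ ℓ) ^ (2 ^ β) ^ 3) ^ (h + 1)
          ≤ ((2 ^ β) ^ 3) ^ (h + 1) * ((2 ^ ℓ) ^ (2 ^ β) ^ 3) ^ (h + 1) :=
            Nat.mul_le_mul_right _ (card_node_le' hD2)
        _ = ((2 ^ β) ^ 3 * (2 ^ ℓ) ^ (2 ^ β) ^ 3) ^ (h + 1) := by rw [← mul_pow]
        _ ≤ N ^ (h + 1) := Nat.pow_le_pow_left h3 _
    have h5 : 0 < Fintype.card (Node ((2 ^ β) ^ 3) h) :=
      Fintype.card_pos_iff.2 ⟨⟨[], Nat.zero_le _⟩⟩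
    have h6 : ((Fintype.card (Node ((2 ^ β) ^ 3) h) * ((2 ^ ℓ) ^ (2 ^ β) ^ 3) ^ (h + 1) : ℕ) : ℝ) ≤
        (N : ℝ) ^ (h + 1) := by exact_mod_cast h4
    have h7 : 0 < Fintype.card (Node ((2 ^ β) ^ 3) h) * ((2 ^ ℓ) ^ (2 ^ β) ^ 3) ^ (h + 1) := by
      positivity
    have h8 := Real.log_le_log (by exact_mod_cast h7) h6
    rw [Real.log_pow] at h8
    refine h8.trans ?_
    have h9 : 0 ≤ Real.log N := Real.log_nonneg (by exact_mod_cast H.one_le_N)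
    have h10 : (1 : ℝ) ≤ h := by exact_mod_cast H.h1
    push_cast
    nlinarith
  · intro x
    obtain ⟨m, h3, h4⟩ := h2 x
    refine ⟨_, m, ?_, ?_, h4⟩
    · have := TS.cnt_le ((2 ^ β) ^ 3) hD2 h
      omega
    · have h5 := nodes_le H.hb H.hp H.hh
      have h6 : m ≤ (2 ^ β) ^ (10 * p) := by
        calc m ≤ (h + 1) * ((2 ^ β) ^ 3) ^ (2 * p + 1) * (2 ^ β) ^ 3 := h3
          _ = (h + 1) * (((2 ^ β) ^ 3) ^ (2 * p + 1) * (2 ^ β) ^ 3) := by ring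
          _ ≤ (2 ^ β) ^ (9 * p) := h5
          _ ≤ (2 ^ β) ^ (10 * p) := Nat.pow_le_pow_right (by positivity) (by omega)
      refine le_trans ?_ H.ge_pow
      exact_mod_cast h6

/-- The program with small time. -/
theorem time (H : Par β p h ℓ N δ D) (g : Word D (2 * p)) (i : Fin D) :
    ∃ P : DBP (Var D (2 * p) h (2 ^ ℓ)) (2 ^ ℓ),
      Real.log P.size ≤ (N : ℝ) ^ δ ∧
      ∀ x, ∃ t m : ℕ, (t : ℝ) ≤ (N : ℝ) ^ δ ∧ P.Run x t m (bit (value x h le_rfl g i)) := by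
  have hD := H.hD
  subst hD
  have hb := H.hb
  obtain ⟨P, h1, h2⟩ := small_time (ρ := 2 * p) (h := h) (k := 2 ^ ℓ) (D := (2 ^ β) ^ 3)
    (by positivity) (by positivity) g i
  have h3 := nodes_le H.hb H.hp H.hh
  set n := (h + 1) * (((2 ^ β) ^ 3) ^ (2 * p + 1) * (2 ^ β) ^ 3) with hn
  have hn1 : 1 ≤ n := by
    rw [hn]
    exact Nat.one_le_iff_ne_zero.2 (by positivity)
  have h4 : n * (1 + ℓ) ≤ (2 ^ β) ^ (10 * p) := by
    calc n * (1 + ℓ) ≤ (2 ^ β) ^ (9 * p) * (2 ^ β) ^ p :=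
          Nat.mul_le_mul h3 (by have := H.hℓb; omega)
      _ = (2 ^ β) ^ (10 * p) := by rw [← pow_add]; congr 1; ring
  have h5 : (n : ℝ) * (1 + ℓ) ≤ (N : ℝ) ^ δ := by
    refine le_trans ?_ H.ge_pow
    exact_mod_cast h4
  have hn0 : (1 : ℝ) ≤ n := by exact_mod_cast hn1
  have hℓ0 : (0 : ℝ) ≤ ℓ := by positivity
  refine ⟨P, ?_, ?_⟩
  · rw [h1]
    push_cast
    rw [Real.log_mul (by positivity) (by positivity), Real.log_pow, Real.log_pow]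
    have h6 : Real.log n ≤ n := (Real.log_le_sub_one_of_pos (by linarith)).trans (by linarith)
    have h7 : Real.log 2 ≤ 1 := by
      have := Real.log_two_lt_d9
      linarith
    have h8 : (n : ℝ) * (ℓ * Real.log 2) ≤ n * ℓ := by
      apply mul_le_mul_of_nonneg_left _ (by linarith)
      nlinarith
    nlinarith
  · intro x
    obtain ⟨m, h6⟩ := h2 x
    refine ⟨_, m, ?_, h6⟩
    nlinarith

section Lower

theorem even_k (H : Par β p h ℓ N δ D) : Even (2 ^ ℓ) := by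
  have : ℓ ≠ 0 := by
    rw [H.hℓ]
    have := H.hβ
    have := H.hp
    positivity
  exact (Nat.even_pow.2 ⟨even_two, this⟩)

theorem fail (H : Par β p h ℓ N δ D) (S : ℝ) (m : ℕ) (hm : 1 ≤ m) (hS0 : 0 ≤ S)
    (hS : 2 * S ≤ (((2 ^ β : ℕ) : ℝ) ^ p) ^ m) :
    ((((h + 1) * D ^ (2 * p + 1)) * 2 ^ D * D *
      (2 ^ β) ^ ((21 * (D + 1 - (2 ^ β) ^ 2) - 11) * p) : ℕ) /
      (((2 ^ ℓ : ℕ) : ℝ)) ^ (D + 1 - (2 ^ β) ^ 2)) + S *
    ((((h + 1) * D ^ (2 * p + 1)) * 2 ^ D * D *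
      (2 ^ β) ^ ((21 * (D + 1 - (2 ^ β) ^ 2) - 11) * p) : ℕ) /
      (((2 ^ ℓ : ℕ) : ℝ)) ^ (D + 1 - (2 ^ β) ^ 2)) ^ m ≤
      1 / ((2 ^ β : ℕ) : ℝ) ^ p := by
  have hD := H.hD
  subst hD
  have hb := H.hb
  refine fail_sum (((2 ^ β : ℕ) : ℝ) ^ p) ?_ _ S (by positivity) ?_ m hm hS0 hS
  · have h1 : (2 : ℕ) ≤ (2 ^ β) ^ p := by
      calc 2 ≤ 2 ^ β := by omega
        _ = (2 ^ β) ^ 1 := (pow_one _).symm
        _ ≤ (2 ^ β) ^ p := Nat.pow_le_pow_right (by positivity) (by have := H.hp; omega)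
    exact_mod_cast h1
  · rw [H.hk]
    exact fail_ratio hb H.hp H.hh H.hP

theorem rds (H : Par β p h ℓ N δ D) : (N : ℝ) ^ (1 - δ) ≤ 1 / ((2 ^ β : ℕ) : ℝ) ^ p / 2 *
    (((2 ^ β) ^ ((21 * (D + 1 - (2 ^ β) ^ 2) - 11) * p) : ℕ) + 1) := by
  have := reads H.hD H.hb H.hp H.hh H.h1 δ H.hδ H.hδ0
  rw [← H.hN', ← H.hD] at this
  exact this

/-- The hypothesis on the agreement. -/
theorem agree (H : Par β p h ℓ N δ D) (I A : ℝ) (hI : 0 ≤ I)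
    (hA : (1 / 2 + (N : ℝ) ^ (-(1 / (4 * (β : ℝ) * (21 * ((2 ^ β : ℕ) : ℝ) ^ 3 + 9))))) * I ≤ A) :
    (1 / 2 + 1 / ((2 ^ β : ℕ) : ℝ) ^ p) * I ≤ A := by
  refine le_trans (mul_le_mul_of_nonneg_right ?_ hI) hA
  apply add_le_add_right
  have hN0 : (0 : ℝ) < N := by
    have := H.one_le_N
    have : 0 < N := by omega
    exact_mod_cast this
  rw [Real.rpow_neg hN0.le, ← one_div]
  apply one_div_le_one_div_of_le (Real.rpow_pos_of_pos hN0 _)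
  refine H.hNc.trans ?_
  push_cast
  rw [← pow_mul, ← Real.rpow_natCast]
  apply Real.rpow_le_rpow_of_exponent_le (by norm_num)
  push_cast
  have hβ1 : (1 : ℝ) ≤ β := by
    have := H.hβ
    have : 1 ≤ β := by omega
    exact_mod_cast this
  have hp0 : (0 : ℝ) ≤ p := by positivity
  nlinarith

/-- **The lower bound for the space.** -/
theorem law (H : Par β p h ℓ N δ D) (hh2 : h ≤ 2 ^ p) (g : Word D (2 * p)) (i : Fin D)
    (P : DBP (Var D (2 * p) h (2 ^ ℓ)) (2 ^ ℓ))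
    (T M : Input D (2 * p) h (2 ^ ℓ) → ℕ)
    (R : Input D (2 * p) h (2 ^ ℓ) → Bool)
    (hS : Real.log P.size ≤
      1 / (4 * (β : ℝ) * (21 * ((2 ^ β : ℕ) : ℝ) ^ 3 + 9)) * h * Real.log N)
    (hrun : ∀ x, P.Run x (T x) (M x) (R x))
    (hag : (1 / 2 + (N : ℝ) ^ (-(1 / (4 * (β : ℝ) * (21 * ((2 ^ β : ℕ) : ℝ) ^ 3 + 9))))) *
        Fintype.card (Input D (2 * p) h (2 ^ ℓ)) ≤
      (univ.filter (fun x => R x = bit (value x h le_rfl g i))).card) :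
    (N : ℝ) ^ (1 - δ) * Fintype.card (Input D (2 * p) h (2 ^ ℓ)) ≤
      ∑ x, (M x : ℝ) := by
  have hD := H.hD
  subst hD
  have hb := H.hb
  have hp := H.hp
  have hh1 := H.h1
  have hPpos : 0 < P.size := Fintype.card_pos_iff.2 ⟨P.start⟩
  have hPpos' : (0 : ℝ) < P.size := by exact_mod_cast hPpos
  have hN0 : (0 : ℝ) < N := by
    have := H.one_le_N
    have : 0 < N := by omega
    exact_mod_cast this
  set c : ℝ := 1 / (4 * (β : ℝ) * (21 * ((2 ^ β : ℕ) : ℝ) ^ 3 + 9)) with hc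
  have hsize : 2 * (P.size : ℝ) ≤ (((2 ^ β : ℕ) : ℝ) ^ p) ^ h := by
    have h1 : (P.size : ℝ) ≤ ((N : ℝ) ^ c) ^ h := by
      rw [← Real.exp_log hPpos']
      have h2 : ((N : ℝ) ^ c) ^ h = Real.exp (c * h * Real.log N) := by
        rw [← Real.rpow_natCast, ← Real.rpow_mul hN0.le, Real.rpow_def_of_pos hN0]
        congr 1
        ring
      rw [h2]
      exact Real.exp_le_exp.2 hS
    have h3 : ((N : ℝ) ^ c) ^ h ≤ ((2 : ℝ) ^ ((p : ℝ) / 4)) ^ h :=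
      pow_le_pow_left₀ (by positivity) H.hNc h
    have h4 : 2 * ((2 : ℝ) ^ ((p : ℝ) / 4)) ^ h ≤ (((2 ^ β : ℕ) : ℝ) ^ p) ^ h := by
      push_cast
      rw [← Real.rpow_natCast ((2 : ℝ) ^ ((p : ℝ) / 4)) h, ← Real.rpow_mul (by norm_num),
        ← pow_mul, ← pow_mul, ← Real.rpow_natCast 2 (β * (p * h))]
      have h5 : (2 : ℝ) * (2 : ℝ) ^ ((p : ℝ) / 4 * h) = (2 : ℝ) ^ (1 + (p : ℝ) / 4 * h) := by
        rw [Real.rpow_add (by norm_num), Real.rpow_one]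
      rw [h5]
      apply Real.rpow_le_rpow_of_exponent_le (by norm_num)
      push_cast
      have e1 : (2 : ℝ) ≤ β := by exact_mod_cast H.hβ
      have e2 : (6 : ℝ) ≤ p := by exact_mod_cast hp
      have e3 : (1 : ℝ) ≤ h := by exact_mod_cast hh1
      have e4 : (6 : ℝ) ≤ p * h := by nlinarith
      have e5 : 2 * ((p : ℝ) * h) ≤ β * (p * h) := mul_le_mul_of_nonneg_right e1 (by linarith)
      calc 1 + (p : ℝ) / 4 * h = 1 + (p * h) / 4 := by ring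
        _ ≤ 2 * (p * h) := by linarith
        _ ≤ β * (p * h) := e5
    linarith
  have hm : 4 * h * ((2 ^ β) ^ 3) ^ (2 * p + 1) ≤
      ((2 ^ β) ^ 2) ^ (2 * p + 1) * ((2 ^ β) ^ 2) ^ (2 * p + 1) := by
    have h1 : h ≤ (2 ^ β) ^ p := by
      refine hh2.trans ?_
      apply Nat.pow_le_pow_left
      omega
    set b := 2 ^ β with hbdef
    calc 4 * h * (b ^ 3) ^ (2 * p + 1) ≤ b * b ^ p * (b ^ 3) ^ (2 * p + 1) := by gcongr
      _ = b ^ (7 * p + 4) := by ring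
      _ ≤ b ^ (8 * p + 4) := Nat.pow_le_pow_right (by omega) (by omega)
      _ = (b ^ 2) ^ (2 * p + 1) * (b ^ 2) ^ (2 * p + 1) := by ring
  have hD1 : 1 ≤ (2 ^ β) ^ 2 := Nat.one_le_pow _ _ (by omega)
  have h2 : 2 ≤ (2 ^ β) ^ 2 := by nlinarith
  have h3 : (2 ^ β) ^ 2 ≤ (2 ^ β) ^ 3 := Nat.pow_le_pow_right (by omega) (by omega)
  have key := law_avg (D := (2 ^ β) ^ 3) (ρ := 2 * p) (h := h) (k := 2 ^ ℓ) ((2 ^ β) ^ 2) h
    ((2 ^ β) ^ ((21 * ((2 ^ β) ^ 3 + 1 - (2 ^ β) ^ 2) - 11) * p)) (1 / ((2 ^ β : ℕ) : ℝ) ^ p)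
    H.even_k (Nat.one_le_pow _ _ (by norm_num)) h2 h3 hh1 le_rfl hm P g i T M R hrun
    (H.fail P.size h hh1 hPpos'.le hsize)
    (H.agree _ _ (by positivity) hag)
  refine le_trans (mul_le_mul_of_nonneg_right ?_ (by positivity)) key
  refine H.rds.trans ?_
  have h4 : (0 : ℝ) ≤ 1 / ((2 ^ β : ℕ) : ℝ) ^ p := by positivity
  apply mul_le_mul_of_nonneg_right _ (by positivity)
  linarith

end Lower

end Par

end Pool.Agent.W997.DB
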