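import Pool.Agent.W997.DB.Final

/-!
# The final statements
-/

set_option autoImplicit false

namespace Pool.Agent.W997.DB

open Finset
open Pool.Agent.W997.TS (DBP bit Node cnt)

namespace Par

variable {β p h ℓ N D : ℕ} {δ : ℝ}

theorem NcB (H : Par β p h ℓ N δ D) :
    (N : ℝ) ^ (1 / (4 * (β : ℝ) * (21 * ((2 ^ β : ℕ) : ℝ) ^ 3 + 9))) ≤
      ((2 ^ β : ℕ) : ℝ) ^ p := by
  refine H.hNc.trans ?_
  push_cast
  rw [← pow_mul, ← Real.rpow_natCast]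
  apply Real.rpow_le_rpow_of_exponent_le (by norm_num)
  push_cast
  have hβ1 : (1 : ℝ) ≤ β := by
    have := H.hβ
    have : 1 ≤ β := by omega
    exact_mod_cast this
  have hp0 : (0 : ℝ) ≤ p := by positivity
  nlinarith

/-- **The tradeoff.** -/
theorem tradeoff (H : Par β p h ℓ N δ D) (q : ℕ) (hq : 2 ≤ q) (hhq : h = q * (2 * p + 1))
    (g : Word D (2 * p)) (i : Fin D)
    (P : DBP (Var D (2 * p) h (2 ^ ℓ)) (2 ^ ℓ))
    (T M : Input D (2 * p) h (2 ^ ℓ) → ℕ)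
    (R : Input D (2 * p) h (2 ^ ℓ) → Bool)
    (hS : Real.log P.size ≤ (N : ℝ) ^ (1 / (4 * (β : ℝ) * (21 * ((2 ^ β : ℕ) : ℝ) ^ 3 + 9))))
    (hrun : ∀ x, P.Run x (T x) (M x) (R x))
    (hag : (1 / 2 + (N : ℝ) ^ (-(1 / (4 * (β : ℝ) * (21 * ((2 ^ β : ℕ) : ℝ) ^ 3 + 9))))) *
        Fintype.card (Input D (2 * p) h (2 ^ ℓ)) ≤
      (univ.filter (fun x => R x = bit (value x h le_rfl g i))).card) :
    (N : ℝ) ^ (1 - δ) * Fintype.card (Input D (2 * p) h (2 ^ ℓ)) ≤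
      ∑ x, (M x : ℝ) ∨
    (N : ℝ) ^ (1 / (4 * (β : ℝ) * (21 * ((2 ^ β : ℕ) : ℝ) ^ 3 + 9)) * q) *
        Fintype.card (Input D (2 * p) h (2 ^ ℓ)) ≤
      ∑ x, (T x : ℝ) := by
  have hD := H.hD
  subst hD
  have hb := H.hb
  have hp := H.hp
  have hh1 := H.h1
  have hPpos : 0 < P.size := Fintype.card_pos_iff.2 ⟨P.start⟩
  have hPpos' : (0 : ℝ) < P.size := by exact_mod_cast hPpos
  have hN0 : (0 : ℝ) < N := by
    have := H.one_le_N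
    have : 0 < N := by omega
    exact_mod_cast this
  have hBn : 4 ^ 6 ≤ (2 ^ β) ^ p := by
    calc 4 ^ 6 ≤ (2 ^ β) ^ 6 := Nat.pow_le_pow_left hb 6
      _ ≤ (2 ^ β) ^ p := Nat.pow_le_pow_right (by omega) hp
  have hsize : 2 * (P.size : ℝ) ≤ (((2 ^ β : ℕ) : ℝ) ^ p) ^ ((2 ^ β) ^ p) := by
    have h0 := hS.trans H.NcB
    have h1 : (P.size : ℝ) ≤ Real.exp (((2 ^ β : ℕ) : ℝ) ^ p) := by
      rw [← Real.exp_log hPpos']
      exact Real.exp_le_exp.2 h0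
    set B : ℝ := ((2 ^ β : ℕ) : ℝ) ^ p with hB
    have hB4 : (4096 : ℝ) ≤ B := by
      have : (((4 ^ 6 : ℕ)) : ℝ) ≤ (((2 ^ β) ^ p : ℕ) : ℝ) := by exact_mod_cast hBn
      rw [hB]
      push_cast at this ⊢
      exact this
    have h2 : B ^ ((2 ^ β) ^ p) = Real.exp (B * Real.log B) := by
      have h3 : (((2 ^ β) ^ p : ℕ) : ℝ) = B := by
        rw [hB]
        push_cast
        rfl
      rw [← Real.rpow_natCast, h3, Real.rpow_def_of_pos (by linarith), mul_comm]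
    rw [h2]
    have h4 : (2 : ℝ) ≤ Real.log B := by
      rw [Real.le_log_iff_exp_le (by linarith)]
      have h5 : Real.exp 2 = Real.exp 1 * Real.exp 1 := by rw [← Real.exp_add]; norm_num
      have h6 := Real.exp_one_lt_d9
      have h7 := Real.exp_pos 1
      rw [h5]
      nlinarith
    have h5 : B + B ≤ B * Real.log B := by nlinarith
    have h6 : Real.exp (B + B) ≤ Real.exp (B * Real.log B) := Real.exp_le_exp.2 h5
    rw [Real.exp_add] at h6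
    have h7 : (2 : ℝ) ≤ Real.exp B := by
      have := Real.add_one_le_exp B
      linarith
    have h8 := Real.exp_pos B
    nlinarith
  have hD1 : 1 ≤ (2 ^ β) ^ 2 := Nat.one_le_pow _ _ (by omega)
  have h3 : (2 ^ β) ^ 2 ≤ (2 ^ β) ^ 3 := Nat.pow_le_pow_right (by omega) (by omega)
  have c1 : 2 * (2 ^ β) ^ p * ((2 ^ β) ^ 3) ^ (2 * p + 1) ≤
      (2 * (2 ^ β) ^ p * (2 ^ β) ^ (2 * p + 1)) * ((2 ^ β) ^ 2) ^ (2 * p + 1) := by
    apply le_of_eq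
    ring
  have c2 : 2 * ((2 ^ β) ^ p * (2 * (2 ^ β) ^ p * (2 ^ β) ^ (2 * p + 1))) ≤
      ((2 ^ β) ^ 2) ^ (2 * p + 1) := by
    set b := 2 ^ β with hbdef
    calc 2 * (b ^ p * (2 * b ^ p * b ^ (2 * p + 1))) = 4 * b ^ (4 * p + 1) := by ring
      _ ≤ b * b ^ (4 * p + 1) := Nat.mul_le_mul_right _ hb
      _ = (b ^ 2) ^ (2 * p + 1) := by ring
  have ha0 : 1 ≤ 2 * (2 ^ β) ^ p * (2 ^ β) ^ (2 * p + 1) :=
    Nat.one_le_iff_ne_zero.2 (by positivity)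
  have key := tradeoff_avg (D := (2 ^ β) ^ 3) (ρ := 2 * p) (h := h) (k := 2 ^ ℓ) ((2 ^ β) ^ 2)
    ((2 ^ β) ^ p) (2 * (2 ^ β) ^ p * (2 ^ β) ^ (2 * p + 1)) ((2 ^ β) ^ p) q
    ((2 ^ β) ^ ((21 * ((2 ^ β) ^ 3 + 1 - (2 ^ β) ^ 2) - 11) * p)) (1 / ((2 ^ β : ℕ) : ℝ) ^ p)
    H.even_k (Nat.one_le_pow _ _ (by norm_num)) hD1 h3 ha0 (by omega) (le_of_eq hhq.symm) c1 c2
    P g i T M R hrun
    (H.fail P.size ((2 ^ β) ^ p) (by omega) hPpos'.le hsize)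
    (H.agree _ _ (by positivity) hag)
  rcases key with key | key
  · left
    refine le_trans (mul_le_mul_of_nonneg_right ?_ (by positivity)) key
    exact H.rds
  · right
    refine le_trans (mul_le_mul_of_nonneg_right ?_ (by positivity)) key
    set c : ℝ := 1 / (4 * (β : ℝ) * (21 * ((2 ^ β : ℕ) : ℝ) ^ 3 + 9)) with hc
    have h1 : (N : ℝ) ^ (c * q) ≤ ((2 : ℝ) ^ ((p : ℝ) / 4)) ^ q := by
      rw [Real.rpow_mul hN0.le, Real.rpow_natCast]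
      exact pow_le_pow_left₀ (by positivity) H.hNc q
    refine h1.trans ?_
    obtain ⟨q', rfl⟩ : ∃ q', q = q' + 1 := ⟨q - 1, by omega⟩
    have hB0 : (0 : ℝ) < ((2 ^ β : ℕ) : ℝ) ^ p := by positivity
    have h2 : 1 / ((2 ^ β : ℕ) : ℝ) ^ p / 2 * (((2 ^ β) ^ p : ℕ) : ℝ) ^ (q' + 1) =
        (((2 ^ β : ℕ) : ℝ) ^ p) ^ q' / 2 := by
      push_cast
      rw [pow_succ]
      field_simp
    rw [h2, le_div_iff₀ (by norm_num), ← Real.rpow_natCast ((2 : ℝ) ^ ((p : ℝ) / 4)),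
      ← Real.rpow_mul (by norm_num)]
    have h4 : (2 : ℝ) ^ ((p : ℝ) / 4 * ((q' + 1 : ℕ) : ℝ)) * 2 =
        (2 : ℝ) ^ ((p : ℝ) / 4 * ((q' + 1 : ℕ) : ℝ) + 1) := by
      rw [Real.rpow_add (by norm_num), Real.rpow_one]
    rw [h4]
    push_cast
    rw [← pow_mul, ← pow_mul, ← Real.rpow_natCast 2 (β * (p * q'))]
    apply Real.rpow_le_rpow_of_exponent_le (by norm_num)
    push_cast
    have e1 : (2 : ℝ) ≤ β := by exact_mod_cast H.hβ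
    have e2 : (6 : ℝ) ≤ p := by exact_mod_cast hp
    have e3 : (1 : ℝ) ≤ q' := by
      have : 1 ≤ q' := by omega
      exact_mod_cast this
    have e4 : (p : ℝ) ≤ p * q' := by nlinarith
    have e5 : 2 * ((p : ℝ) * q') ≤ β * (p * q') := mul_le_mul_of_nonneg_right e1 (by linarith)
    calc (p : ℝ) / 4 * (q' + 1) + 1 = (p * q') / 4 + p / 4 + 1 := by ring
      _ ≤ 2 * (p * q') := by linarith
      _ ≤ β * (p * q') := e5

/-- The logarithm of the number of variables. -/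
theorem log_N_ge (H : Par β p h ℓ N δ D) : ((2 * p + 1 : ℕ) : ℝ) ≤ Real.log N := by
  refine le_trans ?_ H.log_N
  have h1 : (1 : ℝ) ≤ ((2 ^ β : ℕ) : ℝ) ^ 3 := by
    apply one_le_pow₀
    have : 1 ≤ 2 ^ β := Nat.one_le_pow _ _ (by norm_num)
    exact_mod_cast this
  have h2 : (ℓ : ℝ) = 21 * β * p := by
    rw [H.hℓ]
    push_cast
    ring
  have e1 : (2 : ℝ) ≤ β := by exact_mod_cast H.hβ
  have e2 : (6 : ℝ) ≤ p := by exact_mod_cast H.hp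
  have h3 := Real.log_two_gt_d9
  have h4 : 42 * (p : ℝ) ≤ ℓ := by
    rw [h2]
    nlinarith
  have h5 : (ℓ : ℝ) ≤ ((2 ^ β : ℕ) : ℝ) ^ 3 * ℓ := by nlinarith
  push_cast
  push_cast at h5
  nlinarith

/-- The time of the recursion. -/
theorem time_le (H : Par β p h ℓ N δ D) (q : ℕ) (hq : 2 ≤ q) (hhq : h = q * (2 * p + 1)) :
    D ^ (h + 1) ≤ N ^ q := by
  rw [H.hD]
  have hp := H.hp
  have hb := H.hb
  refine le_trans ?_ (Nat.pow_le_pow_left H.le_N q)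
  rw [← pow_mul (2 ^ β), ← pow_mul (2 ^ β)]
  apply Nat.pow_le_pow_right (by omega)
  have h1 : 1 ≤ (2 ^ β) ^ 3 := Nat.one_le_pow _ _ (by omega)
  have h2 : 21 * 1 * p * q ≤ 21 * (2 ^ β) ^ 3 * p * q :=
    Nat.mul_le_mul_right _ (Nat.mul_le_mul_right _ (Nat.mul_le_mul_left _ h1))
  refine le_trans ?_ h2
  rw [hhq]
  have h3 : 2 * 6 ≤ q * p := Nat.mul_le_mul hq hp
  have h4 : q * 6 ≤ q * p := Nat.mul_le_mul_left _ hp
  nlinarith

end Par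

theorem exists_par (δ : ℝ) (hδ : 0 < δ) : ∃ β p₀ : ℕ, 2 ≤ β ∧ 6 ≤ p₀ ∧ ∀ D,
    D = (2 ^ β) ^ 3 → ∀ p, p₀ ≤ p →
    ∀ h, 1 ≤ h → h + 1 ≤ (2 ^ β) ^ (2 * p) → ∀ ℓ, ℓ = 21 * β * p → ∀ N,
      N = Fintype.card (Var D (2 * p) h (2 ^ ℓ)) → Par β p h ℓ N δ D := by
  obtain ⟨n, hn⟩ := exists_nat_ge (2 / δ)
  set β := n + 2 with hβ
  have hb4 : 4 ≤ 2 ^ β := by
    calc 4 = 2 ^ 2 := by norm_num
      _ ≤ 2 ^ β := Nat.pow_le_pow_right (by norm_num) (by omega)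
  refine ⟨β, 2 ^ ((2 ^ β) ^ 3) * (2 ^ β) ^ 3 * (2 ^ β) ^ 3 + 21 * β + 6, by omega, by omega, ?_⟩
  intro D hD p hp h h1 hh ℓ hℓ N hN
  have hpp : p < 2 ^ p := Nat.lt_two_pow_self
  have h2 : 2 ^ p ≤ (2 ^ β) ^ p := Nat.pow_le_pow_left (by omega) p
  refine ⟨hD, by omega, ?_, hδ, by omega, by omega, hℓ, ?_, h1, hh, hN⟩
  · have h3 : n < 2 ^ n := Nat.lt_two_pow_self
    have h4 : (n : ℝ) ≤ ((2 ^ β : ℕ) : ℝ) := by
      have h5 : n ≤ 2 ^ β := h3.le.trans (Nat.pow_le_pow_right (by norm_num) (by omega))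
      exact_mod_cast h5
    have h5 : 2 / δ ≤ ((2 ^ β : ℕ) : ℝ) := hn.trans h4
    rw [div_le_iff₀ hδ] at h5
    linarith
  · rw [hℓ]
    have h3 : 21 * β + 1 ≤ 2 ^ p := by omega
    calc 21 * β * p + 1 ≤ (21 * β + 1) * (p + 1) := by nlinarith
      _ ≤ 2 ^ p * 2 ^ p := Nat.mul_le_mul h3 hpp
      _ = 4 ^ p := by rw [← mul_pow]; norm_num
      _ ≤ (2 ^ β) ^ p := Nat.pow_le_pow_left hb4 p

end Pool.Agent.W997.DB
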