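import Pool.Agent.W997.DB.Union

/-!
# Uniformly random inputs
-/

set_option autoImplicit false

namespace Pool.Agent.W997.DB

open Finset
open Pool.Agent.W997.TS (DBP)

variable {V Γ : Type} {D k : ℕ} [Fintype Γ] [DecidableEq Γ] [DecidableEq V] (Y : Sys V Γ D k)

namespace Sys

theorem val_unique (x : V → Fin k) (z w : Γ × Fin D → Fin k) (hz : ∀ v, z v = x (Y.pos z v))
    (hw : ∀ v, w v = x (Y.pos w v)) : z = w := by
  have h : ∀ (n : ℕ) (v : Γ × Fin D), Y.ht v.1 = n → z v = w v := by
    intro n
    induction n using Nat.strong_induction_on with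
    | _ n ih =>
      intro v hv
      rw [hz v, hw v]
      congr 1
      rw [Y.pos_eq_iff]
      intro h0 s
      exact ih (Y.ht (Y.cg v)) (by have := Y.cg_lt v h0; omega) (Y.cg v, s) rfl
  funext v
  exact h _ v rfl

variable (val : (V → Fin k) → Γ × Fin D → Fin k) (hval : ∀ x v, val x v = x (Y.pos (val x) v))

include hval in
theorem val_inp (g : V → Fin k) (z : Γ × Fin D → Fin k) : val (Y.inp g z) = z :=
  Y.val_unique (Y.inp g z) _ _ (hval _) (fun v => (Y.inp_pos g z v).symm)

/-- The parametrisation of the inputs. -/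
def split : (V → Fin k) × (Γ × Fin D → Fin k) ≃ (V → Fin k) × (Γ × Fin D → Fin k) where
  toFun p := (Y.inp p.1 p.2, fun v => p.1 (Y.pos p.2 v))
  invFun p := (fun w => if w = Y.pos (val p.1) (Y.nodeOf w) then p.2 (Y.nodeOf w) else p.1 w,
    val p.1)
  left_inv := by
    rintro ⟨g, z⟩
    refine Prod.ext ?_ ?_
    · funext w
      simp only [Y.val_inp val hval]
      split_ifs with h
      · rw [← h]
      · unfold inp
        rw [if_neg h]
    · exact Y.val_inp val hval g z
  right_inv := by
    rintro ⟨x, e⟩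
    refine Prod.ext ?_ ?_
    · funext w
      simp only [inp]
      split_ifs with h
      · rw [hval, ← h]
      · rfl
    · funext v
      simp only [Y.nodeOf_pos, if_true]

include hval in
/-- Transfer of an estimate for all backgrounds to uniformly random inputs. -/
theorem transfer [Fintype V] (A : Finset (V → Fin k)) (β : ℝ)
    (h : ∀ (g : V → Fin k) (B : Finset (Γ × Fin D → Fin k)), (∀ z ∈ B, Y.inp g z ∈ A) →
      (B.card : ℝ) ≤ β * (k : ℝ) ^ Fintype.card (Γ × Fin D)) (hk : 1 ≤ k) :
    (A.card : ℝ) ≤ β * Fintype.card (V → Fin k) := by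
  classical
  set B : (V → Fin k) → Finset (Γ × Fin D → Fin k) := fun g =>
    univ.filter (fun z => Y.inp g z ∈ A) with hB
  have h1 : (A ×ˢ (univ : Finset (Γ × Fin D → Fin k))).card =
      ∑ g : V → Fin k, (B g).card := by
    have h2 : (A ×ˢ (univ : Finset (Γ × Fin D → Fin k))).card =
        ((univ : Finset ((V → Fin k) × (Γ × Fin D → Fin k))).filter
          (fun p => Y.inp p.1 p.2 ∈ A)).card := by
      symm
      apply card_bij (fun p _ => Y.split val hval p)
      · intro p hp
        rw [mem_product]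
        exact ⟨(mem_filter.1 hp).2, mem_univ _⟩
      · intro p _ p' _ hpp
        exact (Y.split val hval).injective hpp
      · intro p hp
        refine ⟨(Y.split val hval).symm p, ?_, (Y.split val hval).apply_symm_apply p⟩
        rw [mem_filter]
        refine ⟨mem_univ _, ?_⟩
        have h3 : ((Y.split val hval) ((Y.split val hval).symm p)).1 = p.1 := by
          rw [(Y.split val hval).apply_symm_apply]
        have h4 : Y.inp ((Y.split val hval).symm p).1 ((Y.split val hval).symm p).2 = p.1 := h3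
        rw [h4]
        exact (mem_product.1 hp).1
    rw [h2, card_filter, ← univ_product_univ, sum_product]
    apply sum_congr rfl
    intro g _
    rw [hB, card_filter]
  rw [card_product, card_univ, Fintype.card_fun, Fintype.card_fin] at h1
  have h2 : ((A.card * k ^ Fintype.card (Γ × Fin D) : ℕ) : ℝ) ≤
      Fintype.card (V → Fin k) * (β * (k : ℝ) ^ Fintype.card (Γ × Fin D)) := by
    rw [h1]
    push_cast
    refine (sum_le_sum fun g _ => h g (B g) (fun z hz => (mem_filter.1 hz).2)).trans ?_
    rw [sum_const, nsmul_eq_mul, card_univ]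
  have hk0 : (0 : ℝ) < (k : ℝ) ^ Fintype.card (Γ × Fin D) := by
    have : (0 : ℝ) < k := by exact_mod_cast hk
    positivity
  push_cast at h2
  have h3 : (A.card : ℝ) * (k : ℝ) ^ Fintype.card (Γ × Fin D) ≤
      (β * Fintype.card (V → Fin k)) * (k : ℝ) ^ Fintype.card (Γ × Fin D) := by
    refine h2.trans (le_of_eq ?_)
    ring
  exact le_of_mul_le_mul_right h3 hk0

/-- Somewhere on the computation there are `n` groups with at least `e` live nodes. -/
def Crowded (P : DBP V k) (z : Γ × Fin D → Fin k) (e n : ℕ) (l : List P.State) : Prop :=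
  ∃ S : Finset Γ, S.card = n ∧ ∀ γ ∈ S, e ≤ Y.lv P z γ l

include hval in
/-- **The bound for random inputs**: few inputs are such that at every node at most `t` variables
are read, and either a group has `e` live nodes in the beginning, or there are at some time `m`
groups with `e` live nodes. -/
theorem random_bound [Fintype V] (P : DBP V k) (Δ : ℕ) (hΔ : ∀ γ, (Y.prs γ).card ≤ Δ) (t : ℕ)
    (e m : ℕ) (he : 1 ≤ e) (hk : 1 ≤ k) (L : (V → Fin k) → List P.State)
    (R : (V → Fin k) → Bool) (hLR : ∀ x, P.IsPath x P.start (L x) (R x))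
    (A : Finset (V → Fin k))
    (hA : ∀ x ∈ A, (∀ a, (Y.asked P a (P.start :: L x)).card ≤ t) ∧
      (Y.Crowded P (val x) e 1 (P.start :: L x) ∨
        ∃ q l, q :: l <:+ P.start :: L x ∧ Y.Crowded P (val x) e m (q :: l))) :
    (A.card : ℝ) ≤ (((Fintype.card Γ * 2 ^ D * Δ * t : ℕ) / (k : ℝ) ^ e) + P.size *
      ((Fintype.card Γ * 2 ^ D * Δ * t : ℕ) / (k : ℝ) ^ e) ^ m) *
        Fintype.card (V → Fin k) := by
  classical
  refine Y.transfer val hval A _ ?_ hk
  intro g B hB
  set ρ : ℝ := ((Fintype.card Γ * 2 ^ D * Δ * t : ℕ) : ℝ) / (k : ℝ) ^ e with hρ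
  set K : ℝ := (k : ℝ) ^ Fintype.card (Γ × Fin D) with hK
  set B0 := B.filter (fun z => Y.Crowded P z e 1 (P.start :: L (Y.inp g z))) with hB0
  set B1 : P.State → Finset (Γ × Fin D → Fin k) := fun q =>
    B.filter (fun z => ∃ l, q :: l <:+ P.start :: L (Y.inp g z) ∧ Y.Crowded P z e m (q :: l))
    with hB1
  have hpath : ∀ (x : V → Fin k) (r : Bool) (l : List P.State) (q q' : P.State)
      (l' : List P.State), P.IsPath x q l r → q' :: l' <:+ q :: l → P.IsPath x q' l' r := by
    intro x r l
    induction l with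
    | nil =>
      intro q q' l' hp hs
      have h1 : q' :: l' = [q] := by
        rcases List.suffix_cons_iff.1 hs with h | h
        · exact h
        · rw [List.suffix_nil] at h
          cases h
      cases h1
      exact hp
    | cons q1 l ih =>
      intro q q' l' hp hs
      rcases List.suffix_cons_iff.1 hs with h | h
      · cases h
        exact hp
      · exact ih q1 q' l' hp.2 h
  have hask : ∀ (a : Γ × Fin D) (l l' : List P.State), l <:+ l' →
      (Y.asked P a l).card ≤ (Y.asked P a l').card := by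
    intro a l l' hs
    apply card_le_card
    intro w hw
    simp only [asked, mem_filter, List.mem_toFinset, List.mem_map] at hw ⊢
    obtain ⟨⟨q, hq, rfl⟩, h⟩ := hw
    exact ⟨⟨q, hs.subset hq, rfl⟩, h⟩
  have hcov : B ⊆ B0 ∪ univ.biUnion B1 := by
    intro z hz
    obtain ⟨h1, h2⟩ := hA _ (hB z hz)
    rw [Y.val_inp val hval] at h2
    rcases h2 with h2 | ⟨q, l, hs, h2⟩
    · exact mem_union_left _ (mem_filter.2 ⟨hz, h2⟩)
    · exact mem_union_right _ (mem_biUnion.2 ⟨q, mem_univ _, mem_filter.2 ⟨hz, l, hs, h2⟩⟩)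
  have b0 : (B0.card : ℝ) ≤ ρ ^ 1 * K := by
    refine Y.union_bound P Δ hΔ g t P.start e 1 he hk B0 ?_
    intro z hz
    obtain ⟨hzB, h1⟩ := mem_filter.1 hz
    exact ⟨L (Y.inp g z), R (Y.inp g z), hLR _, (hA _ (hB z hzB)).1, h1⟩
  have b1 : ∀ q, ((B1 q).card : ℝ) ≤ ρ ^ m * K := by
    intro q
    refine Y.union_bound P Δ hΔ g t q e m he hk (B1 q) ?_
    intro z hz
    obtain ⟨hzB, l, hs, h1⟩ := mem_filter.1 hz
    refine ⟨l, R (Y.inp g z), hpath _ _ _ _ _ _ (hLR _) hs, ?_, h1⟩
    intro a
    exact (hask a _ _ hs).trans ((hA _ (hB z hzB)).1 a)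
  calc (B.card : ℝ) ≤ ((B0 ∪ univ.biUnion B1).card : ℝ) := by exact_mod_cast card_le_card hcov
    _ ≤ (B0.card : ℝ) + ((univ.biUnion B1).card : ℝ) := by exact_mod_cast card_union_le _ _
    _ ≤ (B0.card : ℝ) + ((∑ q, (B1 q).card : ℕ) : ℝ) := by
        have : (univ.biUnion B1).card ≤ ∑ q, (B1 q).card := card_biUnion_le
        have h2 : ((univ.biUnion B1).card : ℝ) ≤ ((∑ q, (B1 q).card : ℕ) : ℝ) := by
          exact_mod_cast this
        linarith
    _ ≤ ρ ^ 1 * K + ∑ _q : P.State, ρ ^ m * K := by
        push_cast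
        exact add_le_add b0 (sum_le_sum fun q _ => b1 q)
    _ = (ρ + P.size * ρ ^ m) * K := by
        rw [sum_const, nsmul_eq_mul, card_univ]
        unfold DBP.size
        ring

end Sys

end Pool.Agent.W997.DB
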