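import Pool.Agent.W997.TS.Defs

/-!
# The counting lemma for group structured evaluation problems

The nodes come in groups of `D` nodes, and the children of every inner node are exactly the nodes
of one group, its child group.
-/

set_option autoImplicit false

namespace Pool.Agent.W997.DB

open Finset
open Pool.Agent.W997.TS (DBP)

/-- An evaluation problem: `V` is the set of variables, `Γ` the set of groups, `Γ × Fin D` the set
of nodes. -/
structure Sys (V Γ : Type) (D k : ℕ) where
  /-- the node of a variable -/
  nodeOf : V → Γ × Fin D
  /-- the variable which has to be read at a node, if the values of the nodes are given -/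
  pos : (Γ × Fin D → Fin k) → Γ × Fin D → V
  /-- the height of a group -/
  ht : Γ → ℕ
  /-- the child group -/
  cg : Γ × Fin D → Γ
  nodeOf_pos : ∀ z v, nodeOf (pos z v) = v
  pos_eq_iff : ∀ z w v, pos z v = pos w v ↔ (0 < ht v.1 → ∀ s, z (cg v, s) = w (cg v, s))
  cg_lt : ∀ v, 0 < ht v.1 → ht (cg v) < ht v.1

variable {V Γ : Type} {D k : ℕ} [Fintype Γ] [DecidableEq Γ] [DecidableEq V] (Y : Sys V Γ D k)

namespace Sys

/-- The input with background `g` in which the values of the nodes are given by `z`. -/
def inp (g : V → Fin k) (z : Γ × Fin D → Fin k) : V → Fin k := fun w =>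
  if w = Y.pos z (Y.nodeOf w) then z (Y.nodeOf w) else g w

theorem inp_pos (g : V → Fin k) (z : Γ × Fin D → Fin k) (v : Γ × Fin D) :
    Y.inp g z (Y.pos z v) = z v := by
  unfold inp
  rw [Y.nodeOf_pos, if_pos rfl]

theorem cg_ne {v : Γ × Fin D} (h : 0 < Y.ht v.1) : Y.cg v ≠ v.1 := by
  intro h1
  have := Y.cg_lt v h
  rw [h1] at this
  omega

/-- The parents of the nodes of a group. -/
def prs (γ : Γ) : Finset (Γ × Fin D) := univ.filter (fun a => 0 < Y.ht a.1 ∧ Y.cg a = γ)

theorem mem_prs {γ : Γ} {a : Γ × Fin D} : a ∈ Y.prs γ ↔ 0 < Y.ht a.1 ∧ Y.cg a = γ := by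
  simp [prs]

variable (P : DBP V k)

/-- Some parent of `c` is evaluated before the next evaluation of `c`. -/
def Live (z : Γ × Fin D → Fin k) (c : Γ × Fin D) : List P.State → Prop
  | [] => False
  | q :: l => (∃ a ∈ Y.prs c.1, P.query q = Y.pos z a) ∨
      (P.query q ≠ Y.pos z c ∧ Live z c l)

/-- The variables of the node `p` which are read in the states of a list. -/
def asked (p : Γ × Fin D) (l : List P.State) : Finset V :=
  (l.map P.query).toFinset.filter (fun w => Y.nodeOf w = p)

theorem asked_cons (p : Γ × Fin D) (q : P.State) (l : List P.State) :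
    Y.asked P p l ⊆ Y.asked P p (q :: l) := by
  intro w hw
  simp only [asked, mem_filter, List.mem_toFinset, List.mem_map, List.mem_cons] at hw ⊢
  obtain ⟨⟨q', hq', rfl⟩, h⟩ := hw
  exact ⟨⟨q', Or.inr hq', rfl⟩, h⟩

theorem mem_asked_self (q : P.State) (l : List P.State) :
    P.query q ∈ Y.asked P (Y.nodeOf (P.query q)) (q :: l) := by
  simp [asked]

/-- **The counting lemma.** -/
theorem count (g : V → Fin k) (t : ℕ) : ∀ (T : ℕ) (q : P.State) (U : Finset (Γ × Fin D))
    (Z : Γ × Fin D → Finset V) (X : Finset (Γ × Fin D → Fin k)),
    (∀ z ∈ X, ∀ w ∈ X, ∀ c, c ∉ U → z c = w c) →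
    (∀ z ∈ X, ∀ γ ∈ U.image Prod.fst, ∀ a ∈ Y.prs γ, Y.pos z a ∉ Z a) →
    (∀ z ∈ X, ∃ (l : List P.State) (r : Bool), l.length < T ∧ P.IsPath (Y.inp g z) q l r ∧
      (∀ c ∈ U, Y.Live P z c (q :: l)) ∧
      ∀ γ ∈ U.image Prod.fst, ∀ a ∈ Y.prs γ, (Z a ∪ Y.asked P a (q :: l)).card ≤ t) →
    X.card ≤ ∏ γ ∈ U.image Prod.fst, ∑ a ∈ Y.prs γ, (t - (Z a).card)
  | 0, q, U, Z, X, _, _, h => by
    have : X = ∅ := by
      rw [eq_empty_iff_forall_notMem]
      intro z hz
      obtain ⟨l, r, hl, -⟩ := h z hz
      omega
    subst this
    simp
  | T + 1, q, U, Z, X, hX, hZ, h => by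
    classical
    rcases X.eq_empty_or_nonempty with rfl | ⟨z0, hz0⟩
    · simp
    set w0 := P.query q with hw0
    set i := Y.nodeOf w0 with hi
    -- the common continuation for a set of assignments with the same answer
    have step : ∀ (X' : Finset (Γ × Fin D → Fin k)) (U' : Finset (Γ × Fin D))
        (Z' : Γ × Fin D → Finset V) (a0 : Fin k), X' ⊆ X → U' ⊆ U →
        (∀ z ∈ X', Y.inp g z w0 = a0) →
        (∀ z ∈ X', ∀ w ∈ X', ∀ c, c ∉ U' → z c = w c) →
        (∀ z ∈ X', ∀ c ∈ U', ∀ a ∈ Y.prs c.1, w0 ≠ Y.pos z a) →
        (∀ z ∈ X', ∀ γ ∈ U'.image Prod.fst, ∀ a ∈ Y.prs γ, Y.pos z a ∉ Z' a) →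
        (∀ γ ∈ U'.image Prod.fst, ∀ a ∈ Y.prs γ, ∀ l,
          Z' a ∪ Y.asked P a l ⊆ Z a ∪ Y.asked P a (q :: l)) →
        X'.card ≤ ∏ γ ∈ U'.image Prod.fst, ∑ a ∈ Y.prs γ, (t - (Z' a).card) := by
      intro X' U' Z' a0 hXX hU'U hans hagr hno hZ' hbud
      rcases X'.eq_empty_or_nonempty with rfl | ⟨y0, hy0⟩
      · simp
      cases hn : P.next q a0 with
      | inr r0 =>
        have hlnil : ∀ z ∈ X', ∀ (l : List P.State) (r : Bool), P.IsPath (Y.inp g z) q l r →
            l = [] := by
          intro z hz l r hp
          cases l with
          | nil => rfl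
          | cons q' l =>
            have h1 := hp.1
            change P.next q (Y.inp g z w0) = Sum.inl q' at h1
            rw [hans z hz, hn] at h1
            cases h1
        have hUe : U' = ∅ := by
          rw [eq_empty_iff_forall_notMem]
          intro c hc
          obtain ⟨l, r, -, hp, hl, -⟩ := h y0 (hXX hy0)
          have h1 := hlnil y0 hy0 l r hp
          subst h1
          have h2 := hl c (hU'U hc)
          rcases h2 with ⟨a, ha, h2⟩ | h2
          · exact hno y0 hy0 c hc a ha h2
          · exact h2.2
        subst hUe
        have h3 : X'.card ≤ 1 := by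
          rw [card_le_one]
          intro z hz w hw
          funext c
          exact hagr z hz w hw c (notMem_empty c)
        simpa using h3
      | inl q' =>
        refine count g t T q' U' Z' X' hagr hZ' ?_
        intro z hz
        obtain ⟨l, r, hlen, hp, hl, hb⟩ := h z (hXX hz)
        cases l with
        | nil =>
          have h1 : P.next q (Y.inp g z w0) = Sum.inr r := hp
          rw [hans z hz, hn] at h1
          cases h1
        | cons q2 l =>
          have h1 : P.next q (Y.inp g z w0) = Sum.inl q2 := hp.1
          rw [hans z hz, hn] at h1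
          have h2 : q' = q2 := Sum.inl.inj h1
          subst h2
          refine ⟨l, r, by simp only [List.length_cons] at hlen; omega, hp.2, ?_, ?_⟩
          · intro c hc
            rcases hl c (hU'U hc) with ⟨a, ha, h3⟩ | h3
            · exact absurd h3 (hno z hz c hc a ha)
            · exact h3.2
          · intro γ hγ a ha
            refine (card_le_card (hbud γ hγ a ha (q' :: l))).trans (hb γ ?_ a ha)
            exact image_subset_image hU'U hγ
    by_cases hiP : 0 < Y.ht i.1 ∧ Y.cg i ∈ U.image Prod.fst
    · obtain ⟨hin, hiP⟩ := hiP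
      have hipr : i ∈ Y.prs (Y.cg i) := Y.mem_prs.2 ⟨hin, rfl⟩
      by_cases hwZ : w0 ∈ Z i
      · -- already tried
        refine step X U Z (g w0) (Subset.refl _) (Subset.refl _) ?_ hX ?_ hZ ?_
        · intro z hz
          unfold inp
          rw [if_neg]
          intro h1
          exact hZ z hz _ hiP i hipr (h1 ▸ hwZ)
        · intro z hz c hc a ha h1
          have h2 : a = i := by rw [hi, h1, Y.nodeOf_pos]
          subst h2
          exact hZ z hz _ hiP _ hipr (h1 ▸ hwZ)
        · intro γ _ a _ l
          exact union_subset_union (Subset.refl _) (Y.asked_cons P a q l)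
      · -- a new candidate
        set Xy := X.filter (fun z => w0 = Y.pos z i) with hXy
        set Xn := X.filter (fun z => ¬ w0 = Y.pos z i) with hXn
        have hsum : X.card = Xy.card + Xn.card := by
          rw [hXy, hXn]
          exact (card_filter_add_card_filter_not _).symm
        set U' := U.filter (fun c => c.1 ≠ Y.cg i) with hU'
        have himg : U'.image Prod.fst = (U.image Prod.fst).erase (Y.cg i) := by
          ext p
          simp only [hU', mem_image, mem_filter, mem_erase]
          constructor
          · rintro ⟨c, ⟨hc1, hc2⟩, rfl⟩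
            exact ⟨hc2, c, hc1, rfl⟩
          · rintro ⟨h1, c, hc, rfl⟩
            exact ⟨c, ⟨hc, h1⟩, rfl⟩
        have hZcard : (Z i).card + 1 ≤ t := by
          obtain ⟨l, r, -, -, -, hb⟩ := h z0 hz0
          have h1 := hb _ hiP i hipr
          have h2 : insert w0 (Z i) ⊆ Z i ∪ Y.asked P i (q :: l) := by
            intro w hw
            rcases mem_insert.1 hw with rfl | hw
            · exact mem_union_right _ (Y.mem_asked_self P q l)
            · exact mem_union_left _ hw
          have h3 := card_le_card h2
          rw [card_insert_of_notMem hwZ] at h3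
          omega
        have hy : Xy.card ≤ ∏ γ ∈ (U.image Prod.fst).erase (Y.cg i),
            ∑ a ∈ Y.prs γ, (t - (Z a).card) := by
          rw [← himg]
          rcases Xy.eq_empty_or_nonempty with he | ⟨y0, hy0⟩
          · rw [he]; simp
          have hsub : ∀ z ∈ Xy, z ∈ X ∧ w0 = Y.pos z i := fun z hz => mem_filter.1 hz
          have hiU : i ∉ U := by
            intro hiU
            obtain ⟨l, r, -, -, hl, -⟩ := h y0 (hsub y0 hy0).1
            rcases hl i hiU with ⟨a, ha, h1⟩ | h1
            · have h2 : a = i := by rw [hi, hw0, h1, Y.nodeOf_pos]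
              subst h2
              exact Y.cg_ne hin (Y.mem_prs.1 ha).2
            · exact h1.1 (hsub y0 hy0).2
          refine step Xy U' Z (y0 i) (filter_subset _ _) (filter_subset _ _) ?_ ?_ ?_ ?_ ?_
          · intro z hz
            rw [(hsub z hz).2, Y.inp_pos]
            exact hX z (hsub z hz).1 y0 (hsub y0 hy0).1 i hiU
          · intro z hz w hw c hc
            by_cases hcU : c ∈ U
            · have hpc : c.1 = Y.cg i := by
                by_contra hne
                exact hc (mem_filter.2 ⟨hcU, hne⟩)
              have h2 : Y.pos z i = Y.pos w i := (hsub z hz).2.symm.trans (hsub w hw).2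
              have h3 := (Y.pos_eq_iff z w i).1 h2 hin c.2
              rw [← hpc] at h3
              exact h3
            · exact hX z (hsub z hz).1 w (hsub w hw).1 c hcU
          · intro z hz c hc a ha h1
            have h2 : a = i := by rw [hi, h1, Y.nodeOf_pos]
            subst h2
            exact (mem_filter.1 hc).2 (Y.mem_prs.1 ha).2.symm
          · intro z hz γ hγ a ha
            exact hZ z (hsub z hz).1 γ (image_subset_image (filter_subset _ _) hγ) a ha
          · intro γ _ a _ l
            exact union_subset_union (Subset.refl _) (Y.asked_cons P a q l)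
        set A := ∑ a ∈ (Y.prs (Y.cg i)).erase i, (t - (Z a).card) with hA
        have hsA : ∑ a ∈ Y.prs (Y.cg i), (t - (Z a).card) = (t - (Z i).card) + A :=
          (add_sum_erase _ _ hipr).symm
        have hn' : Xn.card ≤ ((t - ((Z i).card + 1)) + A) *
            ∏ γ ∈ (U.image Prod.fst).erase (Y.cg i), ∑ a ∈ Y.prs γ, (t - (Z a).card) := by
          set Z' := Function.update Z i (insert w0 (Z i)) with hZ'
          have h1 : ∏ γ ∈ U.image Prod.fst, ∑ a ∈ Y.prs γ, (t - (Z' a).card) =
              ((t - ((Z i).card + 1)) + A) *
              ∏ γ ∈ (U.image Prod.fst).erase (Y.cg i), ∑ a ∈ Y.prs γ, (t - (Z a).card) := by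
            rw [← mul_prod_erase _ _ hiP]
            congr 1
            · rw [← add_sum_erase _ _ hipr]
              congr 1
              · rw [hZ', Function.update_self, card_insert_of_notMem hwZ]
              · apply sum_congr rfl
                intro a ha
                rw [hZ', Function.update_of_ne (mem_erase.1 ha).1]
            · apply prod_congr rfl
              intro γ hγ
              apply sum_congr rfl
              intro a ha
              rw [hZ', Function.update_of_ne]
              intro hai
              subst hai
              exact (mem_erase.1 hγ).1 (Y.mem_prs.1 ha).2.symm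
          rw [← h1]
          have hsub : ∀ z ∈ Xn, z ∈ X ∧ ¬ w0 = Y.pos z i := fun z hz => mem_filter.1 hz
          refine step Xn U Z' (g w0) (filter_subset _ _) (Subset.refl _) ?_ ?_ ?_ ?_ ?_
          · intro z hz
            unfold inp
            rw [if_neg (hsub z hz).2]
          · intro z hz w hw
            exact hX z (hsub z hz).1 w (hsub w hw).1
          · intro z hz c hc a ha h2
            have h3 : a = i := by rw [hi, h2, Y.nodeOf_pos]
            subst h3
            exact (hsub z hz).2 h2
          · intro z hz γ hγ a ha
            by_cases hpi : a = i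
            · subst hpi
              rw [hZ', Function.update_self, mem_insert, not_or]
              exact ⟨fun h4 => (hsub z hz).2 h4.symm, hZ z (hsub z hz).1 _ hγ _ ha⟩
            · rw [hZ', Function.update_of_ne hpi]
              exact hZ z (hsub z hz).1 γ hγ a ha
          · intro γ hγ a ha l
            by_cases hpi : a = i
            · subst hpi
              rw [hZ', Function.update_self]
              intro w hw
              rcases mem_union.1 hw with hw | hw
              · rcases mem_insert.1 hw with rfl | hw
                · exact mem_union_right _ (Y.mem_asked_self P q l)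
                · exact mem_union_left _ hw
              · exact mem_union_right _ (Y.asked_cons P _ q l hw)
            · rw [hZ', Function.update_of_ne hpi]
              exact union_subset_union (Subset.refl _) (Y.asked_cons P a q l)
        rw [hsum, ← mul_prod_erase _ _ hiP, hsA]
        calc Xy.card + Xn.card ≤ ∏ γ ∈ (U.image Prod.fst).erase (Y.cg i),
              ∑ a ∈ Y.prs γ, (t - (Z a).card) +
              ((t - ((Z i).card + 1)) + A) * ∏ γ ∈ (U.image Prod.fst).erase (Y.cg i),
              ∑ a ∈ Y.prs γ, (t - (Z a).card) :=
              Nat.add_le_add hy hn'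
          _ = ((t - (Z i).card) + A) * ∏ γ ∈ (U.image Prod.fst).erase (Y.cg i),
              ∑ a ∈ Y.prs γ, (t - (Z a).card) := by
              have : t - (Z i).card = 1 + (t - ((Z i).card + 1)) := by omega
              rw [this]; ring
    · -- a node which is not the parent of a node in `U`
      have hposeq : ∀ z ∈ X, Y.pos z i = Y.pos z0 i := by
        intro z hz
        rw [Y.pos_eq_iff]
        intro hin s
        refine hX z hz z0 hz0 _ ?_
        intro hkU
        exact hiP ⟨hin, mem_image_of_mem Prod.fst hkU⟩
      have hno : ∀ z ∈ X, ∀ c ∈ U, ∀ a ∈ Y.prs c.1, w0 ≠ Y.pos z a := by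
        intro z _ c hc a ha h1
        have h2 : a = i := by rw [hi, h1, Y.nodeOf_pos]
        subst h2
        obtain ⟨h3, h4⟩ := Y.mem_prs.1 ha
        apply hiP
        refine ⟨h3, ?_⟩
        rw [h4]
        exact mem_image_of_mem _ hc
      by_cases hthr : w0 = Y.pos z0 i
      · have hiU : i ∉ U := by
          intro hiU
          obtain ⟨l, r, -, -, hl, -⟩ := h z0 hz0
          rcases hl i hiU with ⟨a, ha, h1⟩ | h1
          · exact hno z0 hz0 i hiU a ha h1
          · exact h1.1 hthr
        refine step X U Z (z0 i) (Subset.refl _) (Subset.refl _) ?_ hX hno hZ ?_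
        · intro z hz
          have h1 : w0 = Y.pos z i := by rw [hposeq z hz]; exact hthr
          rw [h1, Y.inp_pos]
          exact hX z hz z0 hz0 i hiU
        · intro γ _ a _ l
          exact union_subset_union (Subset.refl _) (Y.asked_cons P a q l)
      · refine step X U Z (g w0) (Subset.refl _) (Subset.refl _) ?_ hX hno hZ ?_
        · intro z hz
          unfold inp
          rw [if_neg]
          rw [← hi, hposeq z hz]
          exact hthr
        · intro γ _ a _ l
          exact union_subset_union (Subset.refl _) (Y.asked_cons P a q l)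

end Sys

end Pool.Agent.W997.DB
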