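import Pool.Agent.W997.DB.Sys

/-!
# The fibre bound and the union bound
-/

set_option autoImplicit false

namespace Pool.Agent.W997.DB

open Finset
open Pool.Agent.W997.TS (DBP)

variable {V Γ : Type} {D k : ℕ} [Fintype Γ] [DecidableEq Γ] [DecidableEq V] (Y : Sys V Γ D k)

namespace Sys

variable (P : DBP V k)

/-- The fibre bound. -/
theorem fiber (Δ : ℕ) (hΔ : ∀ γ, (Y.prs γ).card ≤ Δ) (g : V → Fin k) (t : ℕ) (q : P.State)
    (U : Finset (Γ × Fin D)) (A : Finset (Γ × Fin D → Fin k))
    (hA : ∀ z ∈ A, ∃ (l : List P.State) (r : Bool), P.IsPath (Y.inp g z) q l r ∧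
      (∀ c ∈ U, Y.Live P z c (q :: l)) ∧ ∀ a, (Y.asked P a (q :: l)).card ≤ t) :
    A.card * k ^ U.card ≤
      (Δ * t) ^ (U.image Prod.fst).card * k ^ Fintype.card (Γ × Fin D) := by
  classical
  -- bound for the lengths
  choose! l r hp hl hb using hA
  set T := (A.sup fun z => (l z).length) + 1 with hT
  set res : (Γ × Fin D → Fin k) → (((Uᶜ : Finset (Γ × Fin D)) : Type) → Fin k) :=
    fun z c => z c.1 with hres
  have hfib : ∀ y : ((Uᶜ : Finset (Γ × Fin D)) : Type) → Fin k,
      (A.filter (fun z => res z = y)).card ≤ (Δ * t) ^ (U.image Prod.fst).card := by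
    intro y
    have h1 := Y.count P g t T q U (fun _ => ∅) (A.filter (fun z => res z = y)) ?_ ?_ ?_
    · refine h1.trans ?_
      rw [← prod_const]
      apply prod_le_prod'
      intro γ _
      simp only [card_empty, Nat.sub_zero, sum_const, smul_eq_mul]
      exact Nat.mul_le_mul_right _ (hΔ γ)
    · intro z hz w hw c hc
      have h2 := (mem_filter.1 hz).2.trans (mem_filter.1 hw).2.symm
      exact congrFun h2 ⟨c, mem_compl.2 hc⟩
    · intro z _ γ _ a _
      exact notMem_empty _
    · intro z hz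
      have hzA := (mem_filter.1 hz).1
      refine ⟨l z, r z, ?_, hp z hzA, hl z hzA, ?_⟩
      · have : (l z).length ≤ A.sup fun z => (l z).length :=
          le_sup (f := fun z => (l z).length) hzA
        omega
      · intro γ _ a _
        rw [empty_union]
        exact hb z hzA a
  have h1 : A.card = ∑ y : ((Uᶜ : Finset (Γ × Fin D)) : Type) → Fin k,
      (A.filter (fun z => res z = y)).card :=
    card_eq_sum_card_fiberwise (fun z _ => mem_coe.2 (mem_univ _))
  have h2 : A.card ≤ k ^ (Uᶜ).card * (Δ * t) ^ (U.image Prod.fst).card := by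
    rw [h1]
    refine (sum_le_sum fun y _ => hfib y).trans ?_
    rw [sum_const, card_univ, Fintype.card_fun, Fintype.card_fin, Fintype.card_coe, smul_eq_mul]
  calc A.card * k ^ U.card ≤ (k ^ (Uᶜ).card * (Δ * t) ^ (U.image Prod.fst).card) * k ^ U.card :=
        Nat.mul_le_mul_right _ h2
    _ = (Δ * t) ^ (U.image Prod.fst).card * (k ^ (Uᶜ).card * k ^ U.card) := by ring
    _ = (Δ * t) ^ (U.image Prod.fst).card * k ^ Fintype.card (Γ × Fin D) := by
        rw [← pow_add, card_compl_add_card]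

/-- The number of live nodes of a group. -/
noncomputable def lv (z : Γ × Fin D → Fin k) (γ : Γ) (l : List P.State) : ℕ :=
  open Classical in (univ.filter (fun s : Fin D => Y.Live P z (γ, s) l)).card

/-- **The union bound.** -/
theorem union_bound (Δ : ℕ) (hΔ : ∀ γ, (Y.prs γ).card ≤ Δ) (g : V → Fin k) (t : ℕ)
    (q : P.State) (e n : ℕ) (he : 1 ≤ e) (hk : 1 ≤ k) (A : Finset (Γ × Fin D → Fin k))
    (hA : ∀ z ∈ A, ∃ (l : List P.State) (r : Bool), P.IsPath (Y.inp g z) q l r ∧
      (∀ a, (Y.asked P a (q :: l)).card ≤ t) ∧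
      ∃ S : Finset Γ, S.card = n ∧ ∀ γ ∈ S, e ≤ Y.lv P z γ (q :: l)) :
    (A.card : ℝ) ≤ ((Fintype.card Γ * 2 ^ D * Δ * t : ℕ) / (k : ℝ) ^ e) ^ n *
      (k : ℝ) ^ Fintype.card (Γ × Fin D) := by
  classical
  have hk0 : (0 : ℝ) < k := by exact_mod_cast hk
  -- the parametrisation of the sets
  set Uf : (Fin n → Γ × Finset (Fin D)) → Finset (Γ × Fin D) := fun f =>
    univ.biUnion (fun j => (f j).2.image (fun s => ((f j).1, s))) with hUf
  set F : Finset (Fin n → Γ × Finset (Fin D)) :=
    univ.filter (fun f => Function.Injective (fun j => (f j).1) ∧ ∀ j, e ≤ (f j).2.card) with hF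
  set B : (Fin n → Γ × Finset (Fin D)) → Finset (Γ × Fin D → Fin k) := fun f =>
    A.filter (fun z => ∃ (l : List P.State) (r : Bool), P.IsPath (Y.inp g z) q l r ∧
      (∀ c ∈ Uf f, Y.Live P z c (q :: l)) ∧ ∀ a, (Y.asked P a (q :: l)).card ≤ t) with hB
  have hcov : A ⊆ F.biUnion B := by
    intro z hz
    obtain ⟨l, r, hp, hb, S, hS, hS2⟩ := hA z hz
    let en : Fin n ≃ S := (finCongr hS.symm).trans S.equivFin.symm
    set f : Fin n → Γ × Finset (Fin D) := fun j =>
      ((en j : Γ), univ.filter (fun s : Fin D => Y.Live P z ((en j : Γ), s) (q :: l))) with hf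
    rw [mem_biUnion]
    refine ⟨f, ?_, ?_⟩
    · rw [hF, mem_filter]
      refine ⟨mem_univ _, ?_, ?_⟩
      · intro j j' hjj
        exact en.injective (Subtype.ext hjj)
      · intro j
        have := hS2 _ (en j).2
        unfold lv at this
        convert this using 2
    · rw [hB, mem_filter]
      refine ⟨hz, l, r, hp, ?_, hb⟩
      intro c hc
      rw [hUf, mem_biUnion] at hc
      obtain ⟨j, -, hc⟩ := hc
      obtain ⟨s, hs, rfl⟩ := mem_image.1 hc
      exact (mem_filter.1 hs).2
  have hFcard : (F.card : ℝ) ≤ ((Fintype.card Γ * 2 ^ D : ℕ) : ℝ) ^ n := by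
    have h1 : F.card ≤ (Fintype.card Γ * 2 ^ D) ^ n := by
      refine (card_le_univ F).trans (le_of_eq ?_)
      rw [Fintype.card_fun, Fintype.card_prod, Fintype.card_finset, Fintype.card_fin,
        Fintype.card_fin]
    exact_mod_cast h1
  have hBcard : ∀ f ∈ F, ((B f).card : ℝ) ≤ (((Δ * t : ℕ) : ℝ) / (k : ℝ) ^ e) ^ n *
      (k : ℝ) ^ Fintype.card (Γ × Fin D) := by
    intro f hf
    rw [hF, mem_filter] at hf
    obtain ⟨-, hinj, hcard⟩ := hf
    have himg : ((Uf f).image Prod.fst).card = n := by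
      have h1 : (Uf f).image Prod.fst = univ.image (fun j => (f j).1) := by
        ext γ
        simp only [hUf, mem_image, mem_biUnion, mem_univ, true_and]
        constructor
        · rintro ⟨c, ⟨j, s, hs, rfl⟩, rfl⟩
          exact ⟨j, rfl⟩
        · rintro ⟨j, rfl⟩
          have h2 : (f j).2.Nonempty := by
            rw [← card_pos]
            have := hcard j
            omega
          obtain ⟨s, hs⟩ := h2
          exact ⟨_, ⟨j, s, hs, rfl⟩, rfl⟩
      rw [h1, card_image_of_injective _ hinj, card_univ, Fintype.card_fin]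
    have hUcard : e * n ≤ (Uf f).card := by
      rw [hUf, card_biUnion]
      · calc e * n = ∑ _j : Fin n, e := by simp [mul_comm]
          _ ≤ ∑ j : Fin n, ((f j).2.image (fun s => ((f j).1, s))).card := by
            apply sum_le_sum
            intro j _
            rw [card_image_of_injective]
            · exact hcard j
            · intro s s' hss
              exact (Prod.mk.inj hss).2
      · intro j _ j' _ hjj
        change Disjoint ((f j).2.image (fun s => ((f j).1, s)))
          ((f j').2.image (fun s => ((f j').1, s)))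
        rw [disjoint_left]
        intro c hc hc'
        obtain ⟨s, -, rfl⟩ := mem_image.1 hc
        obtain ⟨s', -, h1⟩ := mem_image.1 hc'
        exact hjj (hinj (Prod.mk.inj h1).1.symm)
    have h1 := Y.fiber P Δ hΔ g t q (Uf f) (B f) (fun z hz => (mem_filter.1 hz).2)
    rw [himg] at h1
    have h2 : ((B f).card : ℝ) * (k : ℝ) ^ (Uf f).card ≤
        ((Δ * t : ℕ) : ℝ) ^ n * (k : ℝ) ^ Fintype.card (Γ × Fin D) := by exact_mod_cast h1
    have h3 : (k : ℝ) ^ (e * n) ≤ (k : ℝ) ^ (Uf f).card :=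
      pow_le_pow_right₀ (by exact_mod_cast hk) hUcard
    rw [div_pow, ← pow_mul, div_mul_eq_mul_div, le_div_iff₀ (by positivity)]
    calc ((B f).card : ℝ) * (k : ℝ) ^ (e * n) ≤ (B f).card * (k : ℝ) ^ (Uf f).card :=
          mul_le_mul_of_nonneg_left h3 (by positivity)
      _ ≤ _ := h2
  calc (A.card : ℝ) ≤ ((F.biUnion B).card : ℝ) := by exact_mod_cast card_le_card hcov
    _ ≤ ((∑ f ∈ F, (B f).card : ℕ) : ℝ) := by exact_mod_cast card_biUnion_le
    _ = ∑ f ∈ F, ((B f).card : ℝ) := by push_cast; rfl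
    _ ≤ ∑ f ∈ F, ((((Δ * t : ℕ) : ℝ) / (k : ℝ) ^ e) ^ n *
          (k : ℝ) ^ Fintype.card (Γ × Fin D)) := sum_le_sum hBcard
    _ = F.card * ((((Δ * t : ℕ) : ℝ) / (k : ℝ) ^ e) ^ n *
          (k : ℝ) ^ Fintype.card (Γ × Fin D)) := by rw [sum_const, nsmul_eq_mul]
    _ ≤ ((Fintype.card Γ * 2 ^ D : ℕ) : ℝ) ^ n * ((((Δ * t : ℕ) : ℝ) / (k : ℝ) ^ e) ^ n *
          (k : ℝ) ^ Fintype.card (Γ × Fin D)) :=
        mul_le_mul_of_nonneg_right hFcard (by positivity)
    _ = _ := by
        rw [← mul_assoc, ← mul_pow]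
        congr 2
        push_cast
        ring

end Sys

end Pool.Agent.W997.DB
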